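import Pool.Agent.H612.BB.T_VB

/-!
# Correctness of the computation of signs
-/

namespace H612BB

open Vis124 Pool.Agent.NPC Set

theorem sgR_mul (s t : ℝ) : sgR (s * t) = sgR s * sgR t := by
  rcases lt_trichotomy s 0 with h | h | h <;> rcases lt_trichotomy t 0 with h' | h' | h'
  · rw [sgR_neg h, sgR_neg h', sgR_pos (mul_pos_of_neg_of_neg h h')]; norm_num
  · simp [h', sgR_zero]
  · rw [sgR_neg h, sgR_pos h', sgR_neg (mul_neg_of_neg_of_pos h h')]; norm_num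
  · simp [h, sgR_zero]
  · simp [h, sgR_zero]
  · simp [h, sgR_zero]
  · rw [sgR_pos h, sgR_neg h', sgR_neg (mul_neg_of_pos_of_neg h h')]; norm_num
  · simp [h', sgR_zero]
  · rw [sgR_pos h, sgR_pos h', sgR_pos (mul_pos h h')]; norm_num

theorem sgR_int (z : ℤ) : sgR (z : ℝ) = Int.sign z := by
  rcases lt_trichotomy z 0 with h | h | h
  · rw [sgR_neg (by exact_mod_cast h), Int.sign_eq_neg_one_of_neg h]
  · simp [h, sgR_zero]
  · rw [sgR_pos (by exact_mod_cast h), Int.sign_eq_one_of_pos h]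

/-- the odd square is strictly monotone -/
theorem osq_lt {s t : ℝ} (h : s < t) : s * |s| < t * |t| := by
  rcases le_or_gt 0 s with hs | hs
  · rw [abs_of_nonneg hs, abs_of_nonneg (hs.trans h.le)]; nlinarith
  · rw [abs_of_neg hs]
    rcases le_or_gt 0 t with ht | ht
    · rw [abs_of_nonneg ht]; nlinarith
    · rw [abs_of_neg ht]; nlinarith

theorem sgR_osq (s t : ℝ) : sgR (s + t) = sgR (s * |s| + t * |t|) := by
  have e : -(t * |t|) = (-t) * |(-t)| := by rw [abs_neg]; ring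
  rcases lt_trichotomy (s + t) 0 with h | h | h
  · have h1 := osq_lt (show s < -t by linarith)
    rw [← e] at h1
    rw [sgR_neg h, sgR_neg (by linarith)]
  · have h1 : s = -t := by linarith
    have h2 : s * |s| + t * |t| = 0 := by rw [h1, ← e]; ring
    rw [h, h2]
  · have h1 := osq_lt (show -t < s by linarith)
    rw [← e] at h1
    rw [sgR_pos h, sgR_pos (by linarith)]

theorem sgR_mul_self_abs (u : ℝ) : u * |u| = (sgR u : ℝ) * u ^ 2 := by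
  rcases lt_trichotomy u 0 with h | h | h
  · rw [sgR_neg h, abs_of_neg h]; push_cast; ring
  · simp [h]
  · rw [sgR_pos h, abs_of_pos h]; push_cast; ring

theorem sg1_eq (x y : ℤ) (d : ℕ) : sg1 x y d = sgR ((x : ℝ) + y * √(d : ℝ)) := by
  rw [sgR_osq, sg1, ← sgR_int]
  congr 1
  have hd : (0:ℝ) ≤ √(d : ℝ) := Real.sqrt_nonneg _
  have hd2 : √(d : ℝ) * √(d : ℝ) = d := Real.mul_self_sqrt (Nat.cast_nonneg d)
  rw [abs_mul, abs_of_nonneg hd]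
  push_cast
  have : (y : ℝ) * √(d : ℝ) * (|(y : ℝ)| * √(d : ℝ)) = y * |(y : ℝ)| * (√(d : ℝ) * √(d : ℝ)) := by
    ring
  rw [this, hd2]

theorem sg2_eq (a b c e : ℤ) (d₁ d₂ : ℕ) : sg2 a b c e d₁ d₂ =
    sgR ((a : ℝ) + b * √(d₁ : ℝ) + c * √(d₂ : ℝ) + e * (√(d₁ : ℝ) * √(d₂ : ℝ))) := by
  have hd2 : √(d₂ : ℝ) * √(d₂ : ℝ) = d₂ := Real.mul_self_sqrt (Nat.cast_nonneg d₂)
  have hd1 : √(d₁ : ℝ) * √(d₁ : ℝ) = d₁ := Real.mul_self_sqrt (Nat.cast_nonneg d₁)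
  have e1 : (a : ℝ) + b * √(d₁ : ℝ) + c * √(d₂ : ℝ) + e * (√(d₁ : ℝ) * √(d₂ : ℝ)) =
      ((a : ℝ) + b * √(d₁ : ℝ)) + ((c : ℝ) + e * √(d₁ : ℝ)) * √(d₂ : ℝ) := by ring
  rw [e1, sgR_osq, sg2, sg1_eq]
  congr 1
  have hs : (0:ℝ) ≤ √(d₂ : ℝ) := Real.sqrt_nonneg _
  rw [abs_mul, abs_of_nonneg hs]
  have e2 : ((c : ℝ) + e * √(d₁ : ℝ)) * √(d₂ : ℝ) * (|(c : ℝ) + e * √(d₁ : ℝ)| * √(d₂ : ℝ)) =
      (((c : ℝ) + e * √(d₁ : ℝ)) * |(c : ℝ) + e * √(d₁ : ℝ)|) * (√(d₂ : ℝ) * √(d₂ : ℝ)) := by ring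
  rw [e2, hd2, sgR_mul_self_abs, sgR_mul_self_abs, ← sg1_eq, ← sg1_eq]
  push_cast
  linear_combination (-(sg1 a b d₁ : ℝ) * b ^ 2 - (sg1 c e d₁ : ℝ) * d₂ * e ^ 2) * hd1

theorem SGN_holds : S_SGN := by
  intro α β F hα hβ
  have h1 : (α.2.2 : ℝ) ≠ 0 := by exact_mod_cast hα
  have h2 : (β.2.2 : ℝ) ≠ 0 := by exact_mod_cast hβ
  have h12 : sgR ((α.2.2 : ℝ) * β.2.2) * sgR ((α.2.2 : ℝ) * β.2.2) = 1 := by
    have h3 : (α.2.2 : ℝ) * β.2.2 ≠ 0 := mul_ne_zero h1 h2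
    rcases lt_or_gt_of_ne h3 with h | h
    · rw [sgR_neg h]; norm_num
    · rw [sgR_pos h]; norm_num
  have key : F.val α.val β.val * ((α.2.2 : ℝ) * β.2.2) =
      ((F.1 * α.1 * β.1 + F.2.1 * α.1 * β.2.2 + F.2.2.1 * β.1 * α.2.2 +
        F.2.2.2 * α.2.2 * β.2.2 : ℤ) : ℝ) + ((F.1 * β.1 + F.2.1 * β.2.2 : ℤ) : ℝ) * √(α.2.1 : ℝ) +
        ((F.1 * α.1 + F.2.2.1 * α.2.2 : ℤ) : ℝ) * √(β.2.1 : ℝ) +
        (F.1 : ℝ) * (√(α.2.1 : ℝ) * √(β.2.1 : ℝ)) := by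
    simp only [Form.val, Num.val]
    push_cast
    field_simp
    ring
  have e : fsg α β F = sgR ((α.2.2 : ℝ) * β.2.2) * sgR (F.val α.val β.val * ((α.2.2 : ℝ) * β.2.2)) := by
    rw [key, ← sg2_eq, sgR_mul, sgR_int, sgR_int]
    rfl
  rw [e, sgR_mul (F.val α.val β.val), mul_comm (sgR (F.val α.val β.val)), ← mul_assoc, h12, one_mul]

end H612BB
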