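import Pool.Agent.H612.BB.Stubs
import Pool.Agent.H687R2.IntPoly
import Pool.Agent.H671R2.PolyAuto

/-!
# The visibility test is polynomial-time computable
-/

namespace H612BB

open Vis124 Pool.Agent.NPC

section

variable {α : Type} [TEnc α]

theorem po_sign {f : α → ℤ} (hf : Pool.Agent.NPC.Poly f) :
    Pool.Agent.NPC.Poly (fun a => (f a).sign) := by
  have h0 : Pool.Agent.NPC.Poly (fun _ : α => (0 : ℤ)) := Pool.Agent.NPC.Poly.const _
  have h1 : Pool.Agent.NPC.Poly (fun _ : α => (1 : ℤ)) := Pool.Agent.NPC.Poly.const _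
  have h2 : Pool.Agent.NPC.Poly (fun _ : α => (-1 : ℤ)) := Pool.Agent.NPC.Poly.const _
  refine (Pool.Agent.NPC.Poly.cond (Pool.Agent.NPC.Poly.ilt h0 hf) h1
    (Pool.Agent.NPC.Poly.cond (Pool.Agent.NPC.Poly.ilt hf h0) h2 h0)).congr fun a => ?_
  rcases lt_trichotomy (f a) 0 with h | h | h
  · simp [Int.sign_eq_neg_one_of_neg h, h, not_lt.2 h.le]
  · simp [h]
  · simp [Int.sign_eq_one_of_pos h, h]

theorem po_abs {f : α → ℤ} (hf : Pool.Agent.NPC.Poly f) :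
    Pool.Agent.NPC.Poly (fun a => |f a|) :=
  (Pool.Agent.NPC.Poly.natCast hf.natAbs).congr fun _ => Int.natCast_natAbs _

attribute [fun_prop] Pool.Agent.NPC.Poly.iadd Pool.Agent.NPC.Poly.isub Pool.Agent.NPC.Poly.imul
  Pool.Agent.NPC.Poly.ineg Pool.Agent.NPC.Poly.ilt Pool.Agent.NPC.Poly.ile po_sign po_abs

theorem po_psub {f g : α → ℤ × ℤ} (hf : Pool.Agent.NPC.Poly f) (hg : Pool.Agent.NPC.Poly g) :
    Pool.Agent.NPC.Poly (fun a => f a - g a) := by
  have h : Pool.Agent.NPC.Poly (fun a => ((f a).1 - (g a).1, (f a).2 - (g a).2)) := by fun_prop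
  exact h

attribute [fun_prop] po_psub

theorem po_pn {L : α → List (ℤ × ℤ)} {i : α → ℕ} (hL : Pool.Agent.NPC.Poly L)
    (hi : Pool.Agent.NPC.Poly i) : Pool.Agent.NPC.Poly (fun a => pn (L a) (i a)) := by
  unfold pn
  fun_prop

theorem po_crz {f g : α → ℤ × ℤ} (hf : Pool.Agent.NPC.Poly f) (hg : Pool.Agent.NPC.Poly g) :
    Pool.Agent.NPC.Poly (fun a => crz (f a) (g a)) := by
  unfold crz
  fun_prop

theorem po_dtz {f g : α → ℤ × ℤ} (hf : Pool.Agent.NPC.Poly f) (hg : Pool.Agent.NPC.Poly g) :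
    Pool.Agent.NPC.Poly (fun a => dtz (f a) (g a)) := by
  unfold dtz
  fun_prop

attribute [fun_prop] po_pn po_crz po_dtz

attribute [local irreducible] pn crz dtz

theorem po_fOri {p q r s v : α → ℤ × ℤ} (hp : Pool.Agent.NPC.Poly p)
    (hq : Pool.Agent.NPC.Poly q) (hr : Pool.Agent.NPC.Poly r) (hs : Pool.Agent.NPC.Poly s)
    (hv : Pool.Agent.NPC.Poly v) :
    Pool.Agent.NPC.Poly (fun a => fOri (p a) (q a) (r a) (s a) (v a)) := by
  unfold fOri
  fun_prop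

theorem po_fDot {p q r s v : α → ℤ × ℤ} (hp : Pool.Agent.NPC.Poly p)
    (hq : Pool.Agent.NPC.Poly q) (hr : Pool.Agent.NPC.Poly r) (hs : Pool.Agent.NPC.Poly s)
    (hv : Pool.Agent.NPC.Poly v) :
    Pool.Agent.NPC.Poly (fun a => fDot (p a) (q a) (r a) (s a) (v a)) := by
  unfold fDot
  fun_prop

theorem po_fX {p q r s : α → ℤ × ℤ} (hp : Pool.Agent.NPC.Poly p)
    (hq : Pool.Agent.NPC.Poly q) (hr : Pool.Agent.NPC.Poly r) (hs : Pool.Agent.NPC.Poly s) :
    Pool.Agent.NPC.Poly (fun a => fX (p a) (q a) (r a) (s a)) := by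
  unfold fX
  fun_prop

theorem po_fY {p q r s : α → ℤ × ℤ} (hp : Pool.Agent.NPC.Poly p)
    (hq : Pool.Agent.NPC.Poly q) (hr : Pool.Agent.NPC.Poly r) (hs : Pool.Agent.NPC.Poly s) :
    Pool.Agent.NPC.Poly (fun a => fY (p a) (q a) (r a) (s a)) := by
  unfold fY
  fun_prop

theorem po_fY' {p q r s : α → ℤ × ℤ} (hp : Pool.Agent.NPC.Poly p)
    (hq : Pool.Agent.NPC.Poly q) (hr : Pool.Agent.NPC.Poly r) (hs : Pool.Agent.NPC.Poly s) :
    Pool.Agent.NPC.Poly (fun a => fY' (p a) (q a) (r a) (s a)) := by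
  unfold fY'
  fun_prop

attribute [fun_prop] po_fOri po_fDot po_fX po_fY po_fY'

theorem po_sg1 {x y : α → ℤ} {d : α → ℕ} (hx : Pool.Agent.NPC.Poly x)
    (hy : Pool.Agent.NPC.Poly y) (hd : Pool.Agent.NPC.Poly d) :
    Pool.Agent.NPC.Poly (fun a => sg1 (x a) (y a) (d a)) := by
  unfold sg1
  fun_prop

attribute [fun_prop] po_sg1

attribute [local irreducible] sg1 fOri fDot fX fY fY'

theorem po_sg2 {x y z t : α → ℤ} {d e : α → ℕ} (hx : Pool.Agent.NPC.Poly x)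
    (hy : Pool.Agent.NPC.Poly y) (hz : Pool.Agent.NPC.Poly z) (ht : Pool.Agent.NPC.Poly t)
    (hd : Pool.Agent.NPC.Poly d) (he : Pool.Agent.NPC.Poly e) :
    Pool.Agent.NPC.Poly (fun a => sg2 (x a) (y a) (z a) (t a) (d a) (e a)) := by
  unfold sg2
  fun_prop

attribute [fun_prop] po_sg2

attribute [local irreducible] sg2

theorem po_fsg {x y : α → Num} {F : α → Form} (hx : Pool.Agent.NPC.Poly x)
    (hy : Pool.Agent.NPC.Poly y) (hF : Pool.Agent.NPC.Poly F) :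
    Pool.Agent.NPC.Poly (fun a => fsg (x a) (y a) (F a)) := by
  unfold fsg
  fun_prop

attribute [fun_prop] po_fsg

attribute [local irreducible] fsg

theorem po_vex {x y : α → Num} {L : α → List (ℤ × ℤ)} {σ : α → ℤ} {e f k : α → ℕ}
    (hx : Pool.Agent.NPC.Poly x) (hy : Pool.Agent.NPC.Poly y) (hL : Pool.Agent.NPC.Poly L)
    (hσ : Pool.Agent.NPC.Poly σ) (he : Pool.Agent.NPC.Poly e) (hf : Pool.Agent.NPC.Poly f)
    (hk : Pool.Agent.NPC.Poly k) :
    Pool.Agent.NPC.Poly (fun a => vex (fsg (x a) (y a)) (L a) (σ a) (e a) (f a) (k a)) := by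
  have h0 : Pool.Agent.NPC.Poly (fun _ : α => (0 : ℤ)) := Pool.Agent.NPC.Poly.const _
  have g1 : Pool.Agent.NPC.Poly (fun a => fsg (x a) (y a)
      (fOri (pn (L a) (e a)) (pn (L a) (e a + 1)) (pn (L a) (f a)) (pn (L a) (f a + 1))
        (pn (L a) (k a)))) := by fun_prop
  have g2 : Pool.Agent.NPC.Poly (fun a => fsg (x a) (y a)
      (fDot (pn (L a) (e a)) (pn (L a) (e a + 1)) (pn (L a) (f a)) (pn (L a) (f a + 1))
        (pn (L a) (k a)))) := by fun_prop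
  have g3 : Pool.Agent.NPC.Poly (fun a => -σ a * crz (pn (L a) (k a + 1) - pn (L a) (k a))
      (pn (L a) (k a + ((L a).length - 1)) - pn (L a) (k a))) := by fun_prop
  have g4 : Pool.Agent.NPC.Poly (fun a => -σ a * fsg (x a) (y a)
      (fY (pn (L a) (k a + 1) - pn (L a) (k a)) (pn (L a) (k a)) (pn (L a) (f a))
        (pn (L a) (f a + 1)))) := by fun_prop
  have g5 : Pool.Agent.NPC.Poly (fun a => -σ a * fsg (x a) (y a)
      (fY' (pn (L a) (k a)) (pn (L a) (k a + ((L a).length - 1)) - pn (L a) (k a))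
        (pn (L a) (f a)) (pn (L a) (f a + 1)))) := by fun_prop
  have k1 := Pool.Agent.NPC.Poly.decide_eq g1 h0
  have k2 := Pool.Agent.NPC.Poly.ile g2 h0
  have k3 := Pool.Agent.NPC.Poly.ilt h0 g3
  have k3' := Pool.Agent.NPC.Poly.ile g3 h0
  have k4 := Pool.Agent.NPC.Poly.ilt h0 g4
  have k5 := Pool.Agent.NPC.Poly.ilt h0 g5
  refine ((k1.and k2).and (((k3.and k4).and k5).or (k3'.and (k4.or k5)))).congr fun a => ?_
  unfold vex
  congr

theorem po_eex {x y : α → Num} {L : α → List (ℤ × ℤ)} {σ : α → ℤ} {e f k : α → ℕ}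
    (hx : Pool.Agent.NPC.Poly x) (hy : Pool.Agent.NPC.Poly y) (hL : Pool.Agent.NPC.Poly L)
    (hσ : Pool.Agent.NPC.Poly σ) (he : Pool.Agent.NPC.Poly e) (hf : Pool.Agent.NPC.Poly f)
    (hk : Pool.Agent.NPC.Poly k) :
    Pool.Agent.NPC.Poly (fun a => eex (fsg (x a) (y a)) (L a) (σ a) (e a) (f a) (k a)) := by
  have h0 : Pool.Agent.NPC.Poly (fun _ : α => (0 : ℤ)) := Pool.Agent.NPC.Poly.const _
  have g1 : Pool.Agent.NPC.Poly (fun a => σ a * fsg (x a) (y a)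
      (fX (pn (L a) (k a + 1) - pn (L a) (k a)) (pn (L a) (k a)) (pn (L a) (e a))
        (pn (L a) (e a + 1)))) := by fun_prop
  have g2 : Pool.Agent.NPC.Poly (fun a => σ a * fsg (x a) (y a)
      (fY (pn (L a) (k a + 1) - pn (L a) (k a)) (pn (L a) (k a)) (pn (L a) (f a))
        (pn (L a) (f a + 1)))) := by fun_prop
  have g3 : Pool.Agent.NPC.Poly (fun a => fsg (x a) (y a)
      (fOri (pn (L a) (e a)) (pn (L a) (e a + 1)) (pn (L a) (f a)) (pn (L a) (f a + 1))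
        (pn (L a) (k a))) * fsg (x a) (y a)
      (fOri (pn (L a) (e a)) (pn (L a) (e a + 1)) (pn (L a) (f a)) (pn (L a) (f a + 1))
        (pn (L a) (k a + 1)))) := by fun_prop
  have k1 := Pool.Agent.NPC.Poly.ilt h0 g1
  have k2 := Pool.Agent.NPC.Poly.ilt g2 h0
  have k3 := Pool.Agent.NPC.Poly.ilt g3 h0
  exact ((k1.and k2).and k3).congr fun a => rfl

theorem po_sex {x y : α → Num} {L : α → List (ℤ × ℤ)} {σ : α → ℤ} {e f : α → ℕ}
    (hx : Pool.Agent.NPC.Poly x) (hy : Pool.Agent.NPC.Poly y) (hL : Pool.Agent.NPC.Poly L)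
    (hσ : Pool.Agent.NPC.Poly σ) (he : Pool.Agent.NPC.Poly e) (hf : Pool.Agent.NPC.Poly f) :
    Pool.Agent.NPC.Poly (fun a => sex (fsg (x a) (y a)) (L a) (σ a) (e a) (f a)) := by
  have h0 : Pool.Agent.NPC.Poly (fun _ : α => (0 : ℤ)) := Pool.Agent.NPC.Poly.const _
  have c1 : Pool.Agent.NPC.Poly (fun _ : α => ((0, 1, 0, 0) : Form)) :=
    Pool.Agent.NPC.Poly.const _
  have c2 : Pool.Agent.NPC.Poly (fun _ : α => ((0, -1, 0, 1) : Form)) :=
    Pool.Agent.NPC.Poly.const _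
  have g1 := po_fsg hx hy c1
  have g2 := po_fsg hx hy c2
  have g3 : Pool.Agent.NPC.Poly (fun a => σ a * fsg (x a) (y a)
      (fY (pn (L a) (e a + 1) - pn (L a) (e a)) (pn (L a) (e a)) (pn (L a) (f a))
        (pn (L a) (f a + 1)))) := by fun_prop
  have k1 := Pool.Agent.NPC.Poly.ilt h0 g1
  have k2 := Pool.Agent.NPC.Poly.ilt h0 g2
  have k3 := Pool.Agent.NPC.Poly.ilt g3 h0
  exact ((k1.and k2).and k3).congr fun a => rfl

theorem po_visB {x y : α → Num} {L : α → List (ℤ × ℤ)} {σ : α → ℤ} {e f : α → ℕ}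
    (hx : Pool.Agent.NPC.Poly x) (hy : Pool.Agent.NPC.Poly y) (hL : Pool.Agent.NPC.Poly L)
    (hσ : Pool.Agent.NPC.Poly σ) (he : Pool.Agent.NPC.Poly e) (hf : Pool.Agent.NPC.Poly f) :
    Pool.Agent.NPC.Poly (fun a => visB (fsg (x a) (y a)) (L a) (σ a) (e a) (f a)) := by
  have hp : Pool.Agent.NPC.Poly (fun p : α × ℕ => p.1) :=
    Pool.Agent.NPC.Poly.fst Pool.Agent.NPC.Poly.id
  have hq : Pool.Agent.NPC.Poly (fun p : α × ℕ => p.2) :=
    Pool.Agent.NPC.Poly.snd Pool.Agent.NPC.Poly.id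
  have hr : Pool.Agent.NPC.Poly (fun a => List.range (L a).length) :=
    Pool.Agent.NPC.Poly.range_length hL
  have g1 : Pool.Agent.NPC.Poly (fun a => (List.range (L a).length).all
      fun k => !(vex (fsg (x a) (y a)) (L a) (σ a) (e a) (f a) k)) :=
    Pool.Agent.NPC.Poly.all (p := fun a k => !(vex (fsg (x a) (y a)) (L a) (σ a) (e a) (f a) k))
      hr (po_vex (hx.comp hp) (hy.comp hp) (hL.comp hp) (hσ.comp hp) (he.comp hp) (hf.comp hp)
        hq).not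
  have g2 : Pool.Agent.NPC.Poly (fun a => (List.range (L a).length).all
      fun k => !(eex (fsg (x a) (y a)) (L a) (σ a) (e a) (f a) k)) :=
    Pool.Agent.NPC.Poly.all (p := fun a k => !(eex (fsg (x a) (y a)) (L a) (σ a) (e a) (f a) k))
      hr (po_eex (hx.comp hp) (hy.comp hp) (hL.comp hp) (hσ.comp hp) (he.comp hp) (hf.comp hp)
        hq).not
  exact ((g1.and g2).and (po_sex hx hy hL hσ he hf).not).congr fun a => rfl

end

theorem PO1_holds : S_PO1 := by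
  unfold S_PO1
  have h1 : Pool.Agent.NPC.Poly (fun a : (Num × Num) × (List (ℤ × ℤ) × ℤ) × ℕ × ℕ => a.1.1) := by
    fun_prop
  have h2 : Pool.Agent.NPC.Poly (fun a : (Num × Num) × (List (ℤ × ℤ) × ℤ) × ℕ × ℕ => a.1.2) := by
    fun_prop
  have h3 : Pool.Agent.NPC.Poly
      (fun a : (Num × Num) × (List (ℤ × ℤ) × ℤ) × ℕ × ℕ => a.2.1.1) := by fun_prop
  have h4 : Pool.Agent.NPC.Poly
      (fun a : (Num × Num) × (List (ℤ × ℤ) × ℤ) × ℕ × ℕ => a.2.1.2) := by fun_prop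
  have h5 : Pool.Agent.NPC.Poly
      (fun a : (Num × Num) × (List (ℤ × ℤ) × ℤ) × ℕ × ℕ => a.2.2.1) := by fun_prop
  have h6 : Pool.Agent.NPC.Poly
      (fun a : (Num × Num) × (List (ℤ × ℤ) × ℤ) × ℕ × ℕ => a.2.2.2) := by fun_prop
  exact po_visB h1 h2 h3 h4 h5 h6

end H612BB
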