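import Pool.Agent.H612.BB.Stubs
import Pool.Agent.H687R2.IntPoly

/-!
# Certificates of bounded shape have polynomial size
-/

namespace H612BB

open Vis124 Pool.Agent.NPC

theorem siz_nat {x E : ℕ} (h : x ≤ 2 ^ E) : sz x ≤ 4 * (E + 1) + 1 := by
  have h1 : x.size ≤ E + 1 := by
    rw [Nat.size_le]
    calc x ≤ 2 ^ E := h
      _ < 2 ^ (E + 1) := Nat.pow_lt_pow_right (by norm_num) (by omega)
  have := sz_nat_le x
  omega

theorem siz_small {x s : ℕ} (h : x ≤ s) : sz x ≤ 4 * s + 1 := by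
  have h1 : x.size ≤ x := Poly.size_le_self x
  have := sz_nat_le x
  omega

theorem siz_int {x : ℤ} {W E : ℕ} (hW : W ≤ 2 ^ E) (h : |x| ≤ (W : ℤ)) :
    sz x ≤ 4 * (E + 1) + 5 := by
  have h0 : x.natAbs ≤ W := by
    rw [← Int.natCast_natAbs] at h
    exact_mod_cast h
  have h1 : x.natAbs.size ≤ E + 1 := by
    rw [Nat.size_le]
    calc x.natAbs ≤ 2 ^ E := h0.trans hW
      _ < 2 ^ (E + 1) := Nat.pow_lt_pow_right (by norm_num) (by omega)
  have := sz_int_le x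
  omega

theorem siz_num {W E : ℕ} (hW : W ≤ 2 ^ E) {α : Num} (h : NBd W α) :
    sz α ≤ 3 * (4 * (E + 1) + 5) + 2 := by
  obtain ⟨h1, h2, h3, -⟩ := h
  obtain ⟨a, b, c⟩ := α
  have e1 := siz_int hW h1
  have e2 := siz_nat (h2.trans hW)
  have e3 := siz_int hW h3
  have e4 : sz ((a, b, c) : Num) = sz a + (sz b + sz c + 1) + 1 := by
    rw [sz_pair, sz_pair]
  simp only at e1 e2 e3
  omega

open Polynomial in
theorem SIZ_holds : S_SIZ := by
  refine ⟨(4 * (X + 1) + 1) + ((4 * X + 1) + ((X * (((4 * X + 1) + (3 * (4 * (((6 + 2 * X) *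
    (16 * (X + X * (X + 1)) + 10)) + 1) + 5) + 2) + 1) + 1) + 1) + (X * ((X * (((4 * X + 1) +
    ((3 * (4 * (((6 + 2 * X) * (16 * (X + X * (X + 1)) + 10)) + 1) + 5) + 2) +
    (3 * (4 * (((6 + 2 * X) * (16 * (X + X * (X + 1)) + 10)) + 1) + 5) + 2) + 1) + 1) + 1) +
    1) + 1) + 1) + 1) + 1) + 1, ?_⟩
  intro s n H M m k Gs Cs hn hk hH hM hm hC
  simp only [eval_add, eval_mul, eval_X, eval_one, eval_ofNat]
  set E : ℕ := (6 + 2 * s) * (16 * (s + s * (s + 1)) + 10) with hE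
  set W : ℕ := (64 * H) ^ (16 * (k + n * (k + 1)) + 10) with hWd
  have hks : k ≤ s := hk.trans hn
  have hW : W ≤ 2 ^ E := by
    have h1 : 64 * H ≤ 2 ^ (6 + 2 * s) := by
      rw [pow_add]
      exact Nat.mul_le_mul (by norm_num) hH
    have h2 : 16 * (k + n * (k + 1)) + 10 ≤ 16 * (s + s * (s + 1)) + 10 := by
      have : n * (k + 1) ≤ s * (s + 1) := Nat.mul_le_mul hn (by omega)
      omega
    calc W ≤ (2 ^ (6 + 2 * s)) ^ (16 * (k + n * (k + 1)) + 10) := Nat.pow_le_pow_left h1 _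
      _ ≤ (2 ^ (6 + 2 * s)) ^ (16 * (s + s * (s + 1)) + 10) :=
        Nat.pow_le_pow_right (by positivity) h2
      _ = 2 ^ E := by rw [← pow_mul]
  obtain ⟨c1, c2, c3, c4⟩ := hC
  set N : ℕ := 3 * (4 * (E + 1) + 5) + 2 with hN
  have hG : ∀ g ∈ Gs, sz g ≤ (4 * s + 1) + N + 1 := by
    intro g hg
    obtain ⟨h1, h2⟩ := c2 g hg
    have e1 := siz_small (h1.trans hn)
    have e2 := siz_num hW h2
    have e3 : sz g = sz g.1 + sz g.2 + 1 := sz_pair _ _
    omega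
  have hGs := sz_le_length_mul Gs _ hG
  have hL : ∀ C ∈ Cs, ∀ t ∈ C, sz t ≤ (4 * s + 1) + (N + N + 1) + 1 := by
    intro C hC t ht
    obtain ⟨h1, h2, h3⟩ := (c4 C hC).2 t ht
    have e1 := siz_small (h1.trans hn)
    have e2 := siz_num hW h2
    have e3 := siz_num hW h3
    have e4 : sz t = sz t.1 + (sz t.2.1 + sz t.2.2 + 1) + 1 := by
      rw [← sz_pair, ← sz_pair]
    omega
  have hCC : ∀ C ∈ Cs, sz C ≤ s * (((4 * s + 1) + (N + N + 1) + 1) + 1) + 1 := by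
    intro C hC
    have h1 := sz_le_length_mul C _ (hL C hC)
    have h2 : C.length * (((4 * s + 1) + (N + N + 1) + 1) + 1) ≤
        s * (((4 * s + 1) + (N + N + 1) + 1) + 1) :=
      Nat.mul_le_mul_right _ ((c4 C hC).1.trans hn)
    omega
  have hCs := sz_le_length_mul Cs _ hCC
  have g1 : Gs.length * (((4 * s + 1) + N + 1) + 1) ≤ s * (((4 * s + 1) + N + 1) + 1) :=
    Nat.mul_le_mul_right _ (c1.trans hn)
  have g2 : Cs.length * ((s * (((4 * s + 1) + (N + N + 1) + 1) + 1) + 1) + 1) ≤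
      s * ((s * (((4 * s + 1) + (N + N + 1) + 1) + 1) + 1) + 1) :=
    Nat.mul_le_mul_right _ (c3.trans hn)
  have g3 := siz_nat hM
  have g4 := siz_small (hm.trans hn)
  have g5 : sz ((M, m, Gs, Cs) : Cert) = sz M + (sz m + (sz Gs + sz Cs + 1) + 1) + 1 := by
    rw [sz_pair, sz_pair, sz_pair]
  rw [g5]
  omega

end H612BB
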