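import Pool.Agent.H612.BB.T_GRD
import Pool.Agent.NPC.Dec

/-!
# Assembly of the membership proof
-/

namespace H612BB

open Vis124 Pool.Agent.NPC

theorem simp_of {n : ℕ} {v : Fin n → ℝ × ℝ} {P : Set (ℝ × ℝ)} (h : IsSimplePolygon v P) :
    Simp v := ⟨h.three_le, h.injective, h.simple⟩

theorem guardable_of {n : ℕ} {v : Fin n → ℝ × ℝ} {k : ℕ} :
    Guardable v k ↔ ∃ P, IsSimplePolygon v P ∧ GuardedBy P k := Iff.rfl

/-- correctness of the verifier -/
theorem verifier (hREG : S_REG) (hSIM : S_SIM) (hBIG : S_BIG) (hSCL : S_SCL) (hSND : S_SND)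
    (hCM1 : S_CM1) (hSCB : S_SCB) (hSIZ : S_SIZ) :
    ∃ p : Polynomial ℕ, ∀ x : List (ℚ × ℚ) × ℕ,
      BBGuard x ↔ ∃ w : Cert, sz w ≤ p.eval (sz x) ∧ verB (x, w) = true := by
  obtain ⟨p, hp⟩ := hSIZ
  refine ⟨p, ?_⟩
  rintro ⟨l, k⟩
  have hlen : ∀ M, (intPts M l).length = l.length := fun M => List.length_map _
  constructor
  · intro hx
    obtain ⟨M, H, hM, hH, hM2, hH2, hb⟩ := hSCB l
    obtain ⟨P, hP, hG⟩ := guardable_of.1 ((hSCL M l k hM).1 hx)
    have hsimp : simpB (intPts M l) = true := (hSIM _).2 (simp_of hP)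
    have hls : l.length ≤ sz (l, k) := by
      have h1 := length_lt_sz l
      have h2 : sz l ≤ sz (l, k) := by
        rw [sz_pair]; omega
      omega
    have hs : sz l ≤ sz (l, k) := by rw [sz_pair]; omega
    have hM3 : M ≤ 2 ^ sz (l, k) := hM2.trans (Nat.pow_le_pow_right two_pos hs)
    have hH3 : H ≤ 2 ^ (2 * sz (l, k)) :=
      hH2.trans (Nat.pow_le_pow_right two_pos (by omega))
    by_cases hk : l.length ≤ k
    · refine ⟨(M, 0, [], []), ?_, ?_⟩
      · refine hp (sz (l, k)) 0 H M 0 0 [] [] (Nat.zero_le _) le_rfl hH3 hM3 le_rfl ?_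
        exact ⟨by simp, by simp, by simp, by simp⟩
      · simp only [verB, Bool.and_eq_true, Bool.or_eq_true, decide_eq_true_eq]
        exact ⟨⟨hM, hsimp⟩, Or.inl (by rw [hlen]; exact hk)⟩
    · have hk' : k < (intPts M l).length := by rw [hlen]; omega
      obtain ⟨m, Gs, Cs, hm, hcov, hbd⟩ := hCM1 (intPts M l) P H k hP hH hb hk' hG
      refine ⟨(M, m, Gs, Cs), ?_, ?_⟩
      · refine hp (sz (l, k)) (intPts M l).length H M m k Gs Cs (by rw [hlen]; exact hls) hk'.le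
          hH3 hM3 hm hbd
      · simp only [verB, Bool.and_eq_true, Bool.or_eq_true, decide_eq_true_eq]
        exact ⟨⟨hM, hsimp⟩, Or.inr hcov⟩
  · rintro ⟨⟨M, m, Gs, Cs⟩, -, hv⟩
    simp only [verB, Bool.and_eq_true, Bool.or_eq_true, decide_eq_true_eq] at hv
    obtain ⟨⟨hM, hsimp⟩, hv⟩ := hv
    obtain ⟨P, hP⟩ := hREG _ _ ((hSIM _).1 hsimp)
    refine (hSCL M l k hM).2 (guardable_of.2 ⟨P, hP, ?_⟩)
    rcases hv with hv | hv
    · exact hBIG _ _ P k hP hv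
    · exact hSND _ P k m Gs Cs hP hv

/-- the verifier is polynomial-time computable -/
theorem poly_verB (h2 : S_PO2) (h3 : S_PO3) : Poly verB := by
  obtain ⟨hs, hi, hb⟩ := h2
  have e1 : Poly (fun z : (List (ℚ × ℚ) × ℕ) × Cert => (z.2.1, z.1.1)) :=
    Poly.pair (Poly.fst (Poly.snd Poly.id)) (Poly.fst (Poly.fst Poly.id))
  have e2 := hi.comp e1
  have e3 : Poly (fun z : (List (ℚ × ℚ) × ℕ) × Cert =>
      (intPts z.2.1 z.1.1, z.1.2, z.2.2.1, z.2.2.2.1, z.2.2.2.2)) :=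
    Poly.pair e2 (Poly.pair (Poly.snd (Poly.fst Poly.id))
      (Poly.pair (Poly.fst (Poly.snd (Poly.snd Poly.id)))
        (Poly.pair (Poly.fst (Poly.snd (Poly.snd (Poly.snd Poly.id))))
          (Poly.snd (Poly.snd (Poly.snd (Poly.snd Poly.id)))))))
  exact Poly.and (Poly.and (hs.comp e1) (hb.comp e2))
    (Poly.or (Poly.decide_le (Poly.length e2) (Poly.snd (Poly.fst Poly.id))) (h3.comp e3))

/-- boundary-boundary guarding is in NP -/
theorem inNP_of (hREG : S_REG) (hSIM : S_SIM) (hBIG : S_BIG) (hSCL : S_SCL) (hSND : S_SND)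
    (hCM1 : S_CM1) (hSCB : S_SCB) (hSIZ : S_SIZ) (h2 : S_PO2) (h3 : S_PO3) :
    InNPP BBGuard := by
  obtain ⟨p, hp⟩ := verifier hREG hSIM hBIG hSCL hSND hCM1 hSCB hSIZ
  exact inNPP_of (poly_verB h2 h3) p hp

end H612BB
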