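import Pool.Agent.H124R2.Vis.Exit
import Pool.Agent.ER.Rat
import Pool.Agent.H687R2.IntPoly

/-!
# Boundary-boundary guarding of simple polygons: definitions
-/

namespace H612BB

open Vis124 Pool.Agent.NPC

/-- The closed curve with vertices `v 0, …, v (n - 1)` is simple and can be guarded by `k` guards on
the boundary: `P` is the polygon bounded by the curve, `G` is a set of exactly `k` boundary points
and every boundary point `t` is seen by one of them (the segment lies in `P`). -/
def Guardable {n : ℕ} (v : Fin n → ℝ × ℝ) (k : ℕ) : Prop :=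
  ∃ P : Set (ℝ × ℝ), IsSimplePolygon v P ∧
    ∃ G : Finset (ℝ × ℝ), G.card = k ∧ (G : Set (ℝ × ℝ)) ⊆ frontier P ∧
      ∀ t ∈ frontier P, ∃ g ∈ G, segment ℝ g t ⊆ P

/-- the vertices of a polygon with rational corners, as points of the real plane -/
def vert (l : List (ℚ × ℚ)) (i : Fin l.length) : ℝ × ℝ := (((l.get i).1 : ℝ), ((l.get i).2 : ℝ))

/-- The boundary-boundary guarding problem: the input is the list of the corners (in boundary
order, rational coordinates) and the number of guards. -/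
def BBGuard (x : List (ℚ × ℚ) × ℕ) : Prop := Guardable (vert x.1) x.2

/-- the point with parameter `x` on the edge `e` -/
def pt {n : ℕ} (v : Fin n → ℝ × ℝ) (e : Fin n) (x : ℝ) : ℝ × ℝ := v e + x • wd v e

/-- the combinatorial conditions on a simple closed polygonal curve -/
structure Simp {n : ℕ} (v : Fin n → ℝ × ℝ) : Prop where
  three_le : 3 ≤ n
  injective : Function.Injective v
  simple : ∀ i j, i ≠ j →
    edge v i ∩ edge v j ⊆ {v i, v (sc i)} ∩ {v j, v (sc j)}

/-- the side `σ` of the curve is the inside -/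
structure Side {n : ℕ} (v : Fin n → ℝ × ℝ) (P : Set (ℝ × ℝ)) (σ : ℝ) : Prop where
  sig : σ = 1 ∨ σ = -1
  int : ∀ k, Ev v (interior P) σ k
  ext : ∀ k, Ev v Pᶜ (-σ) k

/-- the point with parameter `x` on the edge `e` sees the point with parameter `y` on the edge
`f` -/
def Sees {n : ℕ} (v : Fin n → ℝ × ℝ) (P : Set (ℝ × ℝ)) (e : Fin n) (x : ℝ) (f : Fin n) (y : ℝ) :
    Prop := segment ℝ (pt v e x) (pt v f y) ⊆ P

/-- chains of points on all edges: the guard `i` is the point with parameter `x i` on the edge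
`e i`; the edge `f` carries the points with parameters `y f 0 = 0, y f 1, …, y f k = 1`; two
consecutive points are seen by a common guard `c f j` -/
structure Chains {n : ℕ} (v : Fin n → ℝ × ℝ) (P : Set (ℝ × ℝ)) (k : ℕ) (e : Fin k → Fin n)
    (c : Fin n → Fin k → Fin k) (x : Fin k → ℝ) (y : Fin n → Fin (k + 1) → ℝ) : Prop where
  xmem : ∀ i, 0 ≤ x i ∧ x i ≤ 1
  ymem : ∀ f j, 0 ≤ y f j ∧ y f j ≤ 1
  first : ∀ f, y f 0 = 0
  last : ∀ f, y f (Fin.last k) = 1
  left : ∀ f j, Sees v P (e (c f j)) (x (c f j)) f (y f (Fin.castSucc j))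
  right : ∀ f j, Sees v P (e (c f j)) (x (c f j)) f (y f (Fin.succ j))

/-! ### Integer polygons and bilinear forms -/

/-- the vertices of an integer polygon, as points of the real plane -/
def zvert (L : List (ℤ × ℤ)) (i : Fin L.length) : ℝ × ℝ := (((L.get i).1 : ℝ), ((L.get i).2 : ℝ))

/-- the `i`-th vertex, with cyclic indices -/
def pn (L : List (ℤ × ℤ)) (i : ℕ) : ℤ × ℤ := L.getD (i % L.length) (0, 0)

/-- cross product -/
def crz (a b : ℤ × ℤ) : ℤ := a.1 * b.2 - a.2 * b.1

/-- scalar product -/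
def dtz (a b : ℤ × ℤ) : ℤ := a.1 * b.1 + a.2 * b.2

/-- the form `A x y + B x + C y + D` -/
abbrev Form : Type := ℤ × ℤ × ℤ × ℤ

/-- value of a form at real numbers -/
def Form.val (F : Form) (x y : ℝ) : ℝ :=
  (F.1 : ℝ) * x * y + (F.2.1 : ℝ) * x + (F.2.2.1 : ℝ) * y + (F.2.2.2 : ℝ)

/-- sign of a real number, as an integer -/
noncomputable def sgR (t : ℝ) : ℤ := if 0 < t then 1 else if t < 0 then -1 else 0

/-- `cr (A - v) (B - v)` for the points `A = p + x (q - p)` and `B = r + y (s - r)` -/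
def fOri (p q r s v : ℤ × ℤ) : Form :=
  (crz (q - p) (s - r), crz (q - p) (r - v), crz (p - v) (s - r), crz (p - v) (r - v))

/-- the scalar product of `A - v` and `B - v` -/
def fDot (p q r s v : ℤ × ℤ) : Form :=
  (dtz (q - p) (s - r), dtz (q - p) (r - v), dtz (p - v) (s - r), dtz (p - v) (r - v))

/-- `cr w (A - v)` for `A = p + x (q - p)` -/
def fX (w v p q : ℤ × ℤ) : Form := (0, crz w (q - p), 0, crz w (p - v))

/-- `cr w (B - v)` for `B = r + y (s - r)` -/
def fY (w v r s : ℤ × ℤ) : Form := (0, 0, crz w (s - r), crz w (r - v))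

/-- `cr (B - v) u` for `B = r + y (s - r)` -/
def fY' (v u r s : ℤ × ℤ) : Form := (0, 0, crz (s - r) u, crz (r - v) u)

/-- the segment from `A` to `B` leaves the polygon at the vertex `k` (`sg` gives the signs of
forms) -/
def vex (sg : Form → ℤ) (L : List (ℤ × ℤ)) (σ : ℤ) (e f k : ℕ) : Bool :=
  decide (sg (fOri (pn L e) (pn L (e + 1)) (pn L f) (pn L (f + 1)) (pn L k)) = 0) &&
  decide (sg (fDot (pn L e) (pn L (e + 1)) (pn L f) (pn L (f + 1)) (pn L k)) ≤ 0) &&
  ((decide (0 < -σ * crz (pn L (k + 1) - pn L k) (pn L (k + (L.length - 1)) - pn L k)) &&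
    decide (0 < -σ * sg (fY (pn L (k + 1) - pn L k) (pn L k) (pn L f) (pn L (f + 1)))) &&
    decide (0 < -σ * sg (fY' (pn L k) (pn L (k + (L.length - 1)) - pn L k) (pn L f)
      (pn L (f + 1))))) ||
   (decide (-σ * crz (pn L (k + 1) - pn L k) (pn L (k + (L.length - 1)) - pn L k) ≤ 0) &&
    (decide (0 < -σ * sg (fY (pn L (k + 1) - pn L k) (pn L k) (pn L f) (pn L (f + 1)))) ||
     decide (0 < -σ * sg (fY' (pn L k) (pn L (k + (L.length - 1)) - pn L k) (pn L f)
      (pn L (f + 1)))))))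

/-- the segment from `A` to `B` leaves the polygon through the edge `l` -/
def eex (sg : Form → ℤ) (L : List (ℤ × ℤ)) (σ : ℤ) (e f l : ℕ) : Bool :=
  decide (0 < σ * sg (fX (pn L (l + 1) - pn L l) (pn L l) (pn L e) (pn L (e + 1)))) &&
  decide (σ * sg (fY (pn L (l + 1) - pn L l) (pn L l) (pn L f) (pn L (f + 1))) < 0) &&
  decide (sg (fOri (pn L e) (pn L (e + 1)) (pn L f) (pn L (f + 1)) (pn L l)) *
    sg (fOri (pn L e) (pn L (e + 1)) (pn L f) (pn L (f + 1)) (pn L (l + 1))) < 0)

/-- the segment from `A` to `B` leaves the polygon immediately, `A` being inside its edge -/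
def sex (sg : Form → ℤ) (L : List (ℤ × ℤ)) (σ : ℤ) (e f : ℕ) : Bool :=
  decide (0 < sg (0, 1, 0, 0)) && decide (0 < sg (0, -1, 0, 1)) &&
  decide (σ * sg (fY (pn L (e + 1) - pn L e) (pn L e) (pn L f) (pn L (f + 1))) < 0)

/-- visibility in terms of the signs of forms -/
def visB (sg : Form → ℤ) (L : List (ℤ × ℤ)) (σ : ℤ) (e f : ℕ) : Bool :=
  (List.range L.length).all (fun k => !(vex sg L σ e f k)) &&
  (List.range L.length).all (fun l => !(eex sg L σ e f l)) && !(sex sg L σ e f)

/-! ### Quadratic numbers -/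

/-- codes of quadratic numbers: `(p, D, r)` stands for `(p + √D) / r` -/
abbrev Num : Type := ℤ × ℕ × ℤ

/-- the number with a given code -/
noncomputable def Num.val (c : Num) : ℝ := ((c.1 : ℝ) + √(c.2.1 : ℝ)) / (c.2.2 : ℝ)

/-- sign of `x + y √d` -/
def sg1 (x y : ℤ) (d : ℕ) : ℤ := Int.sign (x * |x| + y * |y| * (d : ℤ))

/-- sign of `a + b √d₁ + c √d₂ + e √d₁ √d₂` -/
def sg2 (a b c e : ℤ) (d₁ d₂ : ℕ) : ℤ :=
  sg1 (sg1 a b d₁ * (a * a + b * b * (d₁ : ℤ)) + sg1 c e d₁ * (d₂ : ℤ) * (c * c + e * e * (d₁ : ℤ)))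
    (2 * (sg1 a b d₁ * a * b + sg1 c e d₁ * (d₂ : ℤ) * c * e)) d₁

/-- the sign of a form at two numbers, computed from their codes -/
def fsg (α β : Num) (F : Form) : ℤ :=
  Int.sign α.2.2 * Int.sign β.2.2 *
  sg2 (F.1 * α.1 * β.1 + F.2.1 * α.1 * β.2.2 + F.2.2.1 * β.1 * α.2.2 + F.2.2.2 * α.2.2 * β.2.2)
    (F.1 * β.1 + F.2.1 * β.2.2) (F.1 * α.1 + F.2.2.1 * α.2.2) F.1 α.2.1 β.2.1

/-! ### The verifier -/

/-- the integer polygon obtained by scaling with `M` -/
def intPts (M : ℕ) (l : List (ℚ × ℚ)) : List (ℤ × ℤ) :=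
  l.map (fun q => (q.1.num * (((M / q.1.den : ℕ)) : ℤ), q.2.num * (((M / q.2.den : ℕ)) : ℤ)))

/-- `M` is a positive common multiple of the denominators -/
def scaleB (M : ℕ) (l : List (ℚ × ℚ)) : Bool :=
  decide (0 < M) && l.all (fun q => decide (M % q.1.den = 0) && decide (M % q.2.den = 0))

/-- the point `c` is not in the segment `[a, b]` or it is an end point -/
def offB (a b c : ℤ × ℤ) : Bool :=
  !(decide (crz (b - a) (c - a) = 0) && decide (dtz (a - c) (b - c) ≤ 0)) ||
    decide (c = a) || decide (c = b)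

/-- the segments `[a, b]` and `[c, d]` meet only in common end points (for `a ≠ b`, `c ≠ d`) -/
def segB (a b c d : ℤ × ℤ) : Bool :=
  !(decide (Int.sign (crz (b - a) (c - a)) * Int.sign (crz (b - a) (d - a)) < 0) &&
    decide (Int.sign (crz (d - c) (a - c)) * Int.sign (crz (d - c) (b - c)) < 0)) &&
  offB a b c && offB a b d && offB c d a && offB c d b &&
  !(decide (a = c) && decide (b = d)) && !(decide (a = d) && decide (b = c))

/-- test of simplicity -/
def simpB (L : List (ℤ × ℤ)) : Bool :=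
  decide (3 ≤ L.length) &&
  (List.range L.length).all (fun i => (List.range L.length).all (fun j =>
    decide (i = j) || (!(decide (pn L i = pn L j)) &&
      segB (pn L i) (pn L (i + 1)) (pn L j) (pn L (j + 1)))))

/-- the vertex `m` is lexicographically minimal -/
def lexB (L : List (ℤ × ℤ)) (m : ℕ) : Bool :=
  decide (m < L.length) && L.all (fun q => decide ((pn L m).1 < q.1) ||
    (decide ((pn L m).1 = q.1) && decide ((pn L m).2 ≤ q.2)))

/-- the orientation found at the vertex `m` -/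
def oriS (L : List (ℤ × ℤ)) (m : ℕ) : ℤ :=
  Int.sign (crz (pn L (m + 1) - pn L m) (pn L (m + (L.length - 1)) - pn L m))

/-- the code stands for a number in `[0, 1]` -/
def okN (c : Num) : Bool :=
  decide (c.2.2 ≠ 0) && decide (0 ≤ fsg c c (0, 1, 0, 0)) && decide (0 ≤ fsg c c (0, -1, 0, 1))

/-- a guard: index of the edge and code of the parameter -/
abbrev Gd : Type := ℕ × Num

/-- a link of a chain: index of the guard and two parameters -/
abbrev Lk : Type := ℕ × Num × Num

/-- the guard of the link sees both points of the link, which lie on the edge `f` -/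
def linkB (L : List (ℤ × ℤ)) (σ : ℤ) (Gs : List Gd) (f : ℕ) (t : Lk) : Bool :=
  decide (t.1 < Gs.length) && okN t.2.1 && okN t.2.2 &&
  visB (fsg (Gs.getD t.1 (0, 0, 0, 0)).2 t.2.1) L σ (Gs.getD t.1 (0, 0, 0, 0)).1 f &&
  visB (fsg (Gs.getD t.1 (0, 0, 0, 0)).2 t.2.2) L σ (Gs.getD t.1 (0, 0, 0, 0)).1 f

/-- a chain on the edge `f`, from the parameter `0` to the parameter `1` -/
def chainB (L : List (ℤ × ℤ)) (σ : ℤ) (Gs : List Gd) (f : ℕ) (C : List Lk) : Bool :=
  decide ((C.head?).map (fun t => t.2.1) = some (0, 0, 1)) &&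
  decide ((C.getLast?).map (fun t => t.2.2) = some (1, 0, 1)) &&
  (C.zip C.tail).all (fun p => decide (p.1.2.2 = p.2.2.1)) &&
  C.all (fun t => linkB L σ Gs f t)

/-- certificates: common denominator, index of the lexicographically minimal vertex, guards,
chains of all edges -/
abbrev Cert : Type := ℕ × ℕ × List Gd × List (List Lk)

/-- the test of the guards and the chains -/
def coverB (L : List (ℤ × ℤ)) (k m : ℕ) (Gs : List Gd) (Cs : List (List Lk)) : Bool :=
  lexB L m && decide (Gs.length = k) && decide (Cs.length = L.length) &&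
  Gs.all (fun g => decide (g.1 < L.length) && okN g.2) &&
  (Cs.zipIdx).all (fun q => chainB L (oriS L m) Gs q.2 q.1)

/-- the verifier -/
def verB (z : (List (ℚ × ℚ) × ℕ) × Cert) : Bool :=
  scaleB z.2.1 z.1.1 && simpB (intPts z.2.1 z.1.1) &&
  (decide ((intPts z.2.1 z.1.1).length ≤ z.1.2) ||
    coverB (intPts z.2.1 z.1.1) z.1.2 z.2.2.1 z.2.2.2.1 z.2.2.2.2)

end H612BB
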