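import Pool.Agent.H612.BB.Stubs

namespace H612BB

open Vis124 Pool.Agent.NPC

theorem scb_nat (n : ℕ) : n < 2 ^ (sz n) := by
  have h1 := size_le_sz n
  calc n < 2 ^ n.size := Nat.lt_size_self n
    _ ≤ 2 ^ (sz n) := Nat.pow_le_pow_right (by norm_num) (by omega)

theorem scb_sz_rat (q : ℚ) : sz q = sz q.num + sz q.den + 1 := by
  change sz ((q.num, q.den) : ℤ × ℕ) = _
  rw [sz_pair]

theorem scb_den (q : ℚ) : q.den ≤ 2 ^ (sz q) := by
  have h1 := scb_nat q.den
  have h2 := scb_sz_rat q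
  exact h1.le.trans (Nat.pow_le_pow_right (by norm_num) (by omega))

theorem scb_num (q : ℚ) : q.num.natAbs ≤ 2 ^ (sz q) := by
  have h1 := scb_nat q.num.natAbs
  have h2 := scb_sz_rat q
  have h3 := sz_int q.num
  exact h1.le.trans (Nat.pow_le_pow_right (by norm_num) (by omega))

/-- product of all denominators -/
def scbM : List (ℚ × ℚ) → ℕ
  | [] => 1
  | q :: l => (q.1.den * q.2.den) * scbM l

theorem scbM_pos (l : List (ℚ × ℚ)) : 0 < scbM l := by
  induction l with
  | nil => exact Nat.one_pos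
  | cons q l ih =>
    have h1 := q.1.den_pos
    have h2 := q.2.den_pos
    simp only [scbM]
    positivity

theorem scbM_dvd (l : List (ℚ × ℚ)) : ∀ q ∈ l, q.1.den ∣ scbM l ∧ q.2.den ∣ scbM l := by
  induction l with
  | nil => simp
  | cons q l ih =>
    intro r hr
    rcases List.mem_cons.1 hr with h | h
    · subst h
      simp only [scbM]
      exact ⟨Dvd.dvd.mul_right (Dvd.intro _ rfl) _, Dvd.dvd.mul_right (Dvd.intro_left _ rfl) _⟩
    · obtain ⟨h1, h2⟩ := ih r h
      simp only [scbM]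
      exact ⟨Dvd.dvd.mul_left h1 _, Dvd.dvd.mul_left h2 _⟩

theorem scbM_le (l : List (ℚ × ℚ)) : scbM l ≤ 2 ^ (sz l) := by
  induction l with
  | nil => simp [scbM]
  | cons q l ih =>
    simp only [scbM]
    have h1 := scb_den q.1
    have h2 := scb_den q.2
    have h3 : sz (q :: l) = sz q.1 + sz q.2 + 1 + sz l + 1 := by
      rw [sz_list_cons]
      have : sz q = sz q.1 + sz q.2 + 1 := by
        obtain ⟨a, b⟩ := q
        rw [sz_pair]
      rw [this]
    calc q.1.den * q.2.den * scbM l ≤ (2 ^ (sz q.1) * 2 ^ (sz q.2)) * 2 ^ (sz l) :=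
          Nat.mul_le_mul (Nat.mul_le_mul h1 h2) ih
      _ = 2 ^ (sz q.1 + sz q.2 + sz l) := by rw [← pow_add, ← pow_add]
      _ ≤ 2 ^ (sz (q :: l)) := Nat.pow_le_pow_right (by norm_num) (by omega)

theorem SCB_holds : S_SCB := by
  intro l
  refine ⟨scbM l, 2 ^ (2 * sz l), ?_, Nat.one_le_two_pow, scbM_le l, le_rfl, ?_⟩
  · simp only [scaleB, Bool.and_eq_true, decide_eq_true_eq, List.all_eq_true]
    refine ⟨scbM_pos l, fun q hq => ?_⟩
    obtain ⟨h1, h2⟩ := scbM_dvd l q hq
    exact ⟨Nat.mod_eq_zero_of_dvd h1, Nat.mod_eq_zero_of_dvd h2⟩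
  · intro q hq
    simp only [intPts, List.mem_map] at hq
    obtain ⟨r, hr, rfl⟩ := hq
    have hM := scbM_le l
    have hsz : sz r < sz l := sz_le_of_mem hr
    have hr2 : sz r = sz r.1 + sz r.2 + 1 := by
      obtain ⟨a, b⟩ := r
      rw [sz_pair]
    have key : ∀ q : ℚ, sz q ≤ sz l → |q.num * ((scbM l / q.den : ℕ) : ℤ)| ≤ ((2 ^ (2 * sz l) : ℕ) : ℤ) := by
      intro q hq
      rw [Int.abs_eq_natAbs, Int.natAbs_mul, Int.natAbs_natCast]
      norm_cast
      calc q.num.natAbs * (scbM l / q.den) ≤ 2 ^ (sz l) * 2 ^ (sz l) := by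
            refine Nat.mul_le_mul ?_ ?_
            · exact (scb_num q).trans (Nat.pow_le_pow_right (by norm_num) hq)
            · exact (Nat.div_le_self _ _).trans hM
        _ = 2 ^ (2 * sz l) := by rw [← pow_add]; congr 1; ring
    exact ⟨key _ (by omega), key _ (by omega)⟩

end H612BB
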