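import Pool.Agent.H612.BB.Stubs

/-!
# Scaling to an integer polygon
-/

namespace H612BB

open Vis124 Pool.Agent.NPC

theorem scl_segment (c : ℝ) (x y : ℝ × ℝ) :
    (fun z : ℝ × ℝ => c • z) '' segment ℝ x y = segment ℝ (c • x) (c • y) := by
  have h := image_segment ℝ (LinearMap.lsmul ℝ (ℝ × ℝ) c).toAffineMap x y
  exact h

theorem scl_edge {n : ℕ} (c : ℝ) (v : Fin n → ℝ × ℝ) (i : Fin n) :
    edge (fun i => c • v i) i = (fun z : ℝ × ℝ => c • z) '' edge v i := by
  unfold edge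
  rw [scl_segment]

theorem scl_curve {n : ℕ} (c : ℝ) (v : Fin n → ℝ × ℝ) :
    curve (fun i => c • v i) = (fun z : ℝ × ℝ => c • z) '' curve v := by
  unfold curve
  rw [Set.image_iUnion]
  exact Set.iUnion_congr fun i => scl_edge c v i

theorem scl_simple {n : ℕ} {c : ℝ} (hc : c ≠ 0) {v : Fin n → ℝ × ℝ} {P : Set (ℝ × ℝ)}
    (h : IsSimplePolygon v P) :
    IsSimplePolygon (fun i => c • v i) ((fun z : ℝ × ℝ => c • z) '' P) := by
  have hinj : Function.Injective (fun z : ℝ × ℝ => c • z) := smul_right_injective _ hc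
  let e : (ℝ × ℝ) ≃ₜ (ℝ × ℝ) := Homeomorph.smulOfNeZero c hc
  have he : (e : ℝ × ℝ → ℝ × ℝ) = fun z : ℝ × ℝ => c • z := rfl
  refine ⟨h.three_le, hinj.comp h.injective, ?_, ?_, ?_, ?_⟩
  · intro i j hij
    rw [scl_edge, scl_edge, ← Set.image_inter hinj]
    refine (Set.image_mono (h.simple i j hij)).trans ?_
    rw [Set.image_inter hinj, Set.image_pair, Set.image_pair]
  · rw [← he]; exact h.compact.image e.continuous
  · rw [← he, ← e.image_interior, ← e.image_closure, h.regular]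
  · rw [← he, ← e.image_frontier, h.boundary, he, scl_curve]

open Classical in
theorem scl_guard {n : ℕ} {c : ℝ} (hc : c ≠ 0) {v : Fin n → ℝ × ℝ} {k : ℕ}
    (h : Guardable v k) : Guardable (fun i => c • v i) k := by
  obtain ⟨P, hP, G, hG, hGf, hs⟩ := h
  have hinj : Function.Injective (fun z : ℝ × ℝ => c • z) := smul_right_injective _ hc
  have hfr : frontier ((fun z : ℝ × ℝ => c • z) '' P) =
      (fun z : ℝ × ℝ => c • z) '' frontier P := by
    rw [(scl_simple hc hP).boundary, hP.boundary, scl_curve]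
  refine ⟨_, scl_simple hc hP, G.image (fun z : ℝ × ℝ => c • z), ?_, ?_, ?_⟩
  · rw [Finset.card_image_of_injective _ hinj, hG]
  · rw [Finset.coe_image, hfr]
    exact Set.image_mono hGf
  · rw [hfr]
    rintro t ⟨t, ht, rfl⟩
    obtain ⟨g, hg, hgt⟩ := hs t ht
    refine ⟨c • g, Finset.mem_image_of_mem _ hg, ?_⟩
    rw [← scl_segment]
    exact Set.image_mono hgt

theorem scl_iff {n : ℕ} {c : ℝ} (hc : c ≠ 0) (v : Fin n → ℝ × ℝ) (k : ℕ) :
    Guardable v k ↔ Guardable (fun i => c • v i) k := by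
  refine ⟨scl_guard hc, fun h => ?_⟩
  have h2 := scl_guard (inv_ne_zero hc) h
  simpa only [smul_smul, inv_mul_cancel₀ hc, one_smul] using h2

theorem scl_cast {n n' : ℕ} (h : n = n') (v : Fin n → ℝ × ℝ) (v' : Fin n' → ℝ × ℝ)
    (hv : ∀ i, v' (Fin.cast h i) = v i) (k : ℕ) : Guardable v k ↔ Guardable v' k := by
  subst h
  have : v' = v := funext hv
  rw [this]

theorem scl_coord {M : ℕ} {q : ℚ} (h : M % q.den = 0) :
    ((q.num * (((M / q.den : ℕ)) : ℤ) : ℤ) : ℝ) = (M : ℝ) * (q : ℝ) := by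
  have hd : q.den ∣ M := Nat.dvd_of_mod_eq_zero h
  have hd0 : (q.den : ℝ) ≠ 0 := by exact_mod_cast q.den_nz
  have e1 : (((M / q.den : ℕ)) : ℝ) = (M : ℝ) / (q.den : ℝ) := Nat.cast_div hd hd0
  have e2 : (q : ℝ) = (q.num : ℝ) / (q.den : ℝ) := by
    exact_mod_cast (Rat.cast_def (K := ℝ) q)
  rw [Int.cast_mul, Int.cast_natCast, e1, e2]
  ring

theorem SCL_holds : S_SCL := by
  intro M l k hs
  unfold scaleB at hs
  rw [Bool.and_eq_true, decide_eq_true_eq, List.all_eq_true] at hs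
  obtain ⟨hM, hden⟩ := hs
  have hMr : (M : ℝ) ≠ 0 := by exact_mod_cast hM.ne'
  unfold BBGuard
  rw [scl_iff hMr]
  have hlen : l.length = (intPts M l).length := by
    unfold intPts
    rw [List.length_map]
  refine scl_cast hlen _ _ (fun i => ?_) k
  have hq := hden (l.get i) (List.get_mem l i)
  rw [Bool.and_eq_true, decide_eq_true_eq, decide_eq_true_eq] at hq
  have hget : (intPts M l).get (Fin.cast hlen i) =
      ((l.get i).1.num * (((M / (l.get i).1.den : ℕ)) : ℤ),
        (l.get i).2.num * (((M / (l.get i).2.den : ℕ)) : ℤ)) := by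
    simp [intPts]
  unfold zvert vert
  rw [hget]
  ext
  · exact scl_coord hq.1
  · exact scl_coord hq.2

end H612BB
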