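import Pool.Agent.H612.BB.T_CM1
import Pool.Agent.H612.BB.T_SCL
import Pool.Agent.H612.BB.T_SCB

/-!
# Guards with quadratic coordinates
-/

namespace H612BB

open Vis124 Pool.Agent.NPC Set

/-- `z` is a root of a nonzero polynomial of degree at most 2 with integer coefficients. -/
def Quad (z : ℝ) : Prop :=
  ∃ a b c : ℤ, (a ≠ 0 ∨ b ≠ 0 ∨ c ≠ 0) ∧ (a : ℝ) * z ^ 2 + b * z + c = 0

theorem quad_affine {α : Num} (hα : α.2.2 ≠ 0) (A B : ℤ) {M : ℕ} (hM : 0 < M) :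
    Quad ((M : ℝ)⁻¹ * ((A : ℝ) + B * α.val)) := by
  have h1 : (α.2.2 : ℝ) ≠ 0 := by exact_mod_cast hα
  have h2 : (M : ℝ) ≠ 0 := by exact_mod_cast hM.ne'
  have h3 : √(α.2.1 : ℝ) * √(α.2.1 : ℝ) = α.2.1 := Real.mul_self_sqrt (Nat.cast_nonneg _)
  refine ⟨(M * α.2.2) ^ 2, -2 * (M * α.2.2) * (A * α.2.2 + B * α.1),
    (A * α.2.2 + B * α.1) ^ 2 - B ^ 2 * α.2.1, Or.inl ?_, ?_⟩
  · have : (M : ℤ) ≠ 0 := by exact_mod_cast hM.ne'
    positivity
  · have e : (M : ℝ) * α.2.2 * ((M : ℝ)⁻¹ * ((A : ℝ) + B * α.val)) =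
        A * α.2.2 + B * α.1 + B * √(α.2.1 : ℝ) := by
      simp only [Num.val]
      field_simp
      ring
    push_cast
    have e2 : ((M : ℝ) * α.2.2) ^ 2 * ((M : ℝ)⁻¹ * ((A : ℝ) + B * α.val)) ^ 2 +
        -2 * ((M : ℝ) * α.2.2) * (A * α.2.2 + B * α.1) * ((M : ℝ)⁻¹ * ((A : ℝ) + B * α.val)) +
        ((A * α.2.2 + B * α.1) ^ 2 - B ^ 2 * α.2.1) =
        ((M : ℝ) * α.2.2 * ((M : ℝ)⁻¹ * ((A : ℝ) + B * α.val)) - (A * α.2.2 + B * α.1)) ^ 2 -
          B ^ 2 * α.2.1 := by ring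
    rw [e2, e]
    linear_combination (B : ℝ) ^ 2 * h3

theorem isp_cast {n n' : ℕ} (h : n = n') (v : Fin n → ℝ × ℝ) (v' : Fin n' → ℝ × ℝ)
    (hv : ∀ i, v' (Fin.cast h i) = v i) {P : Set (ℝ × ℝ)} (hP : IsSimplePolygon v P) :
    IsSimplePolygon v' P := by
  subst h
  have : v' = v := funext hv
  rw [this]; exact hP

theorem isp_int {M : ℕ} {l : List (ℚ × ℚ)} (hs : scaleB M l = true) {P : Set (ℝ × ℝ)}
    (hP : IsSimplePolygon (vert l) P) :
    IsSimplePolygon (zvert (intPts M l)) ((fun z : ℝ × ℝ => (M : ℝ) • z) '' P) := by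
  unfold scaleB at hs
  rw [Bool.and_eq_true, decide_eq_true_eq, List.all_eq_true] at hs
  obtain ⟨hM, hden⟩ := hs
  have hMr : (M : ℝ) ≠ 0 := by exact_mod_cast hM.ne'
  have hlen : l.length = (intPts M l).length := by
    unfold intPts
    rw [List.length_map]
  refine isp_cast hlen _ _ (fun i => ?_) (scl_simple hMr hP)
  have hq := hden (l.get i) (List.get_mem l i)
  rw [Bool.and_eq_true, decide_eq_true_eq, decide_eq_true_eq] at hq
  have hget : (intPts M l).get (Fin.cast hlen i) =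
      ((l.get i).1.num * (((M / (l.get i).1.den : ℕ)) : ℤ),
        (l.get i).2.num * (((M / (l.get i).2.den : ℕ)) : ℤ)) := by
    simp [intPts]
  unfold zvert vert
  rw [hget]
  ext
  · exact scl_coord hq.1
  · exact scl_coord hq.2

/-- the guards of a system of chains guard the boundary -/
theorem chains_guard (hE : S_EXT) (hT : S_TRI) {n : ℕ} {v : Fin n → ℝ × ℝ} {P : Set (ℝ × ℝ)}
    {k : ℕ} (h : IsSimplePolygon v P) {e : Fin k → Fin n} {c : Fin n → Fin k → Fin k}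
    {x : Fin k → ℝ} {y : Fin n → Fin (k + 1) → ℝ} (hch : Chains v P k e c x y) :
    ∀ t ∈ frontier P, ∃ i, segment ℝ (pt v (e i) (x i)) t ⊆ P := by
  have hn := h.three_le
  have hfr : frontier P = curve v := h.boundary
  have hk : 0 < k := by
    rcases Nat.eq_zero_or_pos k with h0 | h0
    · subst h0
      have h1 := hch.first ⟨0, by omega⟩
      have h2 := hch.last ⟨0, by omega⟩
      have h3 : (Fin.last 0) = (0 : Fin (0 + 1)) := rfl
      rw [h3, h1] at h2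
      norm_num at h2
    · exact h0
  intro t ht
  rw [hfr] at ht
  obtain ⟨f, hf⟩ := mem_iUnion.1 ht
  rw [edge_eq] at hf
  obtain ⟨s, hs0, hs1, rfl⟩ := hf
  obtain ⟨j, hj1, hj2⟩ := fin_ivt k (y f) s hk (by rw [hch.first]; exact hs0)
    (by rw [hch.last]; exact hs1)
  exact ⟨c f j, sees_between hE hT h (hch.ymem f _).1 (hch.ymem f _).2 (hch.ymem f _).1
    (hch.ymem f _).2 (hch.left f j) (hch.right f j) hj1 hj2⟩

theorem degree_of (hCSP : S_CSP) (hSOL : S_SOL) (hE : S_EXT) (hT : S_TRI) (l : List (ℚ × ℚ))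
    (P : Set (ℝ × ℝ)) (k : ℕ) (hP : IsSimplePolygon (vert l) P) (hG : GuardedBy P k) :
    ∃ G : Finset (ℝ × ℝ), G.card ≤ k ∧ (G : Set (ℝ × ℝ)) ⊆ frontier P ∧
      (∀ t ∈ frontier P, ∃ g ∈ G, segment ℝ g t ⊆ P) ∧ ∀ g ∈ G, Quad g.1 ∧ Quad g.2 := by
  classical
  obtain ⟨M, H, hM, hH, -, -, hb⟩ := SCB_holds l
  have hM0 : 0 < M := by
    unfold scaleB at hM
    rw [Bool.and_eq_true, decide_eq_true_eq] at hM
    exact hM.1
  have hc : (M : ℝ) ≠ 0 := by exact_mod_cast hM0.ne'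
  have hinj : Function.Injective (fun z : ℝ × ℝ => (M : ℝ) • z) := smul_right_injective _ hc
  set L := intPts M l with hL
  set P' : Set (ℝ × ℝ) := (fun z : ℝ × ℝ => (M : ℝ) • z) '' P with hP'
  have h' : IsSimplePolygon (zvert L) P' := isp_int hM hP
  have hfr : frontier P' = (fun z : ℝ × ℝ => (M : ℝ) • z) '' frontier P := by
    rw [(scl_simple hc hP).boundary, hP.boundary, scl_curve]
  have hG' : GuardedBy P' k := by
    obtain ⟨G, hGc, hGf, hs⟩ := hG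
    refine ⟨G.image (fun z : ℝ × ℝ => (M : ℝ) • z), ?_, ?_, ?_⟩
    · rw [Finset.card_image_of_injective _ hinj, hGc]
    · rw [Finset.coe_image, hfr]
      exact Set.image_mono hGf
    · rw [hfr]
      rintro t ⟨t, ht, rfl⟩
      obtain ⟨g, hg, hgt⟩ := hs t ht
      refine ⟨(M : ℝ) • g, Finset.mem_image_of_mem _ hg, ?_⟩
      rw [← scl_segment]
      exact Set.image_mono hgt
  obtain ⟨σ, hσ, hint, hext⟩ := oriented h'
  obtain ⟨τ, rfl⟩ : ∃ τ : ℤ, (τ : ℝ) = σ := by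
    rcases hσ with rfl | rfl
    · exact ⟨1, by norm_num⟩
    · exact ⟨-1, by norm_num⟩
  have hs : Side (zvert L) P' τ := ⟨hσ, hint, hext⟩
  obtain ⟨e, c, x, y, hch⟩ := (hCSP _ _ P' k h').1 hG'
  obtain ⟨X, Y, hXY, -, -, hXb, -⟩ := hSOL L P' τ H h' hs hH hb k e c x y hch
  have hgd := chains_guard hE hT h' hXY
  set g : Fin k → ℝ × ℝ := fun i => (M : ℝ)⁻¹ • pt (zvert L) (e i) (X i).val with hg
  have hMg : ∀ i, (M : ℝ) • g i = pt (zvert L) (e i) (X i).val := by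
    intro i
    rw [hg]
    simp only
    rw [smul_smul, mul_inv_cancel₀ hc, one_smul]
  refine ⟨Finset.univ.image g, ?_, ?_, ?_, ?_⟩
  · refine Finset.card_image_le.trans ?_
    simp
  · intro a ha
    rw [Finset.mem_coe, Finset.mem_image] at ha
    obtain ⟨i, -, rfl⟩ := ha
    have h1 : (M : ℝ) • g i ∈ frontier P' := by
      rw [hMg, h'.boundary]
      exact mem_iUnion.2 ⟨_, pt_mem_edge _ (hXY.xmem i).1 (hXY.xmem i).2⟩
    rw [hfr] at h1
    obtain ⟨b, hb, hbe⟩ := h1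
    have := hinj hbe
    rwa [← this]
  · intro t ht
    obtain ⟨i, hi⟩ := hgd ((M : ℝ) • t) (by rw [hfr]; exact ⟨t, ht, rfl⟩)
    refine ⟨g i, Finset.mem_image_of_mem g (Finset.mem_univ i), ?_⟩
    rw [← hMg, ← scl_segment] at hi
    exact (Set.image_subset_image_iff hinj).1 hi
  · intro a ha
    rw [Finset.mem_image] at ha
    obtain ⟨i, -, rfl⟩ := ha
    have hr := (hXb i).2.2.2
    have e1 : pt (zvert L) (e i) (X i).val =
        cst (pn L (e i)) + (X i).val • (cst (pn L ((e i : ℕ) + 1)) - cst (pn L (e i))) := by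
      rw [cst_pn_self, cst_pn_sc]; rfl
    constructor
    · have e2 : (g i).1 = (M : ℝ)⁻¹ * (((pn L (e i)).1 : ℝ) +
          (((pn L ((e i : ℕ) + 1)).1 - (pn L (e i)).1 : ℤ) : ℝ) * (X i).val) := by
        simp only [hg, e1, Prod.smul_fst, Prod.fst_add, Prod.fst_sub, cst, smul_eq_mul]
        push_cast; ring
      rw [e2]
      exact quad_affine hr _ _ hM0
    · have e2 : (g i).2 = (M : ℝ)⁻¹ * (((pn L (e i)).2 : ℝ) +
          (((pn L ((e i : ℕ) + 1)).2 - (pn L (e i)).2 : ℤ) : ℝ) * (X i).val) := by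
        simp only [hg, e1, Prod.smul_snd, Prod.snd_add, Prod.snd_sub, cst, smul_eq_mul]
        push_cast; ring
      rw [e2]
      exact quad_affine hr _ _ hM0

end H612BB
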