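import Pool.Agent.H612.BB.Defs

/-!
# Statements of the tasks
-/

namespace H612BB

open Vis124 Pool.Agent.NPC

/-! ### geometry -/

/-- the contribution of the edge from `a` to `b` to the crossing number of the upward vertical ray
from `z`, modulo 2 -/
noncomputable def kap (a b z : ℝ × ℝ) : ZMod 2 :=
  ((if a.1 ≤ z.1 then 1 else 0) + (if b.1 ≤ z.1 then 1 else 0)) *
    (if 0 < (b.1 - a.1) * (cr (b - a) (a - z)) then 1 else 0)

/-- KEY: local behaviour of the contribution of one edge at a point off the edge -/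
def S_KEY : Prop := ∀ a b z0 : ℝ × ℝ, z0 ∉ segment ℝ a b → ∃ δ > 0, ∀ z : ℝ × ℝ, ‖z - z0‖ < δ →
  kap a b z = kap a b z0 + (if z.1 < z0.1 then
    (if a.1 = z0.1 ∧ z0.2 < a.2 then 1 else 0) + (if b.1 = z0.1 ∧ z0.2 < b.2 then 1 else 0) else 0)

/-- REG: existence of the region bounded by a simple polygonal curve -/
def S_REG : Prop := ∀ (n : ℕ) (v : Fin n → ℝ × ℝ), Simp v → ∃ P, IsSimplePolygon v P

/-- EXT: the exterior is connected -/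
def S_EXT : Prop := ∀ (n : ℕ) (v : Fin n → ℝ × ℝ) (P : Set (ℝ × ℝ)), IsSimplePolygon v P →
  IsPreconnected Pᶜ

/-- TRI: triangles with boundary in `P` are contained in `P` -/
def S_TRI : Prop := ∀ P : Set (ℝ × ℝ), IsCompact P → IsPreconnected Pᶜ → ∀ A B C : ℝ × ℝ,
  segment ℝ A B ⊆ P → segment ℝ A C ⊆ P → segment ℝ B C ⊆ P →
    ∀ X ∈ segment ℝ B C, segment ℝ A X ⊆ P

/-- VIS: a point `A` of the curve does not see `B` iff the segment leaves the polygon at a vertex,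
through an edge, or immediately -/
def S_VIS : Prop := ∀ (n : ℕ) (v : Fin n → ℝ × ℝ) (P : Set (ℝ × ℝ)) (σ : ℝ),
  IsSimplePolygon v P → Side v P σ → ∀ A B : ℝ × ℝ, A ∈ curve v →
  (¬ segment ℝ A B ⊆ P ↔
    (∃ k, cr (A - v k) (B - v k) = 0 ∧ dotp (v k) A B ≤ 0 ∧
      B - v k ∈ Sec (-σ) (wd v k) (ud v k)) ∨
    (∃ l, 0 < σ * cr (wd v l) (A - v l) ∧ σ * cr (wd v l) (B - v l) < 0 ∧
      cr (A - v l) (B - v l) * cr (A - v (sc l)) (B - v (sc l)) < 0) ∨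
    (∃ l, ∃ a : ℝ, 0 < a ∧ a < 1 ∧ A = pt v l a ∧ σ * cr (wd v l) (B - v l) < 0))

/-- VB: visibility on integer polygons is a Boolean function of the signs of forms -/
def S_VB : Prop := ∀ (L : List (ℤ × ℤ)) (P : Set (ℝ × ℝ)) (τ : ℤ),
  IsSimplePolygon (zvert L) P → Side (zvert L) P τ → ∀ (e f : Fin L.length) (x y : ℝ),
    0 ≤ x → x ≤ 1 → 0 ≤ y → y ≤ 1 →
    (Sees (zvert L) P e x f y ↔ visB (fun F => sgR (F.val x y)) L τ e f = true)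

/-- ORI: the orientation is found at the lexicographically minimal vertex -/
def S_ORI : Prop := ∀ (n : ℕ) (v : Fin n → ℝ × ℝ) (P : Set (ℝ × ℝ)) (σ : ℝ),
  IsSimplePolygon v P → Side v P σ → ∀ m : Fin n,
    (∀ j, (v m).1 < (v j).1 ∨ ((v m).1 = (v j).1 ∧ (v m).2 ≤ (v j).2)) →
    0 < σ * cr (wd v m) (ud v m)

/-- SEG: the test for two segments -/
def S_SEG : Prop := ∀ a b c d : ℤ × ℤ, a ≠ b → c ≠ d →
  (segB a b c d = true ↔
    segment ℝ ((a.1 : ℝ), (a.2 : ℝ)) ((b.1 : ℝ), (b.2 : ℝ)) ∩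
      segment ℝ ((c.1 : ℝ), (c.2 : ℝ)) ((d.1 : ℝ), (d.2 : ℝ)) ⊆
      {((a.1 : ℝ), (a.2 : ℝ)), ((b.1 : ℝ), (b.2 : ℝ))} ∩
        {((c.1 : ℝ), (c.2 : ℝ)), ((d.1 : ℝ), (d.2 : ℝ))})

/-- SIM: the test of simplicity is correct -/
def S_SIM : Prop := ∀ L : List (ℤ × ℤ), simpB L = true ↔ Simp (zvert L)

/-! ### chains -/

/-- CHN: closed sets covering the unit interval -/
def S_CHN : Prop := ∀ (k : ℕ) (S : Fin k → Set ℝ), (∀ i, IsClosed (S i)) →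
  Set.Icc (0 : ℝ) 1 ⊆ ⋃ i, S i →
  ∃ (c : Fin k → Fin k) (y : Fin (k + 1) → ℝ), y 0 = 0 ∧ y (Fin.last k) = 1 ∧
    (∀ j, 0 ≤ y j ∧ y j ≤ 1) ∧ ∀ j, y (Fin.castSucc j) ∈ S (c j) ∧ y (Fin.succ j) ∈ S (c j)

/-- guarding by exactly `k` boundary points -/
def GuardedBy (P : Set (ℝ × ℝ)) (k : ℕ) : Prop :=
  ∃ G : Finset (ℝ × ℝ), G.card = k ∧ (G : Set (ℝ × ℝ)) ⊆ frontier P ∧
    ∀ t ∈ frontier P, ∃ g ∈ G, segment ℝ g t ⊆ P

/-- CSP: guarding means that all edges carry chains -/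
def S_CSP : Prop := ∀ (n : ℕ) (v : Fin n → ℝ × ℝ) (P : Set (ℝ × ℝ)) (k : ℕ),
  IsSimplePolygon v P → (GuardedBy P k ↔ ∃ e c x y, Chains v P k e c x y)

/-- BIG: `k ≥ n` guards always suffice -/
def S_BIG : Prop := ∀ (n : ℕ) (v : Fin n → ℝ × ℝ) (P : Set (ℝ × ℝ)) (k : ℕ),
  IsSimplePolygon v P → n ≤ k → GuardedBy P k

/-- SCL: scaling to an integer polygon -/
def S_SCL : Prop := ∀ (M : ℕ) (l : List (ℚ × ℚ)) (k : ℕ), scaleB M l = true →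
  (BBGuard (l, k) ↔ Guardable (zvert (intPts M l)) k)

/-! ### numbers -/

/-- SGN: the computed sign of a form is its sign -/
def S_SGN : Prop := ∀ (α β : Num) (F : Form), α.2.2 ≠ 0 → β.2.2 ≠ 0 →
  fsg α β F = sgR (F.val α.val β.val)

/-- COD: roots of quadratic polynomials have codes -/
def S_COD : Prop := ∀ (z : ℝ) (a b c B : ℤ), (a ≠ 0 ∨ b ≠ 0 ∨ c ≠ 0) → |a| ≤ B → |b| ≤ B →
  |c| ≤ B → (a : ℝ) * z ^ 2 + b * z + c = 0 →
  ∃ α : Num, α.2.2 ≠ 0 ∧ α.val = z ∧ |α.1| ≤ B ∧ (α.2.1 : ℤ) ≤ 5 * B ^ 2 ∧ |α.2.2| ≤ 2 * B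

/-- LEX: lexicographic minima of compact sets -/
def S_LEX : Prop := ∀ (N : ℕ) (K : Set (Fin N → ℝ)), IsCompact K → K.Nonempty →
  ∃ z ∈ K, ∀ z' ∈ K, ∀ i, (∀ j < i, z' j = z j) → z i ≤ z' i

/-- `z` is a root of a nonzero polynomial of degree at most 2 with integer coefficients of absolute
value at most `B` -/
def QRoot (B : ℤ) (z : ℝ) : Prop :=
  ∃ a b c : ℤ, (a ≠ 0 ∨ b ≠ 0 ∨ c ≠ 0) ∧ |a| ≤ B ∧ |b| ≤ B ∧ |c| ≤ B ∧
    (a : ℝ) * z ^ 2 + b * z + c = 0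

/-- `t` is the image of `s` under a Moebius transformation with integer coefficients of absolute
value at most `h` -/
def Mob (h : ℤ) (s t : ℝ) : Prop :=
  ∃ p q r w : ℤ, |p| ≤ h ∧ |q| ≤ h ∧ |r| ≤ h ∧ |w| ≤ h ∧ p * w - q * r ≠ 0 ∧
    (r : ℝ) * s + w ≠ 0 ∧ t * ((r : ℝ) * s + w) = p * s + q

/-- MO1: composition and inversion of Moebius relations, and transfer of roots -/
def S_MO1 : Prop :=
  (∀ (h h' : ℤ) (s t u : ℝ), Mob h s t → Mob h' t u → Mob (2 * h * h') s u) ∧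
  (∀ (h : ℤ) (s t : ℝ), Mob h s t → Mob h t s) ∧
  (∀ (h B : ℤ) (s t : ℝ), Mob h s t → QRoot B s → QRoot (6 * B * h ^ 2) t)

/-- MOB: a nonempty compact set determined by the signs of bilinear forms with integer coefficients
contains a point with quadratic coordinates -/
def S_MOB : Prop := ∀ (N : ℕ) (K : Set (Fin N → ℝ)) (H : ℤ), 1 ≤ H → IsCompact K → K.Nonempty →
  (∀ z z' : Fin N → ℝ, z ∈ K → (∀ (i j : Fin N) (F : Form), |F.1| ≤ H → |F.2.1| ≤ H →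
    |F.2.2.1| ≤ H → |F.2.2.2| ≤ H → sgR (F.val (z i) (z j)) = sgR (F.val (z' i) (z' j))) →
    z' ∈ K) →
  ∃ z ∈ K, ∀ i, QRoot ((8 * H) ^ (4 * N + 2)) (z i)

/-- the code is bounded by `W` -/
def NBd (W : ℕ) (α : Num) : Prop :=
  |α.1| ≤ (W : ℤ) ∧ α.2.1 ≤ W ∧ |α.2.2| ≤ (W : ℤ) ∧ α.2.2 ≠ 0

/-- SOL: chains on an integer polygon can be chosen with bounded quadratic numbers -/
def S_SOL : Prop := ∀ (L : List (ℤ × ℤ)) (P : Set (ℝ × ℝ)) (τ : ℤ) (H : ℕ),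
  IsSimplePolygon (zvert L) P → Side (zvert L) P τ → 1 ≤ H →
  (∀ q ∈ L, |q.1| ≤ (H : ℤ) ∧ |q.2| ≤ (H : ℤ)) → ∀ k e c x y, Chains (zvert L) P k e c x y →
  ∃ (X : Fin k → Num) (Y : Fin L.length → Fin (k + 1) → Num),
    Chains (zvert L) P k e c (fun i => (X i).val) (fun f j => (Y f j).val) ∧
    (∀ f, Y f 0 = (0, 0, 1)) ∧ (∀ f, Y f (Fin.last k) = (1, 0, 1)) ∧
    (∀ i, NBd ((64 * H) ^ (16 * (k + L.length * (k + 1)) + 10)) (X i)) ∧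
    (∀ f j, NBd ((64 * H) ^ (16 * (k + L.length * (k + 1)) + 10)) (Y f j))

/-! ### the verifier -/

/-- SND: soundness of the test of the chains -/
def S_SND : Prop := ∀ (L : List (ℤ × ℤ)) (P : Set (ℝ × ℝ)) (k m : ℕ) (Gs : List Gd)
  (Cs : List (List Lk)), IsSimplePolygon (zvert L) P → coverB L k m Gs Cs = true → GuardedBy P k

/-- the certificate has a bounded shape -/
def CBd (n W : ℕ) (Gs : List Gd) (Cs : List (List Lk)) : Prop :=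
  Gs.length ≤ n ∧ (∀ g ∈ Gs, g.1 ≤ n ∧ NBd W g.2) ∧ Cs.length ≤ n ∧
    (∀ C ∈ Cs, C.length ≤ n ∧ ∀ t ∈ C, t.1 ≤ n ∧ NBd W t.2.1 ∧ NBd W t.2.2)

/-- CM1: completeness of the test of the chains -/
def S_CM1 : Prop := ∀ (L : List (ℤ × ℤ)) (P : Set (ℝ × ℝ)) (H k : ℕ),
  IsSimplePolygon (zvert L) P → 1 ≤ H → (∀ q ∈ L, |q.1| ≤ (H : ℤ) ∧ |q.2| ≤ (H : ℤ)) →
  k < L.length → GuardedBy P k →
  ∃ (m : ℕ) (Gs : List Gd) (Cs : List (List Lk)), m ≤ L.length ∧ coverB L k m Gs Cs = true ∧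
    CBd L.length ((64 * H) ^ (16 * (k + L.length * (k + 1)) + 10)) Gs Cs

/-- SCB: there is a suitable scaling factor -/
def S_SCB : Prop := ∀ l : List (ℚ × ℚ), ∃ M H : ℕ, scaleB M l = true ∧ 1 ≤ H ∧ M ≤ 2 ^ (sz l) ∧
  H ≤ 2 ^ (2 * sz l) ∧ ∀ q ∈ intPts M l, |q.1| ≤ (H : ℤ) ∧ |q.2| ≤ (H : ℤ)

/-- SIZ: certificates of bounded shape have polynomial size -/
def S_SIZ : Prop := ∃ p : Polynomial ℕ, ∀ (s n H M m k : ℕ) (Gs : List Gd) (Cs : List (List Lk)),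
  n ≤ s → k ≤ n → H ≤ 2 ^ (2 * s) → M ≤ 2 ^ s → m ≤ n →
  CBd n ((64 * H) ^ (16 * (k + n * (k + 1)) + 10)) Gs Cs →
  sz ((M, m, Gs, Cs) : Cert) ≤ p.eval s

/-- PO1: the visibility test is polynomial-time computable -/
def S_PO1 : Prop := Poly (fun a : (Num × Num) × (List (ℤ × ℤ) × ℤ) × ℕ × ℕ =>
  visB (fsg a.1.1 a.1.2) a.2.1.1 a.2.1.2 a.2.2.1 a.2.2.2)

/-- PO2: scaling and the test of simplicity are polynomial-time computable -/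
def S_PO2 : Prop := Poly (fun a : ℕ × List (ℚ × ℚ) => scaleB a.1 a.2) ∧
  Poly (fun a : ℕ × List (ℚ × ℚ) => intPts a.1 a.2) ∧ Poly simpB

/-- PO3: the test of the chains is polynomial-time computable -/
def S_PO3 : Prop := Poly (fun a : List (ℤ × ℤ) × ℕ × ℕ × List Gd × List (List Lk) =>
  coverB a.1 a.2.1 a.2.2.1 a.2.2.2.1 a.2.2.2.2)

end H612BB
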