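import Pool.Agent.H612.BB.T_GRD

/-!
# `k ≥ n` guards always suffice
-/

namespace H612BB

open Vis124 Pool.Agent.NPC

theorem BIG_holds : S_BIG := by
  intro n v P k h hk
  have hn := h.three_le
  refine grd (frontier_infinite h)
    (fun i : Fin k => if hi : (i : ℕ) < n then v ⟨i, hi⟩ else v ⟨0, by omega⟩) ?_ ?_
  · intro i
    rw [h.boundary]
    split_ifs with hi
    · exact Set.mem_iUnion.2 ⟨_, vertex_mem_edge _⟩
    · exact Set.mem_iUnion.2 ⟨_, vertex_mem_edge _⟩
  · intro t ht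
    rw [h.boundary] at ht
    obtain ⟨l, hl⟩ := Set.mem_iUnion.1 ht
    refine ⟨⟨l, lt_of_lt_of_le l.2 hk⟩, ?_⟩
    have hl2 : ((⟨(l : ℕ), lt_of_lt_of_le l.2 hk⟩ : Fin k) : ℕ) < n := l.2
    simp only [hl2, dif_pos]
    have h1 : edge v l ⊆ P := (Set.subset_iUnion (fun i => edge v i) l).trans (curve_subset h)
    refine Set.Subset.trans ?_ h1
    exact (convex_segment _ _).segment_subset (vertex_mem_edge l) hl

end H612BB
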