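import Pool.Agent.H612.BB.Stubs

namespace H612BB

theorem CHN_holds : S_CHN := by
  classical
  intro k S hS hcov
  obtain ⟨a, ha⟩ := Set.mem_iUnion.1 (hcov (show (0 : ℝ) ∈ Set.Icc (0 : ℝ) 1 by simp))
  obtain ⟨b, hb⟩ := Set.mem_iUnion.1 (hcov (show (1 : ℝ) ∈ Set.Icc (0 : ℝ) 1 by simp))
  let G : SimpleGraph (Fin k) :=
    { Adj := fun i j => i ≠ j ∧ (S i ∩ S j ∩ Set.Icc (0 : ℝ) 1).Nonempty
      symm := ⟨fun i j h => ⟨h.1.symm, by
        obtain ⟨x, ⟨h1, h2⟩, h3⟩ := h.2
        exact ⟨x, ⟨h2, h1⟩, h3⟩⟩⟩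
      loopless := ⟨fun i h => h.1 rfl⟩ }
  have hreach : G.Reachable a b := by
    by_contra hnot
    let U : Set ℝ := ⋃ i ∈ {i | G.Reachable a i}, S i
    let V : Set ℝ := ⋃ i ∈ {i | ¬ G.Reachable a i}, S i
    have hU : IsClosed U := (Set.toFinite _).isClosed_biUnion fun i _ => hS i
    have hV : IsClosed V := (Set.toFinite _).isClosed_biUnion fun i _ => hS i
    have hUV : Set.Icc (0 : ℝ) 1 ⊆ U ∪ V := by
      intro x hx
      obtain ⟨i, hi⟩ := Set.mem_iUnion.1 (hcov hx)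
      by_cases h : G.Reachable a i
      · exact Or.inl (Set.mem_biUnion (show i ∈ {i | G.Reachable a i} from h) hi)
      · exact Or.inr (Set.mem_biUnion (show i ∈ {i | ¬ G.Reachable a i} from h) hi)
    obtain ⟨x, hx, hxU, hxV⟩ := isPreconnected_closed_iff.1
      (isPreconnected_Icc (a := (0 : ℝ)) (b := 1)) U V hU hV hUV
      ⟨0, by simp, Set.mem_biUnion (show a ∈ {i | G.Reachable a i} from
        SimpleGraph.Reachable.refl a) ha⟩
      ⟨1, by simp, Set.mem_biUnion (show b ∈ {i | ¬ G.Reachable a i} from hnot) hb⟩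
    obtain ⟨i, hi, hxi⟩ := Set.mem_iUnion₂.1 hxU
    obtain ⟨j, hj, hxj⟩ := Set.mem_iUnion₂.1 hxV
    have hi' : G.Reachable a i := hi
    have hj' : ¬ G.Reachable a j := hj
    have hij : i ≠ j := fun h => hj' (h ▸ hi')
    have hadj : G.Adj i j := ⟨hij, x, ⟨hxi, hxj⟩, hx⟩
    exact hj' (hi'.trans hadj.reachable)
  obtain ⟨p, hp⟩ := hreach.exists_isPath
  have hlen : p.length < k := by simpa using hp.length_lt
  have hq : ∀ j : ℕ, ∃ x : ℝ, (0 ≤ x ∧ x ≤ 1) ∧ x ∈ S (p.getVert j) ∧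
      x ∈ S (p.getVert (j + 1)) ∧ (p.length ≤ j → x = 1) := by
    intro j
    by_cases h : j < p.length
    · obtain ⟨-, x, ⟨h1, h2⟩, h3⟩ := p.adj_getVert_succ h
      exact ⟨x, h3, h1, h2, fun h' => absurd h (not_lt.2 h')⟩
    · refine ⟨1, ⟨by norm_num, le_rfl⟩, ?_, ?_, fun _ => rfl⟩
      · rw [p.getVert_of_length_le (by omega)]; exact hb
      · rw [p.getVert_of_length_le (by omega)]; exact hb
  choose q hq01 hq1 hq2 hq3 using hq
  refine ⟨fun j => p.getVert j, fun j => if j.val = 0 then 0 else q (j.val - 1), ?_, ?_, ?_, ?_⟩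
  · simp
  · have hk : k ≠ 0 := by omega
    simp only [Fin.val_last, hk, if_false]
    exact hq3 _ (by omega)
  · intro j
    by_cases h : j.val = 0
    · simp [h]
    · simp only [h, if_false]; exact hq01 _
  · intro j
    constructor
    · by_cases h : j.val = 0
      · simp only [Fin.val_castSucc, h, if_true, p.getVert_zero]
        exact ha
      · simp only [Fin.val_castSucc, h, if_false]
        have := hq2 (j.val - 1)
        rwa [Nat.sub_add_cancel (Nat.one_le_iff_ne_zero.2 h)] at this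
    · simp only [Fin.val_succ, Nat.add_eq_zero_iff, one_ne_zero, and_false, if_false,
        Nat.add_sub_cancel]
      exact hq1 _

end H612BB
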