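import Pool.Agent.H612.BB.T_CSP

/-!
# Completeness of the test of the chains
-/

namespace H612BB

open Vis124 Pool.Agent.NPC Set

theorem exists_lexMin (L : List (ℤ × ℤ)) (h0 : 0 < L.length) :
    ∃ m : Fin L.length, lexB L m = true := by
  haveI : Nonempty (Fin L.length) := ⟨⟨0, h0⟩⟩
  obtain ⟨m, -, hm⟩ := Finset.exists_min_image (Finset.univ : Finset (Fin L.length))
    (fun i => toLex (L.get i)) Finset.univ_nonempty
  refine ⟨m, ?_⟩
  simp only [lexB, Bool.and_eq_true, decide_eq_true_eq, List.all_eq_true, Bool.or_eq_true]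
  refine ⟨m.2, ?_⟩
  intro q hq
  obtain ⟨j, rfl⟩ := List.get_of_mem hq
  have h1 := hm j (Finset.mem_univ _)
  rw [Prod.Lex.toLex_le_toLex] at h1
  have h2 : pn L m = L.get m := by
    rw [pn, Nat.mod_eq_of_lt m.2, List.getD_eq_getElem _ _ m.2]; rfl
  rw [h2]
  exact h1

theorem CM1_of (hCSP : S_CSP) (hSOL : S_SOL) (hG : S_SGN) (hO : S_ORI) : S_CM1 := by
  intro L P H k h hH hb hk hgb
  have hn := h.three_le
  obtain ⟨σ, hσ, hint, hext⟩ := oriented h
  obtain ⟨τ, rfl⟩ : ∃ τ : ℤ, (τ : ℝ) = σ := by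
    rcases hσ with rfl | rfl
    · exact ⟨1, by norm_num⟩
    · exact ⟨-1, by norm_num⟩
  have hs : Side (zvert L) P τ := ⟨hσ, hint, hext⟩
  obtain ⟨e, c, x, y, hch⟩ := (hCSP _ _ P k h).1 hgb
  obtain ⟨X, Y, hXY, hY0, hY1, hXb, hYb⟩ := hSOL L P τ H h hs hH hb k e c x y hch
  obtain ⟨m, hm⟩ := exists_lexMin L (by omega)
  have hτm : τ = oriS L m := by
    have := side_eq hO h hs hm
    exact_mod_cast this
  have hk0 : 0 < k := by
    rcases Nat.eq_zero_or_pos k with h0 | h0
    · subst h0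
      have h1 := hch.first ⟨0, by omega⟩
      have h2 := hch.last ⟨0, by omega⟩
      have h3 : (Fin.last 0) = (0 : Fin (0 + 1)) := rfl
      rw [h3, h1] at h2
      norm_num at h2
    · exact h0
  set W := (64 * H) ^ (16 * (k + L.length * (k + 1)) + 10) with hW
  set Gs : List Gd := List.ofFn (fun i : Fin k => (((e i : Fin L.length) : ℕ), X i)) with hGs
  set lk : Fin L.length → Fin k → Lk := fun f j =>
    (((c f j : Fin k) : ℕ), Y f (Fin.castSucc j), Y f (Fin.succ j)) with hlk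
  set Cs : List (List Lk) := List.ofFn (fun f : Fin L.length => List.ofFn (lk f)) with hCs
  have hGl : Gs.length = k := by rw [hGs, List.length_ofFn]
  have hokX : ∀ i, okN (X i) = true := fun i =>
    (okN_iff hG).2 ⟨(hXb i).2.2.2, hXY.xmem i⟩
  have hokY : ∀ f j, okN (Y f j) = true := fun f j =>
    (okN_iff hG).2 ⟨(hYb f j).2.2.2, hXY.ymem f j⟩
  have hvis : ∀ (f : Fin L.length) (i : Fin k) (j : Fin (k + 1)),
      Sees (zvert L) P (e i) (X i).val f (Y f j).val →
      visB (fsg (X i) (Y f j)) L (oriS L m) (e i) f = true := by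
    intro f i j hsee
    rw [fsg_eq hG (hXb i).2.2.2 (hYb f j).2.2.2, ← hτm]
    exact (VB_holds L P τ h hs (e i) f _ _ (hXY.xmem i).1 (hXY.xmem i).2 (hXY.ymem f j).1
      (hXY.ymem f j).2).1 hsee
  have hget : ∀ i : Fin k, Gs.getD i (0, 0, 0, 0) = (((e i : Fin L.length) : ℕ), X i) := by
    intro i
    rw [List.getD_eq_getElem _ _ (by rw [hGl]; exact i.2)]
    simp [hGs]
  have hlink : ∀ (f : Fin L.length) (j : Fin k), linkB L (oriS L m) Gs f (lk f j) = true := by
    intro f j
    simp only [linkB, hlk, Bool.and_eq_true, decide_eq_true_eq, hget]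
    refine ⟨⟨⟨⟨?_, hokY _ _⟩, hokY _ _⟩, ?_⟩, ?_⟩
    · rw [hGl]; exact (c f j).2
    · exact hvis f (c f j) _ (hXY.left f j)
    · exact hvis f (c f j) _ (hXY.right f j)
  have hchain : ∀ f : Fin L.length, chainB L (oriS L m) Gs f (List.ofFn (lk f)) = true := by
    intro f
    simp only [chainB, Bool.and_eq_true, decide_eq_true_eq, List.all_eq_true]
    refine ⟨⟨⟨?_, ?_⟩, ?_⟩, ?_⟩
    · obtain ⟨k', rfl⟩ : ∃ k', k = k' + 1 := ⟨k - 1, by omega⟩
      rw [List.ofFn_succ]
      simp only [List.head?_cons, Option.map_some, hlk, Fin.castSucc_zero, hY0]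
    · obtain ⟨k', rfl⟩ : ∃ k', k = k' + 1 := ⟨k - 1, by omega⟩
      rw [List.ofFn_succ']
      simp only [List.concat_eq_append, List.getLast?_append, List.getLast?_singleton,
        Option.some_or, Option.map_some, hlk, Fin.succ_last, hY1]
    · intro p hp
      obtain ⟨i, hi, rfl⟩ := List.mem_iff_getElem.1 hp
      rw [List.getElem_zip]
      have hi1 : i < k := by
        have := hi; rw [List.length_zip, List.length_ofFn] at this; omega
      have hi2 : i + 1 < k := by
        have := hi; rw [List.length_zip, List.length_tail, List.length_ofFn] at this; omega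
      simp only [List.getElem_ofFn, List.getElem_tail, hlk]
      rfl
    · intro t ht
      rw [List.mem_ofFn] at ht
      obtain ⟨j, rfl⟩ := ht
      exact hlink f j
  refine ⟨m, Gs, Cs, m.2.le, ?_, ?_⟩
  · simp only [coverB, Bool.and_eq_true, decide_eq_true_eq, List.all_eq_true]
    refine ⟨⟨⟨⟨hm, hGl⟩, by rw [hCs, List.length_ofFn]⟩, ?_⟩, ?_⟩
    · intro g hg
      rw [hGs, List.mem_ofFn] at hg
      obtain ⟨i, rfl⟩ := hg
      exact ⟨(e i).2, hokX i⟩
    · rintro ⟨C, f⟩ hq
      rw [List.mk_mem_zipIdx_iff_getElem?, List.getElem?_eq_some_iff] at hq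
      obtain ⟨hf, hq⟩ := hq
      have hf' : f < L.length := by rw [hCs, List.length_ofFn] at hf; exact hf
      have : C = List.ofFn (lk ⟨f, hf'⟩) := by
        rw [← hq]; simp [hCs]
      rw [this]
      exact hchain ⟨f, hf'⟩
  · refine ⟨by rw [hGl]; exact hk.le, ?_, by rw [hCs, List.length_ofFn], ?_⟩
    · intro g hg
      rw [hGs, List.mem_ofFn] at hg
      obtain ⟨i, rfl⟩ := hg
      exact ⟨(e i).2.le, hXb i⟩
    · intro C hC
      rw [hCs, List.mem_ofFn] at hC
      obtain ⟨f, rfl⟩ := hC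
      refine ⟨by rw [List.length_ofFn]; exact hk.le, ?_⟩
      intro t ht
      rw [List.mem_ofFn] at ht
      obtain ⟨j, rfl⟩ := ht
      exact ⟨((c f j).2.trans hk).le, hYb _ _, hYb _ _⟩

end H612BB
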