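import Pool.Agent.H612.BB.Stubs

/-!
# Codes of roots of quadratic polynomials
-/

namespace H612BB

theorem COD_holds : S_COD := by
  intro z a b c B hne ha hb hc hz
  have hB : 0 ≤ B := (abs_nonneg a).trans ha
  have ha' := abs_le.1 ha
  have hb' := abs_le.1 hb
  have hc' := abs_le.1 hc
  by_cases ha0 : a = 0
  · by_cases hb0 : b = 0
    · subst ha0 hb0
      have : (c : ℝ) = 0 := by simpa using hz
      have : c = 0 := by exact_mod_cast this
      simp [this] at hne
    · refine ⟨(-c, 0, b), hb0, ?_, ?_, ?_, ?_⟩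
      · subst ha0
        have hb1 : (b : ℝ) ≠ 0 := by exact_mod_cast hb0
        simp only [Num.val, Nat.cast_zero, Real.sqrt_zero, add_zero, Int.cast_neg]
        rw [div_eq_iff hb1]
        simp only [Int.cast_zero, zero_mul, zero_add] at hz
        linarith
      · simpa using hc
      · simp only [Nat.cast_zero]; positivity
      · simp only; linarith
  · have ha1 : (a : ℝ) ≠ 0 := by exact_mod_cast ha0
    have hD : ((b ^ 2 - 4 * a * c : ℤ) : ℝ) = (2 * a * z + b) ^ 2 := by
      push_cast; linear_combination (-4 * (a : ℝ)) * hz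
    have hD0 : 0 ≤ b ^ 2 - 4 * a * c := by
      have : (0 : ℝ) ≤ ((b ^ 2 - 4 * a * c : ℤ) : ℝ) := by rw [hD]; positivity
      exact_mod_cast this
    obtain ⟨D, hDn⟩ : ∃ D : ℕ, (D : ℤ) = b ^ 2 - 4 * a * c :=
      ⟨(b ^ 2 - 4 * a * c).toNat, Int.toNat_of_nonneg hD0⟩
    have hDB : (D : ℤ) ≤ 5 * B ^ 2 := by
      rw [hDn]
      have h1 : b ^ 2 ≤ B ^ 2 := by nlinarith
      have h2 : |a * c| ≤ B * B := by
        rw [abs_mul]; exact mul_le_mul ha hc (abs_nonneg _) hB
      have h3 := abs_le.1 h2
      nlinarith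
    have hDr : ((D : ℕ) : ℝ) = (2 * a * z + b) ^ 2 := by
      rw [← hD, ← hDn]; push_cast; rfl
    have hsq : √(D : ℝ) = |2 * a * z + b| := by rw [hDr, Real.sqrt_sq_eq_abs]
    rcases le_total 0 (2 * (a : ℝ) * z + b) with h | h
    · refine ⟨(-b, D, 2 * a), by simpa using ha0, ?_, ?_, hDB, ?_⟩
      · simp only [Num.val]
        rw [hsq, abs_of_nonneg h]
        push_cast
        field_simp
        ring
      · simpa using hb
      · simp only; rw [abs_mul]; norm_num; linarith
    · refine ⟨(b, D, -(2 * a)), by simpa using ha0, ?_, ?_, hDB, ?_⟩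
      · simp only [Num.val]
        rw [hsq, abs_of_nonpos h]
        push_cast
        field_simp
        ring
      · exact hb
      · simp only; rw [abs_neg, abs_mul]; norm_num; linarith

end H612BB
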