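import Pool.Agent.H612.BB.T_SND

/-!
# Guarding means that all edges carry chains
-/

namespace H612BB

open Vis124 Pool.Agent.NPC Set

theorem isClosed_sees {P : Set (ℝ × ℝ)} (hP : IsClosed P) {X : Type} [TopologicalSpace X]
    {a b : X → ℝ × ℝ} (ha : Continuous a) (hb : Continuous b) :
    IsClosed {x | segment ℝ (a x) (b x) ⊆ P} := by
  have e : {x | segment ℝ (a x) (b x) ⊆ P} =
      ⋂ s : ℝ, ⋂ (_ : 0 ≤ s ∧ s ≤ 1), {x | a x + s • (b x - a x) ∈ P} := by
    ext x
    simp only [mem_setOf_eq, mem_iInter]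
    constructor
    · rintro h s ⟨h0, h1⟩
      exact h (seg_param.2 ⟨s, h0, h1, rfl⟩)
    · intro h q hq
      obtain ⟨s, h0, h1, rfl⟩ := seg_param.1 hq
      exact h s ⟨h0, h1⟩
  rw [e]
  refine isClosed_iInter fun s => isClosed_iInter fun _ => hP.preimage ?_
  exact ha.add ((hb.sub ha).const_smul s)

theorem continuous_pt {n : ℕ} (v : Fin n → ℝ × ℝ) (f : Fin n) : Continuous (pt v f) := by
  unfold pt; fun_prop

theorem fin_ivt : ∀ (k : ℕ) (y : Fin (k + 1) → ℝ) (s : ℝ), 0 < k → y 0 ≤ s →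
    s ≤ y (Fin.last k) → ∃ j : Fin k, y (Fin.castSucc j) ≤ s ∧ s ≤ y (Fin.succ j) := by
  intro k y s hk h0 h1
  by_contra hc
  push Not at hc
  have hall : ∀ j : Fin (k + 1), y j ≤ s := by
    intro j
    induction j using Fin.induction with
    | zero => exact h0
    | succ i ih => exact (hc i ih).le
  obtain ⟨m, rfl⟩ : ∃ m, k = m + 1 := ⟨k - 1, by omega⟩
  have := hc (Fin.last m) (hall _)
  rw [Fin.succ_last] at this
  linarith

theorem CSP_of (hC : S_CHN) (hE : S_EXT) (hT : S_TRI) : S_CSP := by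
  intro n v P k h
  have hfr : frontier P = curve v := h.boundary
  constructor
  · rintro ⟨G, hcard, hsub, hcov⟩
    set e0 : G ≃ Fin k := G.equivFinOfCardEq hcard with he0
    have hg : ∀ i : Fin k, ∃ (e : Fin n) (x : ℝ), 0 ≤ x ∧ x ≤ 1 ∧
        ((e0.symm i : G) : ℝ × ℝ) = pt v e x := by
      intro i
      have h1 : ((e0.symm i : G) : ℝ × ℝ) ∈ frontier P := hsub (e0.symm i).2
      rw [hfr] at h1
      obtain ⟨l, hl⟩ := mem_iUnion.1 h1
      rw [edge_eq] at hl
      obtain ⟨a, ha0, ha1, ha⟩ := hl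
      exact ⟨l, a, ha0, ha1, ha⟩
    choose e x hx0 hx1 hge using hg
    have hch : ∀ f : Fin n, ∃ (c : Fin k → Fin k) (y : Fin (k + 1) → ℝ), y 0 = 0 ∧
        y (Fin.last k) = 1 ∧ (∀ j, 0 ≤ y j ∧ y j ≤ 1) ∧
        ∀ j, segment ℝ (pt v (e (c j)) (x (c j))) (pt v f (y (Fin.castSucc j))) ⊆ P ∧
          segment ℝ (pt v (e (c j)) (x (c j))) (pt v f (y (Fin.succ j))) ⊆ P := by
      intro f
      exact hC k (fun i => {y | segment ℝ (pt v (e i) (x i)) (pt v f y) ⊆ P})
        (fun i => isClosed_sees h.compact.isClosed continuous_const (continuous_pt v f)) (by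
          intro y hy
          have h1 : pt v f y ∈ frontier P := by
            rw [hfr]; exact mem_iUnion.2 ⟨f, pt_mem_edge f hy.1 hy.2⟩
          obtain ⟨g, hg, hg'⟩ := hcov _ h1
          refine mem_iUnion.2 ⟨e0 ⟨g, hg⟩, ?_⟩
          have h2 := hge (e0 ⟨g, hg⟩)
          rw [Equiv.symm_apply_apply] at h2
          simp only [mem_setOf_eq]
          rw [← h2]
          exact hg')
    choose c y hy0 hy1 hym hyc using hch
    exact ⟨e, c, x, y, ⟨fun i => ⟨hx0 i, hx1 i⟩, hym, hy0, hy1, fun f j => (hyc f j).1,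
      fun f j => (hyc f j).2⟩⟩
  · rintro ⟨e, c, x, y, hch⟩
    have hn := h.three_le
    have hk : 0 < k := by
      rcases Nat.eq_zero_or_pos k with h0 | h0
      · subst h0
        have h1 := hch.first ⟨0, by omega⟩
        have h2 := hch.last ⟨0, by omega⟩
        have h3 : (Fin.last 0) = (0 : Fin (0 + 1)) := rfl
        rw [h3, h1] at h2
        norm_num at h2
      · exact h0
    refine grd (frontier_infinite h) (fun i => pt v (e i) (x i)) ?_ ?_
    · intro i
      rw [hfr]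
      exact mem_iUnion.2 ⟨_, pt_mem_edge _ (hch.xmem i).1 (hch.xmem i).2⟩
    · intro t ht
      rw [hfr] at ht
      obtain ⟨f, hf⟩ := mem_iUnion.1 ht
      rw [edge_eq] at hf
      obtain ⟨s, hs0, hs1, rfl⟩ := hf
      obtain ⟨j, hj1, hj2⟩ := fin_ivt k (y f) s hk (by rw [hch.first]; exact hs0)
        (by rw [hch.last]; exact hs1)
      exact ⟨c f j, sees_between hE hT h (hch.ymem f _).1 (hch.ymem f _).2 (hch.ymem f _).1
        (hch.ymem f _).2 (hch.left f j) (hch.right f j) hj1 hj2⟩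

end H612BB
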