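import Pool.Agent.H612.BB.Stubs

/-!
# Boundary-boundary guarding: the exterior of a simple polygon is connected (EXT)

(helper75)
-/

namespace H612BB

open Vis124 Set Filter Topology

variable {n : ℕ} {v : Fin n → ℝ × ℝ} {P : Set (ℝ × ℝ)}

lemma EXT_absorbs (h : IsSimplePolygon v P) (q : ℝ × ℝ) :
    Absorbs v (connectedComponentIn Pᶜ q) := by
  intro S hS hd ⟨x, hx1, hx2⟩
  have hsub : S ⊆ Pᶜ := absorbs_ext h S hS hd ⟨x, hx1, connectedComponentIn_subset _ _ hx2⟩
  rw [connectedComponentIn_eq hx2]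
  exact hS.subset_connectedComponentIn hx1 hsub

lemma EXT_absorbs' (h : IsSimplePolygon v P) (q : ℝ × ℝ) :
    Absorbs v (Pᶜ \ connectedComponentIn Pᶜ q) := by
  intro S hS hd ⟨x, hx1, hx2⟩
  have hsub : S ⊆ Pᶜ := absorbs_ext h S hS hd ⟨x, hx1, hx2.1⟩
  intro y hy
  exact ⟨hsub hy, fun hyQ => hx2.2 (EXT_absorbs h q S hS hd ⟨y, hy, hyQ⟩ hx1)⟩

lemma EXT_or (h : IsSimplePolygon v P) (q : ℝ × ℝ) {σ : ℝ} {k : Fin n} (hext : Ev v Pᶜ σ k) :
    Ev v (connectedComponentIn Pᶜ q) σ k ∨ Ev v (Pᶜ \ connectedComponentIn Pᶜ q) σ k := by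
  obtain ⟨δ1, hδ1, hs⟩ := small_sector h σ k
  obtain ⟨δ2, hδ2, he⟩ := hext
  have hδ : 0 < min δ1 δ2 := lt_min hδ1 hδ2
  obtain ⟨hc, hd⟩ := hs (min δ1 δ2) hδ (min_le_left _ _)
  by_cases hne : (((fun z => v k + z) '' (Sec σ (wd v k) (ud v k) ∩ Metric.ball 0 (min δ1 δ2))) ∩
      connectedComponentIn Pᶜ q).Nonempty
  · left
    have hsub := EXT_absorbs h q _ hc hd hne
    exact ⟨_, hδ, fun z hz hzn => hsub ⟨z, ⟨hz, by rwa [mem_ball_zero_iff]⟩, rfl⟩⟩
  · right
    exact ⟨_, hδ, fun z hz hzn => ⟨he z hz (lt_of_lt_of_le hzn (min_le_right _ _)),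
      fun hQ => hne ⟨v k + z, ⟨z, ⟨hz, by rwa [mem_ball_zero_iff]⟩, rfl⟩, hQ⟩⟩⟩

lemma EXT_dec {w : ℝ × ℝ} (hw : w ≠ 0) (z : ℝ × ℝ) :
    z = ((w.1 * z.1 + w.2 * z.2) / (w.1 ^ 2 + w.2 ^ 2)) • w +
      (cr w z / (w.1 ^ 2 + w.2 ^ 2)) • rot w := by
  have hn := norm2_pos hw
  have hD' : w.1 ^ 2 + w.2 ^ 2 ≠ 0 := hn.ne'
  ext
  · simp only [Prod.fst_add, Prod.smul_fst, smul_eq_mul, rot]
    field_simp
    unfold cr; ring
  · simp only [Prod.snd_add, Prod.smul_snd, smul_eq_mul, rot]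
    field_simp
    unfold cr; ring

/-- near a vertex -/
lemma EXT_vertex (h : IsSimplePolygon v P) {Q : Set (ℝ × ℝ)} (hQP : Q ⊆ Pᶜ) {σ : ℝ}
    (hσ : σ = 1 ∨ σ = -1) (hint : ∀ k, Ev v (interior P) σ k)
    (hall : ∀ k, Ev v (Pᶜ \ Q) (-σ) k) (k : Fin n) : ∀ᶠ y in 𝓝 (v k), y ∉ Q := by
  obtain ⟨δ1, hδ1, e1⟩ := hint k
  obtain ⟨δ2, hδ2, e2⟩ := hall k
  obtain ⟨δ3, hδ3, e3⟩ := near_vertex h k
  have hδ : 0 < min δ1 (min δ2 δ3) := lt_min hδ1 (lt_min hδ2 hδ3)
  filter_upwards [Metric.ball_mem_nhds (v k) hδ] with y hy hyQ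
  have hz : ‖y - v k‖ < min δ1 (min δ2 δ3) := by
    rwa [Metric.mem_ball, dist_eq_norm] at hy
  have hyz : v k + (y - v k) = y := by abel
  have hz1 := lt_of_lt_of_le hz (min_le_left _ _)
  have hz2 := lt_of_lt_of_le hz ((min_le_right _ _).trans (min_le_left _ _))
  have hz3 := lt_of_lt_of_le hz ((min_le_right _ _).trans (min_le_right _ _))
  have hyP : y ∉ P := hQP hyQ
  have a1 : y - v k ∉ Sec σ (wd v k) (ud v k) := by
    intro hs
    have := e1 _ hs hz1
    rw [hyz] at this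
    exact hyP (interior_subset this)
  have a2 : y - v k ∉ Sec (-σ) (wd v k) (ud v k) := by
    intro hs
    have := e2 _ hs hz2
    rw [hyz] at this
    exact this.2 hyQ
  rcases e3 _ hz3 with (h4 | h4) | h4
  · rcases hσ with rfl | rfl
    · exact a1 h4
    · rw [neg_neg] at a2
      exact a2 h4
  · rcases hσ with rfl | rfl
    · exact a2 h4
    · exact a1 h4
  · rw [hyz] at h4
    exact hyP (curve_subset h h4)

/-- near an interior point of an edge -/
lemma EXT_edge (h : IsSimplePolygon v P) {Q : Set (ℝ × ℝ)} (hQP : Q ⊆ Pᶜ)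
    (hQ' : Absorbs v (Pᶜ \ Q)) {σ : ℝ}
    (hσ : σ = 1 ∨ σ = -1) (hint : ∀ k, Ev v (interior P) σ k)
    (hall : ∀ k, Ev v (Pᶜ \ Q) (-σ) k) (l : Fin n) {a : ℝ} (h0 : 0 < a) (h1 : a < 1) :
    ∀ᶠ y in 𝓝 (v l + a • wd v l), y ∉ Q := by
  have hσ2 : σ ^ 2 = 1 := by rcases hσ with rfl | rfl <;> norm_num
  have hσ2' : (-σ) ^ 2 = 1 := by rw [neg_sq]; exact hσ2
  obtain ⟨δ1, hδ1, e1⟩ := strip_ev h (absorbs_int h) hσ2 (hint l) (a1 := a / 2)
    (a2 := (a + 1) / 2) (by linarith) (by linarith) (by linarith)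
  obtain ⟨δ2, hδ2, e2⟩ := strip_ev h hQ' hσ2' (hall l) (a1 := a / 2)
    (a2 := (a + 1) / 2) (by linarith) (by linarith) (by linarith)
  have hw := wd_ne h l
  have hn := norm2_pos hw
  set w := wd v l with hwdef
  set D := w.1 ^ 2 + w.2 ^ 2 with hD
  have hD' : D ≠ 0 := hn.ne'
  set fA : ℝ × ℝ → ℝ := fun y => (w.1 * (y - v l).1 + w.2 * (y - v l).2) / D with hfA
  set fT : ℝ × ℝ → ℝ := fun y => cr w (y - v l) / D with hfT
  have hfAc : Continuous fA := by
    rw [hfA]
    fun_prop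
  have hfTc : Continuous fT := by
    rw [hfT]
    unfold cr
    fun_prop
  have hfA0 : fA (v l + a • w) = a := by
    simp only [hfA, add_sub_cancel_left, Prod.smul_fst, Prod.smul_snd, smul_eq_mul]
    rw [div_eq_iff hD', hD]
    ring
  have hfT0 : fT (v l + a • w) = 0 := by
    simp only [hfT, add_sub_cancel_left]
    rw [cr_smul_right, cr_self]
    simp
  have m1 : ∀ᶠ y in 𝓝 (v l + a • w), a / 2 < fA y :=
    (hfAc.continuousAt).eventually (lt_mem_nhds (by rw [hfA0]; linarith))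
  have m2 : ∀ᶠ y in 𝓝 (v l + a • w), fA y < (a + 1) / 2 :=
    (hfAc.continuousAt).eventually (gt_mem_nhds (by rw [hfA0]; linarith))
  have m3 : ∀ᶠ y in 𝓝 (v l + a • w), |fT y| < min δ1 δ2 :=
    (hfTc.abs.continuousAt).eventually
      (gt_mem_nhds (by simp only [hfT0, abs_zero]; exact lt_min hδ1 hδ2))
  filter_upwards [m1, m2, m3] with y y1 y2 y3 hyQ
  have hyP : y ∉ P := hQP hyQ
  have hdec : y = v l + fA y • w + fT y • rot w := by
    have := EXT_dec hw (y - v l)
    rw [add_assoc, ← this]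
    abel
  rcases lt_trichotomy (σ * fT y) 0 with ht | ht | ht
  · -- outer side
    have hts : -(σ * fT y) * -σ = fT y := by
      have : -(σ * fT y) * -σ = σ ^ 2 * fT y := by ring
      rw [this, hσ2, one_mul]
    have htb : -(σ * fT y) < δ2 := by
      have h5 : -(σ * fT y) ≤ |fT y| := by
        rcases hσ with rfl | rfl
        · rw [one_mul]; exact neg_le_abs _
        · simp only [neg_mul, one_mul, neg_neg]; exact le_abs_self _
      exact lt_of_le_of_lt h5 (lt_of_lt_of_le y3 (min_le_right _ _))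
    have := e2 (fA y) (-(σ * fT y)) y1.le y2.le (by linarith) htb
    rw [hts, ← hdec] at this
    exact this.2 hyQ
  · have ht0 : fT y = 0 := by
      rcases mul_eq_zero.mp ht with h5 | h5
      · rw [h5] at hσ2; norm_num at hσ2
      · exact h5
    apply hyP
    apply curve_subset h
    refine mem_iUnion.2 ⟨l, ?_⟩
    rw [edge_eq]
    refine ⟨fA y, by linarith, by linarith, ?_⟩
    rw [ht0, zero_smul, add_zero] at hdec
    exact hdec
  · have hts : (σ * fT y) * σ = fT y := by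
      have : (σ * fT y) * σ = σ ^ 2 * fT y := by ring
      rw [this, hσ2, one_mul]
    have htb : σ * fT y < δ1 := by
      have h5 : σ * fT y ≤ |fT y| := by
        rcases hσ with rfl | rfl
        · rw [one_mul]; exact le_abs_self _
        · simp only [neg_mul, one_mul]; exact neg_le_abs _
      exact lt_of_le_of_lt h5 (lt_of_lt_of_le y3 (min_le_left _ _))
    have := e1 (fA y) (σ * fT y) y1.le y2.le ht htb
    rw [hts, ← hdec] at this
    exact hyP (interior_subset this)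

lemma EXT_key (h : IsSimplePolygon v P) {q : ℝ × ℝ} (hq : q ∈ Pᶜ) {σ : ℝ}
    (hσ : σ = 1 ∨ σ = -1) (hint : ∀ k, Ev v (interior P) σ k) (hext : ∀ k, Ev v Pᶜ (-σ) k) :
    ∀ k, Ev v (connectedComponentIn Pᶜ q) (-σ) k := by
  have hn := h.three_le
  have k0 : Fin n := ⟨0, by omega⟩
  have hσ2' : (-σ) ^ 2 = 1 := by rcases hσ with rfl | rfl <;> norm_num
  have hQP : connectedComponentIn Pᶜ q ⊆ Pᶜ := connectedComponentIn_subset _ _
  rcases EXT_or h q (hext k0) with h1 | h1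
  · exact cyc_induction h1 fun k hk => ev_next h (EXT_absorbs h q) hσ2' hk
  · exfalso
    have hall : ∀ k, Ev v (Pᶜ \ connectedComponentIn Pᶜ q) (-σ) k :=
      cyc_induction h1 fun k hk => ev_next h (EXT_absorbs' h q) hσ2' hk
    have hcl : ∀ x ∈ curve v, ∀ᶠ y in 𝓝 x, y ∉ connectedComponentIn Pᶜ q := by
      intro x hx
      obtain ⟨l, hl⟩ := mem_iUnion.1 hx
      rw [edge_eq] at hl
      obtain ⟨a, ha0, ha1, rfl⟩ := hl
      rcases eq_or_lt_of_le ha0 with h2 | h2
      · rw [← h2, zero_smul, add_zero]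
        exact EXT_vertex h hQP hσ hint hall l
      · rcases eq_or_lt_of_le ha1 with h3 | h3
        · have h4 : v l + a • wd v l = v (sc l) := by
            rw [h3, one_smul]; unfold wd; abel
          rw [h4]
          exact EXT_vertex h hQP hσ hint hall (sc l)
        · exact EXT_edge h hQP (EXT_absorbs' h q) hσ hint hall l h2 h3
    have hPo : IsOpen Pᶜ := (isClosed_P h).isOpen_compl
    have hQo : IsOpen (connectedComponentIn Pᶜ q) := hPo.connectedComponentIn
    have hQc : IsClosed (connectedComponentIn Pᶜ q) := by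
      rw [← closure_subset_iff_isClosed]
      intro x hx
      have hxc : x ∉ curve v := by
        intro hxc
        rw [mem_closure_iff_frequently] at hx
        exact hx (hcl x hxc)
      have hxP : x ∈ Pᶜ := by
        have h2 : x ∈ closure Pᶜ := closure_mono hQP hx
        by_contra h3
        apply hxc
        rw [← h.boundary, frontier_eq_closure_inter_closure]
        exact ⟨subset_closure (not_not.1 h3), h2⟩
      have hCo : IsOpen (connectedComponentIn Pᶜ x) := hPo.connectedComponentIn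
      obtain ⟨y, hy1, hy2⟩ := mem_closure_iff.1 hx _ hCo (mem_connectedComponentIn hxP)
      rw [connectedComponentIn_eq hy2, ← connectedComponentIn_eq hy1]
      exact mem_connectedComponentIn hxP
    have huniv := IsClopen.eq_univ ⟨hQc, hQo⟩ ⟨q, mem_connectedComponentIn hq⟩
    have hv : v k0 ∈ P := curve_subset h (mem_iUnion.2 ⟨k0, vertex_mem_edge k0⟩)
    have : v k0 ∈ connectedComponentIn Pᶜ q := by rw [huniv]; exact mem_univ _
    exact hQP this hv

theorem EXT_holds : S_EXT := by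
  intro n v P h
  obtain ⟨σ, hσ, hint, hext⟩ := oriented h
  have hn := h.three_le
  have k0 : Fin n := ⟨0, by omega⟩
  have hσ2' : (-σ) ^ 2 = 1 := by rcases hσ with rfl | rfl <;> norm_num
  rcases (Pᶜ).eq_empty_or_nonempty with h0 | ⟨q, hq⟩
  · rw [h0]; exact isPreconnected_empty
  have hsub : Pᶜ ⊆ connectedComponentIn Pᶜ q := by
    intro q' hq'
    have e1 := EXT_key h hq hσ hint hext k0
    have e2 := EXT_key h hq' hσ hint hext k0
    obtain ⟨δ1, hδ1, s1⟩ := strip_ev h (EXT_absorbs h q) hσ2' e1 (a1 := 1 / 2) (a2 := 1 / 2)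
      (by norm_num) le_rfl (by norm_num)
    obtain ⟨δ2, hδ2, s2⟩ := strip_ev h (EXT_absorbs h q') hσ2' e2 (a1 := 1 / 2) (a2 := 1 / 2)
      (by norm_num) le_rfl (by norm_num)
    have hδ : 0 < min δ1 δ2 := lt_min hδ1 hδ2
    have hm1 : min δ1 δ2 / 2 < δ1 := by
      have := min_le_left δ1 δ2
      linarith
    have hm2 : min δ1 δ2 / 2 < δ2 := by
      have := min_le_right δ1 δ2
      linarith
    have p1 := s1 (1 / 2) (min δ1 δ2 / 2) le_rfl le_rfl (by linarith) hm1
    have p2 := s2 (1 / 2) (min δ1 δ2 / 2) le_rfl le_rfl (by linarith) hm2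
    rw [connectedComponentIn_eq p1, ← connectedComponentIn_eq p2]
    exact mem_connectedComponentIn hq'
  have heq : Pᶜ = connectedComponentIn Pᶜ q :=
    Subset.antisymm hsub (connectedComponentIn_subset _ _)
  rw [heq]
  exact isPreconnected_connectedComponentIn

end H612BB
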