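import Pool.Agent.H612.BB.Stubs

/-!
# Small lemmas: from families of guards to sets of exactly `k` guards
-/

namespace H612BB

open Vis124 Pool.Agent.NPC

/-- the boundary of a simple polygon is infinite -/
theorem frontier_infinite {n : ℕ} {v : Fin n → ℝ × ℝ} {P : Set (ℝ × ℝ)}
    (h : IsSimplePolygon v P) : (frontier P).Infinite := by
  rw [h.boundary]
  have hn := h.three_le
  let k0 : Fin n := ⟨0, by omega⟩
  have hw := wd_ne h k0
  apply Set.Infinite.mono (s := (fun x : ℝ => v k0 + x • wd v k0) '' Set.Icc 0 1)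
  · rintro _ ⟨x, hx, rfl⟩
    refine Set.mem_iUnion.2 ⟨k0, ?_⟩
    rw [edge_eq]
    exact ⟨x, hx.1, hx.2, rfl⟩
  · apply Set.Infinite.image _ (Set.Icc_infinite zero_lt_one)
    intro x _ y _ hxy
    have h1 : x • wd v k0 = y • wd v k0 := add_left_cancel hxy
    exact smul_left_injective ℝ hw h1

/-- a family of `k` boundary guards gives a set of exactly `k` boundary guards -/
theorem grd {P : Set (ℝ × ℝ)} {k : ℕ} (hinf : (frontier P).Infinite) (g : Fin k → ℝ × ℝ)
    (hg : ∀ i, g i ∈ frontier P) (hc : ∀ t ∈ frontier P, ∃ i, segment ℝ (g i) t ⊆ P) :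
    GuardedBy P k := by
  classical
  set G0 : Finset (ℝ × ℝ) := Finset.univ.image g with hG0
  have hcard : G0.card ≤ k := by
    refine Finset.card_image_le.trans ?_
    simp
  obtain ⟨t, ht, htc⟩ := (hinf.diff (Finset.finite_toSet G0)).exists_subset_card_eq (k - G0.card)
  have hdisj : Disjoint G0 t := by
    rw [Finset.disjoint_left]
    intro a ha hat
    exact (ht hat).2 ha
  refine ⟨G0 ∪ t, ?_, ?_, ?_⟩
  · rw [Finset.card_union_of_disjoint hdisj, htc]
    omega
  · intro a ha
    rcases Finset.mem_union.1 (Finset.mem_coe.1 ha) with h1 | h1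
    · rw [hG0, Finset.mem_image] at h1
      obtain ⟨i, _, rfl⟩ := h1
      exact hg i
    · exact (ht h1).1
  · intro a ha
    obtain ⟨i, hi⟩ := hc a ha
    exact ⟨g i, Finset.mem_union_left _ (Finset.mem_image_of_mem g (Finset.mem_univ i)), hi⟩

end H612BB
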