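import Pool.Agent.H612.BB.Stubs

/-!
# Local behaviour of the contribution of one edge to the crossing number
-/

namespace H612BB

open Vis124 Pool.Agent.NPC Filter Topology

namespace KEY

theorem add_self2 (x : ZMod 2) : x + x = 0 := CharTwo.add_self_eq_zero x

/-- the function whose sign says on which side of the edge the point lies -/
noncomputable def gg (a b z : ℝ × ℝ) : ℝ := (b.1 - a.1) * (cr (b - a) (a - z))

theorem gg_eq (a b z : ℝ × ℝ) :
    gg a b z = (b.1 - a.1) * ((b.1 - a.1) * (a.2 - z.2) - (b.2 - a.2) * (a.1 - z.1)) := by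
  unfold gg cr
  simp only [Prod.fst_sub, Prod.snd_sub]

theorem gg_cont (a b : ℝ × ℝ) : Continuous (gg a b) := by
  have h : gg a b = fun z =>
      (b.1 - a.1) * ((b.1 - a.1) * (a.2 - z.2) - (b.2 - a.2) * (a.1 - z.1)) :=
    funext (gg_eq a b)
  rw [h]
  fun_prop

theorem gg_symm (a b z : ℝ × ℝ) : gg a b z = gg b a z := by
  rw [gg_eq, gg_eq]
  ring

theorem kap_eq (a b z : ℝ × ℝ) : kap a b z =
    ((if a.1 ≤ z.1 then 1 else 0) + (if b.1 ≤ z.1 then 1 else 0)) *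
      (if 0 < gg a b z then 1 else 0) := rfl

theorem kap_symm (a b z : ℝ × ℝ) : kap a b z = kap b a z := by
  rw [kap_eq, kap_eq, gg_symm, add_comm]

theorem seg_vert {a b z : ℝ × ℝ} (ha : a.1 = z.1) (hb : b.1 = z.1) (h1 : a.2 ≤ z.2)
    (h2 : z.2 < b.2) : z ∈ segment ℝ a b := by
  have hp : 0 < b.2 - a.2 := by linarith
  refine ⟨(b.2 - z.2) / (b.2 - a.2), (z.2 - a.2) / (b.2 - a.2), by
    apply div_nonneg <;> linarith, by apply div_nonneg <;> linarith, by
    field_simp; ring, ?_⟩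
  apply Prod.ext
  · simp only [Prod.fst_add, Prod.smul_fst, smul_eq_mul, ha, hb]
    field_simp
    ring
  · simp only [Prod.snd_add, Prod.smul_snd, smul_eq_mul]
    field_simp
    ring

theorem seg_line {a b z : ℝ × ℝ} (h1 : a.1 < z.1) (h2 : z.1 < b.1) (hg : gg a b z = 0) :
    z ∈ segment ℝ a b := by
  have hp : 0 < b.1 - a.1 := by linarith
  have hg2 : (b.1 - a.1) * (a.2 - z.2) - (b.2 - a.2) * (a.1 - z.1) = 0 := by
    rw [gg_eq] at hg
    exact (mul_eq_zero.1 hg).resolve_left hp.ne'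
  refine ⟨(b.1 - z.1) / (b.1 - a.1), (z.1 - a.1) / (b.1 - a.1), by
    apply div_nonneg <;> linarith, by apply div_nonneg <;> linarith, by
    field_simp; ring, ?_⟩
  apply Prod.ext
  · simp only [Prod.fst_add, Prod.smul_fst, smul_eq_mul]
    field_simp
    ring
  · simp only [Prod.snd_add, Prod.smul_snd, smul_eq_mul]
    field_simp
    linear_combination hg2

theorem ev_le {c : ℝ} {z0 : ℝ × ℝ} (h : c ≠ z0.1) : ∀ᶠ z : ℝ × ℝ in 𝓝 z0, (c ≤ z.1 ↔ c ≤ z0.1) := by
  have hc : Tendsto (fun z : ℝ × ℝ => z.1) (𝓝 z0) (𝓝 z0.1) := continuous_fst.continuousAt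
  rcases lt_or_gt_of_ne h with h1 | h1
  · filter_upwards [hc.eventually (lt_mem_nhds h1)] with z hz
    exact ⟨fun _ => h1.le, fun _ => le_of_lt hz⟩
  · filter_upwards [hc.eventually (gt_mem_nhds h1)] with z hz
    exact ⟨fun h2 => absurd hz (not_lt.2 h2), fun h2 => absurd h1 (not_lt.2 h2)⟩

theorem ev_g {a b z0 : ℝ × ℝ} (h : gg a b z0 ≠ 0) :
    ∀ᶠ z : ℝ × ℝ in 𝓝 z0, (0 < gg a b z ↔ 0 < gg a b z0) := by
  have hc : Tendsto (gg a b) (𝓝 z0) (𝓝 (gg a b z0)) := (gg_cont a b).continuousAt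
  rcases lt_or_gt_of_ne h with h1 | h1
  · filter_upwards [hc.eventually (gt_mem_nhds h1)] with z hz
    exact ⟨fun h2 => absurd hz (not_lt.2 h2.le), fun h2 => absurd h1 (not_lt.2 h2.le)⟩
  · filter_upwards [hc.eventually (lt_mem_nhds h1)] with z hz
    exact ⟨fun _ => h1, fun _ => hz⟩

/-- the correction term -/
noncomputable def cor (a b z0 z : ℝ × ℝ) : ZMod 2 :=
  if z.1 < z0.1 then
    (if a.1 = z0.1 ∧ z0.2 < a.2 then 1 else 0) + (if b.1 = z0.1 ∧ z0.2 < b.2 then 1 else 0) else 0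

theorem cor_symm (a b z0 z : ℝ × ℝ) : cor a b z0 z = cor b a z0 z := by
  unfold cor
  rw [add_comm]

theorem case0 {a b z0 : ℝ × ℝ} (h : z0 ∉ segment ℝ a b) (hab : a.1 = b.1) (z : ℝ × ℝ) :
    kap a b z = kap a b z0 + cor a b z0 z := by
  have hg : ∀ z, gg a b z = 0 := fun z => by rw [gg_eq, hab]; ring
  have hk : ∀ z, kap a b z = 0 := fun z => by
    rw [kap_eq, hg, if_neg (lt_irrefl 0), mul_zero]
  have hc : cor a b z0 z = 0 := by
    unfold cor
    split_ifs with h1 h2 h3 h3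
    · exact add_self2 1
    · exact absurd (segment_symm ℝ b a ▸ seg_vert (hab.symm.trans h2.1) h2.1
        (not_lt.1 fun h4 => h3 ⟨hab.symm.trans h2.1, h4⟩) h2.2) h
    · exact absurd (seg_vert (hab.trans h3.1) h3.1
        (not_lt.1 fun h4 => h2 ⟨hab.trans h3.1, h4⟩) h3.2) h
    · exact add_zero 0
    · rfl
  rw [hk, hk, hc, add_zero]

theorem case1 {a b z0 : ℝ × ℝ} (h : z0 ∉ segment ℝ a b) (ha : a.1 ≠ z0.1) (hb : b.1 ≠ z0.1) :
    ∀ᶠ z : ℝ × ℝ in 𝓝 z0, kap a b z = kap a b z0 + cor a b z0 z := by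
  have hc : ∀ z, cor a b z0 z = 0 := by
    intro z
    unfold cor
    simp only [ha, hb, false_and, if_false, add_zero, ite_self]
  by_cases hi : a.1 ≤ z0.1 ↔ b.1 ≤ z0.1
  · filter_upwards [ev_le ha, ev_le hb] with z h1 h2
    rw [hc, kap_eq, kap_eq]
    simp only [h1, h2, hi, add_self2, zero_mul, add_zero]
  · have hg : gg a b z0 ≠ 0 := by
      intro hg
      rcases lt_or_gt_of_ne ha with h1 | h1
      · rcases lt_or_gt_of_ne hb with h2 | h2
        · exact hi ⟨fun _ => h2.le, fun _ => h1.le⟩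
        · exact h (seg_line h1 h2 hg)
      · rcases lt_or_gt_of_ne hb with h2 | h2
        · exact h (segment_symm ℝ b a ▸ seg_line h2 h1 (gg_symm a b z0 ▸ hg))
        · exact hi ⟨fun h3 => absurd h1 (not_lt.2 h3), fun h3 => absurd h2 (not_lt.2 h3)⟩
    filter_upwards [ev_le ha, ev_le hb, ev_g hg] with z h1 h2 h3
    rw [hc, kap_eq, kap_eq]
    simp only [h1, h2, h3, add_zero]

theorem case2 {a b z0 : ℝ × ℝ} (h : z0 ∉ segment ℝ a b) (ha : a.1 = z0.1) (hb : b.1 ≠ z0.1) :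
    ∀ᶠ z : ℝ × ℝ in 𝓝 z0, kap a b z = kap a b z0 + cor a b z0 z := by
  have hab : b.1 - a.1 ≠ 0 := by
    rw [ha]
    exact sub_ne_zero.2 hb
  have hg0 : gg a b z0 = (b.1 - a.1) ^ 2 * (a.2 - z0.2) := by
    rw [gg_eq, ha]
    ring
  have hsq : 0 < (b.1 - a.1) ^ 2 := by positivity
  have hg : gg a b z0 ≠ 0 := by
    intro hg
    rw [hg0] at hg
    have h2 := (mul_eq_zero.1 hg).resolve_left hsq.ne'
    have h3 : z0 = a := Prod.ext ha.symm (by linarith)
    exact h (h3 ▸ left_mem_segment ℝ a b)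
  have hg1 : 0 < gg a b z0 ↔ z0.2 < a.2 := by
    rw [hg0, mul_pos_iff_of_pos_left hsq, sub_pos]
  filter_upwards [ev_le hb, ev_g hg] with z h2 h3
  rw [kap_eq, kap_eq]
  unfold cor
  simp only [h2, h3, hg1, ha, hb, false_and, true_and, if_false, le_refl, if_true, add_zero]
  by_cases hz : z.1 < z0.1
  · rw [if_neg (not_le.2 hz), if_pos hz]
    by_cases h4 : z0.2 < a.2
    · rw [if_pos h4]
      by_cases h5 : b.1 ≤ z0.1
      · rw [if_pos h5]; decide
      · rw [if_neg h5]; decide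
    · rw [if_neg h4]; simp
  · rw [if_pos (not_lt.1 hz), if_neg hz, add_zero]

theorem ev_all {a b z0 : ℝ × ℝ} (h : z0 ∉ segment ℝ a b) :
    ∀ᶠ z : ℝ × ℝ in 𝓝 z0, kap a b z = kap a b z0 + cor a b z0 z := by
  by_cases ha : a.1 = z0.1
  · by_cases hb : b.1 = z0.1
    · exact Eventually.of_forall (case0 h (ha.trans hb.symm))
    · exact case2 h ha hb
  · by_cases hb : b.1 = z0.1
    · have h' : z0 ∉ segment ℝ b a := by rwa [segment_symm]
      filter_upwards [case2 h' hb ha] with z hz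
      rw [kap_symm, hz, kap_symm b a z0, cor_symm]
    · exact case1 h ha hb

end KEY

theorem KEY_holds : S_KEY := by
  intro a b z0 h
  obtain ⟨δ, hδ, h1⟩ := Metric.eventually_nhds_iff.1 (KEY.ev_all h)
  refine ⟨δ, hδ, fun z hz => ?_⟩
  rw [← dist_eq_norm] at hz
  exact h1 hz

end H612BB
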