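import Pool.Agent.H612.BB.Stubs

namespace H612BB

theorem LEX_holds : S_LEX := by
  intro N K hK hne
  have key : ∀ m : ℕ, m ≤ N → ∃ z ∈ K, ∀ z' ∈ K, ∀ i : Fin N, i.val < m →
      (∀ j < i, z' j = z j) → z i ≤ z' i := by
    intro m
    induction m with
    | zero =>
      intro _
      obtain ⟨z, hz⟩ := hne
      exact ⟨z, hz, fun z' _ i hi => absurd hi (Nat.not_lt_zero _)⟩
    | succ m ih =>
      intro hm
      obtain ⟨z, hz, hmin⟩ := ih (by omega)
      let i0 : Fin N := ⟨m, by omega⟩
      let K' : Set (Fin N → ℝ) := K ∩ {w | ∀ j : Fin N, j.val < m → w j = z j}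
      have hclosed : IsClosed {w : Fin N → ℝ | ∀ j : Fin N, j.val < m → w j = z j} := by
        simp only [Set.setOf_forall]
        refine isClosed_iInter fun j => isClosed_iInter fun _ => ?_
        exact isClosed_eq (continuous_apply j) continuous_const
      have hK' : IsCompact K' := hK.inter_right hclosed
      obtain ⟨w, hw, hwmin⟩ := hK'.exists_isMinOn ⟨z, hz, fun _ _ => rfl⟩
        (continuous_apply i0).continuousOn
      refine ⟨w, hw.1, ?_⟩
      intro z' hz' i hi hj
      rcases Nat.lt_succ_iff_lt_or_eq.1 hi with h | h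
      · rw [hw.2 i h]
        refine hmin z' hz' i h fun j hji => ?_
        rw [hj j hji]
        exact hw.2 j (lt_trans hji h)
      · have hi0 : i = i0 := Fin.ext h
        subst hi0
        refine isMinOn_iff.1 hwmin z' ⟨hz', fun j hjm => ?_⟩
        rw [hj j hjm]
        exact hw.2 j hjm
  obtain ⟨z, hz, h⟩ := key N le_rfl
  exact ⟨z, hz, fun z' hz' i hj => h z' hz' i i.isLt hj⟩

end H612BB
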