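import Pool.Agent.H612.BB.Stubs

/-!
# Task MO1: Moebius relations
-/

namespace H612BB

private lemma hnn {x h : ℤ} (hx : |x| ≤ h) : 0 ≤ h := le_trans (abs_nonneg x) hx

private lemma mulb {x y h h' : ℤ} (hx : |x| ≤ h) (hy : |y| ≤ h') : |x * y| ≤ h * h' := by
  rw [abs_mul]
  exact mul_le_mul hx hy (abs_nonneg y) (hnn hx)

private lemma addb {x y h h' : ℤ} (hx : |x| ≤ h) (hy : |y| ≤ h') : |x + y| ≤ h + h' :=
  (abs_add_le x y).trans (add_le_add hx hy)

private lemma negb {x h : ℤ} (hx : |x| ≤ h) : |(-x)| ≤ h := by rwa [abs_neg]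

private lemma mob_comp (h h' : ℤ) (s t u : ℝ) (h1 : Mob h s t) (h2 : Mob h' t u) :
    Mob (2 * h * h') s u := by
  obtain ⟨p, q, r, w, hp, hq, hr, hw, hd, hn, he⟩ := h1
  obtain ⟨p', q', r', w', hp', hq', hr', hw', hd', hn', he'⟩ := h2
  have key : ∀ x y x' y' : ℤ, |x| ≤ h' → |y| ≤ h' → |x'| ≤ h → |y'| ≤ h →
      |x * x' + y * y'| ≤ 2 * h * h' := by
    intro x y x' y' hx hy hx' hy'
    have := addb (mulb hx hx') (mulb hy hy')
    calc |x * x' + y * y'| ≤ h' * h + h' * h := this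
      _ = 2 * h * h' := by ring
  refine ⟨p' * p + q' * r, p' * q + q' * w, r' * p + w' * r, r' * q + w' * w,
    key _ _ _ _ hp' hq' hp hr, key _ _ _ _ hp' hq' hq hw, key _ _ _ _ hr' hw' hp hr,
    key _ _ _ _ hr' hw' hq hw, ?_, ?_, ?_⟩
  · have : (p' * p + q' * r) * (r' * q + w' * w) - (p' * q + q' * w) * (r' * p + w' * r) =
        (p' * w' - q' * r') * (p * w - q * r) := by ring
    rw [this]
    exact mul_ne_zero hd' hd
  · have : (((r' * p + w' * r : ℤ) : ℝ)) * s + ((r' * q + w' * w : ℤ) : ℝ) =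
        ((r : ℝ) * s + w) * ((r' : ℝ) * t + w') := by
      push_cast
      linear_combination (-(r' : ℝ)) * he
    rw [this]
    exact mul_ne_zero hn hn'
  · push_cast
    linear_combination ((r : ℝ) * s + w) * he' + ((p' : ℝ) - u * r') * he

private lemma mob_inv (h : ℤ) (s t : ℝ) (h1 : Mob h s t) : Mob h t s := by
  obtain ⟨p, q, r, w, hp, hq, hr, hw, hd, hn, he⟩ := h1
  refine ⟨w, -q, -r, p, hw, negb hq, negb hr, hp, ?_, ?_, ?_⟩
  · have : w * p - (-q) * (-r) = p * w - q * r := by ring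
    rw [this]
    exact hd
  · intro hz
    have h0 : ((p : ℝ) * w - q * r) = 0 := by
      have e1 : ((r : ℝ) * s + w) * (((-r : ℤ) : ℝ) * t + p) = (p : ℝ) * w - q * r := by
        push_cast
        linear_combination (-(r : ℝ)) * he
      rw [hz, mul_zero] at e1
      exact e1.symm
    apply hd
    exact_mod_cast h0
  · push_cast
    linear_combination -he

private lemma mob_root (h B : ℤ) (s t : ℝ) (h1 : Mob h s t) (h2 : QRoot B s) :
    QRoot (6 * B * h ^ 2) t := by
  obtain ⟨p, q, r, w, hp, hq, hr, hw, hd, hn, he⟩ := h1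
  obtain ⟨a, b, c, h0, ha, hb, hc, hz⟩ := h2
  have hh : 0 ≤ h := hnn hp
  have hB : 0 ≤ B := hnn ha
  have hBh : 0 ≤ B * h ^ 2 := by positivity
  refine ⟨a * w ^ 2 - b * w * r + c * r ^ 2,
    -2 * a * w * q + b * (w * p + q * r) - 2 * c * p * r,
    a * q ^ 2 - b * q * p + c * p ^ 2, ?_, ?_, ?_, ?_, ?_⟩
  · by_contra hcon
    push Not at hcon
    obtain ⟨e1, e2, e3⟩ := hcon
    -- the form evaluated
    have hdet : (p * w - q * r) ≠ 0 := hd
    have ea : (p * w - q * r) ^ 2 * a = 0 := by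
      linear_combination p ^ 2 * e1 + p * r * e2 + r ^ 2 * e3
    have ec : (p * w - q * r) ^ 2 * c = 0 := by
      linear_combination q ^ 2 * e1 + q * w * e2 + w ^ 2 * e3
    have eb : (p * w - q * r) ^ 2 * b = 0 := by
      linear_combination 2 * p * q * e1 + (p * w + q * r) * e2 + 2 * r * w * e3
    have hd2 : (p * w - q * r) ^ 2 ≠ 0 := pow_ne_zero 2 hdet
    rcases h0 with h0 | h0 | h0
    · exact h0 ((mul_eq_zero.mp ea).resolve_left hd2)
    · exact h0 ((mul_eq_zero.mp eb).resolve_left hd2)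
    · exact h0 ((mul_eq_zero.mp ec).resolve_left hd2)
  · have t1 := mulb ha (mulb hw hw)
    have t2 := mulb hb (mulb hw hr)
    have t3 := mulb hc (mulb hr hr)
    have := addb (addb t1 (negb t2)) t3
    have e : a * w ^ 2 - b * w * r + c * r ^ 2 = a * (w * w) + -(b * (w * r)) + c * (r * r) := by
      ring
    rw [e]
    refine this.trans ?_
    nlinarith
  · have t1 := mulb ha (mulb hw hq)
    have t2 := mulb hb (mulb hw hp)
    have t3 := mulb hb (mulb hq hr)
    have t4 := mulb hc (mulb hp hr)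
    have := addb (addb (addb (negb (addb t1 t1)) t2) t3) (negb (addb t4 t4))
    have e : -2 * a * w * q + b * (w * p + q * r) - 2 * c * p * r =
        -(a * (w * q) + a * (w * q)) + b * (w * p) + b * (q * r) +
          -(c * (p * r) + c * (p * r)) := by
      ring
    rw [e]
    refine this.trans ?_
    nlinarith
  · have t1 := mulb ha (mulb hq hq)
    have t2 := mulb hb (mulb hq hp)
    have t3 := mulb hc (mulb hp hp)
    have := addb (addb t1 (negb t2)) t3
    have e : a * q ^ 2 - b * q * p + c * p ^ 2 = a * (q * q) + -(b * (q * p)) + c * (p * p) := by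
      ring
    rw [e]
    refine this.trans ?_
    nlinarith
  · push_cast
    have hn2 : ((r : ℝ) * s + w) ^ 2 ≠ 0 := pow_ne_zero 2 hn
    have hfin : ((r : ℝ) * s + w) ^ 2 *
        (((a : ℝ) * w ^ 2 - b * w * r + c * r ^ 2) * t ^ 2 +
        (-2 * a * w * q + b * (w * p + q * r) - 2 * c * p * r) * t +
        (a * q ^ 2 - b * q * p + c * p ^ 2)) = 0 := by
      have hT : ((r : ℝ) * s + w) ^ 2 *
        (((a : ℝ) * w ^ 2 - b * w * r + c * r ^ 2) * t ^ 2 +
        (-2 * a * w * q + b * (w * p + q * r) - 2 * c * p * r) * t +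
        (a * q ^ 2 - b * q * p + c * p ^ 2)) =
        ((a : ℝ) * w ^ 2 - b * w * r + c * r ^ 2) * (t * ((r : ℝ) * s + w)) ^ 2 +
        (-2 * a * w * q + b * (w * p + q * r) - 2 * c * p * r) * (t * ((r : ℝ) * s + w)) *
          ((r : ℝ) * s + w) +
        (a * q ^ 2 - b * q * p + c * p ^ 2) * ((r : ℝ) * s + w) ^ 2 := by ring
      rw [hT, he]
      linear_combination ((p : ℝ) * w - q * r) ^ 2 * hz
    exact (mul_eq_zero.mp hfin).resolve_left hn2

theorem MO1_holds : S_MO1 := ⟨mob_comp, mob_inv, mob_root⟩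

end H612BB
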