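import Pool.Agent.H612.BB.Stubs

namespace H612BB

open Vis124 Pool.Agent.NPC

/-- lexicographic order -/
def oriLe (p q : ℝ × ℝ) : Prop := p.1 < q.1 ∨ (p.1 = q.1 ∧ p.2 ≤ q.2)

/-- lexicographic minimum of a compact set in the plane -/
theorem ori_lexmin {P : Set (ℝ × ℝ)} (hP : IsCompact P) (hne : P.Nonempty) :
    ∃ p ∈ P, ∀ q ∈ P, oriLe p q := by
  obtain ⟨a, ha, hmin⟩ := hP.exists_isMinOn hne (continuous_fst.continuousOn)
  have hc : IsCompact (P ∩ {q : ℝ × ℝ | q.1 = a.1}) :=
    hP.inter_right (isClosed_eq continuous_fst continuous_const)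
  obtain ⟨b, hb, hmin2⟩ := hc.exists_isMinOn ⟨a, ha, rfl⟩ (continuous_snd.continuousOn)
  refine ⟨b, hb.1, fun q hq => ?_⟩
  have h1 : a.1 ≤ q.1 := hmin hq
  have hb1 : b.1 = a.1 := hb.2
  rcases h1.lt_or_eq with h | h
  · left; rw [hb1]; exact h
  · right
    exact ⟨by rw [hb1]; exact h, hmin2 ⟨hq, h.symm⟩⟩

/-- an edge is lexicographically above one of its ends -/
theorem ori_edge {n : ℕ} (v : Fin n → ℝ × ℝ) (k m : Fin n) (hm : ∀ j, oriLe (v m) (v j))
    {p : ℝ × ℝ} (hp : p ∈ edge v k) : oriLe (v m) p := by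
  rw [edge_eq] at hp
  obtain ⟨a, ha0, ha1, rfl⟩ := hp
  have h1 := hm k
  have h2 := hm (sc k)
  unfold oriLe at *
  simp only [wd, Prod.fst_add, Prod.snd_add, Prod.smul_fst, Prod.smul_snd, Prod.fst_sub,
    Prod.snd_sub, smul_eq_mul]
  rcases h1 with h1 | ⟨h1, h1'⟩
  · rcases h2 with h2 | ⟨h2, h2'⟩
    · left
      rcases ha0.lt_or_eq with ha | ha
      · nlinarith [mul_pos ha (sub_pos.2 h2), mul_nonneg (sub_nonneg.2 ha1) (sub_nonneg.2 h1.le)]
      · subst ha; linarith
    · rcases ha1.lt_or_eq with ha | ha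
      · left; nlinarith
      · right
        subst ha
        constructor <;> linarith
  · rcases h2 with h2 | ⟨h2, h2'⟩
    · rcases ha0.lt_or_eq with ha | ha
      · left; nlinarith
      · right
        subst ha
        constructor <;> linarith
    · right
      constructor
      · rw [← h1, ← h2]; ring
      · nlinarith

theorem ORI_holds : S_ORI := by
  intro n v P σ h hs m hm
  have hm' : ∀ j, oriLe (v m) (v j) := hm
  -- all points of P are lexicographically above v m
  have hP : ∀ q ∈ P, oriLe (v m) q := by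
    have hne : P.Nonempty := ⟨v m, curve_subset h (Set.mem_iUnion.2 ⟨m, vertex_mem_edge m⟩)⟩
    obtain ⟨p, hp, hmin⟩ := ori_lexmin h.compact hne
    have hfr : p ∈ frontier P := by
      rw [frontier, (isClosed_P h).closure_eq]
      refine ⟨hp, fun hint => ?_⟩
      obtain ⟨δ, hδ, hball⟩ := Metric.isOpen_iff.1 isOpen_interior p hint
      have hq : p + (-(δ / 2), 0) ∈ P := interior_subset (hball (by
        rw [Metric.mem_ball, dist_eq_norm, add_sub_cancel_left, Prod.norm_def]
        simp only [norm_zero, norm_neg]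
        rw [Real.norm_of_nonneg (by positivity : (0:ℝ) ≤ δ / 2)]
        exact max_lt (by linarith) hδ))
      have := hmin _ hq
      unfold oriLe at this
      simp only [Prod.fst_add, Prod.snd_add] at this
      rcases this with h1 | ⟨h1, -⟩ <;> linarith
    rw [h.boundary] at hfr
    obtain ⟨k, hk⟩ := Set.mem_iUnion.1 hfr
    have h1 := ori_edge v k m hm' hk
    intro q hq
    have h2 := hmin q hq
    unfold oriLe at *
    rcases h1 with h1 | ⟨h1, h1'⟩ <;> rcases h2 with h2 | ⟨h2, h2'⟩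
    · left; linarith
    · left; linarith
    · left; linarith
    · right; constructor <;> linarith
  by_contra hcon
  push Not at hcon
  have hσ : σ ^ 2 = 1 := by rcases hs.sig with h1 | h1 <;> rw [h1] <;> norm_num
  set w := wd v m with hw
  set u := ud v m with hu
  have hwl : oriLe 0 w := by
    have := hm' (sc m)
    unfold oriLe at *
    simp only [hw, wd, Prod.fst_zero, Prod.snd_zero, Prod.fst_sub, Prod.snd_sub]
    rcases this with h1 | ⟨h1, h2⟩
    · left; linarith
    · right; constructor <;> linarith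
  have hul : oriLe 0 u := by
    have := hm' (pd m)
    unfold oriLe at *
    simp only [hu, ud, Prod.fst_zero, Prod.snd_zero, Prod.fst_sub, Prod.snd_sub]
    rcases this with h1 | ⟨h1, h2⟩
    · left; linarith
    · right; constructor <;> linarith
  have hw0 : w ≠ 0 := wd_ne h m
  have hu0 : u ≠ 0 := ud_ne h m
  have hws : 0 < w.1 ∨ (w.1 = 0 ∧ 0 < w.2) := by
    rcases hwl with h1 | ⟨h1, h2⟩
    · left; exact h1
    · right
      refine ⟨h1.symm, lt_of_le_of_ne h2 fun h3 => hw0 (Prod.ext h1.symm h3.symm)⟩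
  have hus : 0 < u.1 ∨ (u.1 = 0 ∧ 0 < u.2) := by
    rcases hul with h1 | ⟨h1, h2⟩
    · left; exact h1
    · right
      refine ⟨h1.symm, lt_of_le_of_ne h2 fun h3 => hu0 (Prod.ext h1.symm h3.symm)⟩
  -- the cross product is not zero
  have hcr : cr w u ≠ 0 := by
    intro h0
    obtain ⟨c, hc⟩ := parallel hw0 h0
    rcases lt_trichotomy c 0 with h1 | h1 | h1
    · rw [hc] at hus
      simp only [Prod.smul_fst, Prod.smul_snd, smul_eq_mul] at hus
      rcases hws with h2 | ⟨h2, h3⟩ <;> rcases hus with h4 | ⟨h4, h5⟩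
      · nlinarith
      · nlinarith
      · rw [h2] at h4; simp at h4
      · nlinarith
    · rw [h1, zero_smul] at hc; exact hu0 hc
    · exact not_same_dir h m c h1 hc
  have hneg : σ * cr w u < 0 := lt_of_le_of_ne hcon (by
    intro h0
    rcases mul_eq_zero.1 h0 with h1 | h1
    · rw [h1] at hσ; norm_num at hσ
    · exact hcr h1)
  have hz : (-(w + u)) ∈ Sec σ w u := by
    refine Or.inr ⟨hneg.le, Or.inl ?_⟩
    have : cr w (-(w + u)) = - cr w u := by
      simp only [cr, Prod.fst_neg, Prod.snd_neg, Prod.fst_add, Prod.snd_add]; ring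
    rw [this]
    linarith
  obtain ⟨δ, hδ, hQ⟩ := vertex_ev (hs.int m) hz
  have h1 := hP _ (interior_subset (hQ (δ / 2) (by positivity) (by linarith)))
  unfold oriLe at h1
  simp only [Prod.fst_add, Prod.snd_add, Prod.smul_fst, Prod.smul_snd, smul_eq_mul, Prod.fst_neg,
    Prod.snd_neg] at h1
  have hδ2 : 0 < δ / 2 := by positivity
  rcases hws with h2 | ⟨h2, h3⟩ <;> rcases hus with h4 | ⟨h4, h5⟩
  · rcases h1 with h1 | ⟨h1, -⟩ <;> nlinarith [mul_pos hδ2 h2, mul_pos hδ2 h4]
  · rcases h1 with h1 | ⟨h1, -⟩ <;> nlinarith [mul_pos hδ2 h2]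
  · rcases h1 with h1 | ⟨h1, -⟩ <;> nlinarith [mul_pos hδ2 h4]
  · rcases h1 with h1 | ⟨-, h1⟩
    · rw [h2, h4] at h1; simp at h1
    · nlinarith [mul_pos hδ2 h3, mul_pos hδ2 h5]

end H612BB
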