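import Pool.Agent.H612.BB.T_PO1

/-!
# Scaling and the test of simplicity are polynomial-time computable
-/

namespace H612BB

open Vis124 Pool.Agent.NPC

section

variable {α : Type} [TEnc α]

theorem po_numden {q : α → ℚ} (hq : Pool.Agent.NPC.Poly q) :
    Pool.Agent.NPC.Poly (fun a => ((q a).num, (q a).den)) := hq

theorem po_num {q : α → ℚ} (hq : Pool.Agent.NPC.Poly q) :
    Pool.Agent.NPC.Poly (fun a => (q a).num) := Pool.Agent.NPC.Poly.fst (po_numden hq)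

theorem po_den {q : α → ℚ} (hq : Pool.Agent.NPC.Poly q) :
    Pool.Agent.NPC.Poly (fun a => (q a).den) := Pool.Agent.NPC.Poly.snd (po_numden hq)

theorem po_scaleB : Pool.Agent.NPC.Poly (fun a : ℕ × List (ℚ × ℚ) => scaleB a.1 a.2) := by
  have h0 : Pool.Agent.NPC.Poly (fun _ : ℕ × List (ℚ × ℚ) => 0) := Pool.Agent.NPC.Poly.const _
  have h0' : Pool.Agent.NPC.Poly (fun _ : (ℕ × List (ℚ × ℚ)) × (ℚ × ℚ) => 0) :=
    Pool.Agent.NPC.Poly.const _
  have hM : Pool.Agent.NPC.Poly (fun a : ℕ × List (ℚ × ℚ) => a.1) :=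
    Pool.Agent.NPC.Poly.fst Pool.Agent.NPC.Poly.id
  have hl : Pool.Agent.NPC.Poly (fun a : ℕ × List (ℚ × ℚ) => a.2) :=
    Pool.Agent.NPC.Poly.snd Pool.Agent.NPC.Poly.id
  have hM' : Pool.Agent.NPC.Poly (fun a : (ℕ × List (ℚ × ℚ)) × (ℚ × ℚ) => a.1.1) :=
    hM.comp (Pool.Agent.NPC.Poly.fst Pool.Agent.NPC.Poly.id)
  have hq : Pool.Agent.NPC.Poly (fun a : (ℕ × List (ℚ × ℚ)) × (ℚ × ℚ) => a.2) :=
    Pool.Agent.NPC.Poly.snd Pool.Agent.NPC.Poly.id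
  have hd1 := po_den (Pool.Agent.NPC.Poly.fst hq)
  have hd2 := po_den (Pool.Agent.NPC.Poly.snd hq)
  exact (Pool.Agent.NPC.Poly.decide_lt h0 hM).and (Pool.Agent.NPC.Poly.all
    (p := fun a q => decide (a.1 % q.1.den = 0) && decide (a.1 % q.2.den = 0)) hl
    ((Pool.Agent.NPC.Poly.decide_eq (Pool.Agent.NPC.Poly.mod hM' hd1) h0').and
      (Pool.Agent.NPC.Poly.decide_eq (Pool.Agent.NPC.Poly.mod hM' hd2) h0')))

theorem po_intPts : Pool.Agent.NPC.Poly (fun a : ℕ × List (ℚ × ℚ) => intPts a.1 a.2) := by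
  have hM : Pool.Agent.NPC.Poly (fun a : ℕ × List (ℚ × ℚ) => a.1) :=
    Pool.Agent.NPC.Poly.fst Pool.Agent.NPC.Poly.id
  have hl : Pool.Agent.NPC.Poly (fun a : ℕ × List (ℚ × ℚ) => a.2) :=
    Pool.Agent.NPC.Poly.snd Pool.Agent.NPC.Poly.id
  have hM' : Pool.Agent.NPC.Poly (fun a : (ℕ × List (ℚ × ℚ)) × (ℚ × ℚ) => a.1.1) :=
    hM.comp (Pool.Agent.NPC.Poly.fst Pool.Agent.NPC.Poly.id)
  have hq : Pool.Agent.NPC.Poly (fun a : (ℕ × List (ℚ × ℚ)) × (ℚ × ℚ) => a.2) :=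
    Pool.Agent.NPC.Poly.snd Pool.Agent.NPC.Poly.id
  have hq1 := Pool.Agent.NPC.Poly.fst hq
  have hq2 := Pool.Agent.NPC.Poly.snd hq
  exact Pool.Agent.NPC.Poly.map (F := fun (a : ℕ × List (ℚ × ℚ)) (q : ℚ × ℚ) =>
      (q.1.num * (((a.1 / q.1.den : ℕ)) : ℤ), q.2.num * (((a.1 / q.2.den : ℕ)) : ℤ))) hl
    (Pool.Agent.NPC.Poly.pair
      (Pool.Agent.NPC.Poly.imul (po_num hq1)
        (Pool.Agent.NPC.Poly.natCast (Pool.Agent.NPC.Poly.div hM' (po_den hq1))))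
      (Pool.Agent.NPC.Poly.imul (po_num hq2)
        (Pool.Agent.NPC.Poly.natCast (Pool.Agent.NPC.Poly.div hM' (po_den hq2)))))

theorem po_offB {x y z : α → ℤ × ℤ} (hx : Pool.Agent.NPC.Poly x) (hy : Pool.Agent.NPC.Poly y)
    (hz : Pool.Agent.NPC.Poly z) :
    Pool.Agent.NPC.Poly (fun a => offB (x a) (y a) (z a)) := by
  have h0 : Pool.Agent.NPC.Poly (fun _ : α => (0 : ℤ)) := Pool.Agent.NPC.Poly.const _
  have g1 := po_crz (po_psub hy hx) (po_psub hz hx)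
  have g2 := po_dtz (po_psub hx hz) (po_psub hy hz)
  exact ((((Pool.Agent.NPC.Poly.decide_eq g1 h0).and (Pool.Agent.NPC.Poly.ile g2 h0)).not.or
    (Pool.Agent.NPC.Poly.decide_eq hz hx)).or (Pool.Agent.NPC.Poly.decide_eq hz hy)).congr
    fun a => by unfold offB; congr

theorem po_segB {x y z t : α → ℤ × ℤ} (hx : Pool.Agent.NPC.Poly x) (hy : Pool.Agent.NPC.Poly y)
    (hz : Pool.Agent.NPC.Poly z) (ht : Pool.Agent.NPC.Poly t) :
    Pool.Agent.NPC.Poly (fun a => segB (x a) (y a) (z a) (t a)) := by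
  have h0 : Pool.Agent.NPC.Poly (fun _ : α => (0 : ℤ)) := Pool.Agent.NPC.Poly.const _
  have s1 := po_sign (po_crz (po_psub hy hx) (po_psub hz hx))
  have s2 := po_sign (po_crz (po_psub hy hx) (po_psub ht hx))
  have s3 := po_sign (po_crz (po_psub ht hz) (po_psub hx hz))
  have s4 := po_sign (po_crz (po_psub ht hz) (po_psub hy hz))
  have g1 := Pool.Agent.NPC.Poly.ilt (Pool.Agent.NPC.Poly.imul s1 s2) h0
  have g2 := Pool.Agent.NPC.Poly.ilt (Pool.Agent.NPC.Poly.imul s3 s4) h0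
  have e1 := (Pool.Agent.NPC.Poly.decide_eq hx hz).and (Pool.Agent.NPC.Poly.decide_eq hy ht)
  have e2 := (Pool.Agent.NPC.Poly.decide_eq hx ht).and (Pool.Agent.NPC.Poly.decide_eq hy hz)
  exact (((((((g1.and g2).not.and (po_offB hx hy hz)).and (po_offB hx hy ht)).and
    (po_offB hz ht hx)).and (po_offB hz ht hy)).and e1.not).and e2.not).congr
    fun a => by unfold segB; congr

theorem po_simpB : Pool.Agent.NPC.Poly simpB := by
  have hid : Pool.Agent.NPC.Poly (fun L : List (ℤ × ℤ) => L) := Pool.Agent.NPC.Poly.id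
  have hr : Pool.Agent.NPC.Poly (fun L : List (ℤ × ℤ) => List.range L.length) :=
    Pool.Agent.NPC.Poly.range_length hid
  have h3 : Pool.Agent.NPC.Poly (fun _ : List (ℤ × ℤ) => 3) := Pool.Agent.NPC.Poly.const _
  have hp : Pool.Agent.NPC.Poly (fun p : List (ℤ × ℤ) × ℕ => p.1) :=
    Pool.Agent.NPC.Poly.fst Pool.Agent.NPC.Poly.id
  have hL : Pool.Agent.NPC.Poly (fun p : (List (ℤ × ℤ) × ℕ) × ℕ => p.1.1) :=
    Pool.Agent.NPC.Poly.fst (Pool.Agent.NPC.Poly.fst Pool.Agent.NPC.Poly.id)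
  have hi : Pool.Agent.NPC.Poly (fun p : (List (ℤ × ℤ) × ℕ) × ℕ => p.1.2) :=
    Pool.Agent.NPC.Poly.snd (Pool.Agent.NPC.Poly.fst Pool.Agent.NPC.Poly.id)
  have hj : Pool.Agent.NPC.Poly (fun p : (List (ℤ × ℤ) × ℕ) × ℕ => p.2) :=
    Pool.Agent.NPC.Poly.snd Pool.Agent.NPC.Poly.id
  have hi1 := Pool.Agent.NPC.Poly.succ hi
  have hj1 := Pool.Agent.NPC.Poly.succ hj
  have body : Pool.Agent.NPC.Poly (fun p : (List (ℤ × ℤ) × ℕ) × ℕ =>
      decide (p.1.2 = p.2) || (!(decide (pn p.1.1 p.1.2 = pn p.1.1 p.2)) &&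
        segB (pn p.1.1 p.1.2) (pn p.1.1 (p.1.2 + 1)) (pn p.1.1 p.2) (pn p.1.1 (p.2 + 1)))) := by
    refine ((Pool.Agent.NPC.Poly.decide_eq hi hj).or
      ((Pool.Agent.NPC.Poly.decide_eq (po_pn hL hi) (po_pn hL hj)).not.and
        (po_segB (po_pn hL hi) (po_pn hL hi1) (po_pn hL hj) (po_pn hL hj1)))).congr fun a => ?_
    congr
  have inner : Pool.Agent.NPC.Poly (fun p : List (ℤ × ℤ) × ℕ => (List.range p.1.length).all
      fun j => decide (p.2 = j) || (!(decide (pn p.1 p.2 = pn p.1 j)) &&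
        segB (pn p.1 p.2) (pn p.1 (p.2 + 1)) (pn p.1 j) (pn p.1 (j + 1)))) :=
    Pool.Agent.NPC.Poly.all (p := fun (p : List (ℤ × ℤ) × ℕ) j =>
      decide (p.2 = j) || (!(decide (pn p.1 p.2 = pn p.1 j)) &&
        segB (pn p.1 p.2) (pn p.1 (p.2 + 1)) (pn p.1 j) (pn p.1 (j + 1)))) (hr.comp hp) body
  exact (Pool.Agent.NPC.Poly.decide_le h3 (Pool.Agent.NPC.Poly.length hid)).and
    (Pool.Agent.NPC.Poly.all (p := fun (L : List (ℤ × ℤ)) i => (List.range L.length).all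
      fun j => decide (i = j) || (!(decide (pn L i = pn L j)) &&
        segB (pn L i) (pn L (i + 1)) (pn L j) (pn L (j + 1)))) hr inner)

end

theorem PO2_holds : S_PO2 := ⟨po_scaleB, po_intPts, po_simpB⟩

end H612BB
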