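import Pool.Agent.H612.BB.T_PO1

/-!
# The test of the chains is polynomial-time computable
-/

namespace H612BB

open Vis124 Pool.Agent.NPC

section

variable {α : Type} [TEnc α]

theorem po_okN {c : α → Num} (hc : Pool.Agent.NPC.Poly c) :
    Pool.Agent.NPC.Poly (fun a => okN (c a)) := by
  have h0 : Pool.Agent.NPC.Poly (fun _ : α => (0 : ℤ)) := Pool.Agent.NPC.Poly.const _
  have c1 : Pool.Agent.NPC.Poly (fun _ : α => ((0, 1, 0, 0) : Form)) :=
    Pool.Agent.NPC.Poly.const _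
  have c2 : Pool.Agent.NPC.Poly (fun _ : α => ((0, -1, 0, 1) : Form)) :=
    Pool.Agent.NPC.Poly.const _
  have hr := Pool.Agent.NPC.Poly.snd (Pool.Agent.NPC.Poly.snd hc)
  refine (((Pool.Agent.NPC.Poly.decide_eq hr h0).not.and
    (Pool.Agent.NPC.Poly.ile h0 (po_fsg hc hc c1))).and
    (Pool.Agent.NPC.Poly.ile h0 (po_fsg hc hc c2))).congr fun a => ?_
  unfold okN
  congr 2
  simp

theorem po_linkB {L : α → List (ℤ × ℤ)} {σ : α → ℤ} {Gs : α → List Gd} {f : α → ℕ}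
    {t : α → Lk} (hL : Pool.Agent.NPC.Poly L) (hσ : Pool.Agent.NPC.Poly σ)
    (hG : Pool.Agent.NPC.Poly Gs) (hf : Pool.Agent.NPC.Poly f) (ht : Pool.Agent.NPC.Poly t) :
    Pool.Agent.NPC.Poly (fun a => linkB (L a) (σ a) (Gs a) (f a) (t a)) := by
  have t1 := Pool.Agent.NPC.Poly.fst ht
  have t2 := Pool.Agent.NPC.Poly.fst (Pool.Agent.NPC.Poly.snd ht)
  have t3 := Pool.Agent.NPC.Poly.snd (Pool.Agent.NPC.Poly.snd ht)
  have hd : Pool.Agent.NPC.Poly (fun _ : α => ((0, 0, 0, 0) : Gd)) :=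
    Pool.Agent.NPC.Poly.const _
  have hg : Pool.Agent.NPC.Poly (fun a => (Gs a).getD (t a).1 (0, 0, 0, 0)) :=
    Pool.Agent.NPC.Poly.getD hG t1 hd
  have hg1 := Pool.Agent.NPC.Poly.fst hg
  have hg2 := Pool.Agent.NPC.Poly.snd hg
  exact (((((Pool.Agent.NPC.Poly.decide_lt t1 (Pool.Agent.NPC.Poly.length hG)).and
    (po_okN t2)).and (po_okN t3)).and (po_visB hg2 t2 hL hσ hg1 hf)).and
    (po_visB hg2 t3 hL hσ hg1 hf)).congr fun a => rfl

theorem po_getLast {C : α → List Lk} (hC : Pool.Agent.NPC.Poly C) :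
    Pool.Agent.NPC.Poly (fun a => (C a).getLast?) :=
  (Pool.Agent.NPC.Poly.head? (Pool.Agent.NPC.Poly.reverse hC)).congr fun a => by
    rw [List.head?_reverse]

theorem po_chainB {L : α → List (ℤ × ℤ)} {σ : α → ℤ} {Gs : α → List Gd} {f : α → ℕ}
    {C : α → List Lk} (hL : Pool.Agent.NPC.Poly L) (hσ : Pool.Agent.NPC.Poly σ)
    (hG : Pool.Agent.NPC.Poly Gs) (hf : Pool.Agent.NPC.Poly f) (hC : Pool.Agent.NPC.Poly C) :
    Pool.Agent.NPC.Poly (fun a => chainB (L a) (σ a) (Gs a) (f a) (C a)) := by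
  have hp : Pool.Agent.NPC.Poly (fun p : α × Lk => p.1) :=
    Pool.Agent.NPC.Poly.fst Pool.Agent.NPC.Poly.id
  have hq : Pool.Agent.NPC.Poly (fun p : α × Lk => p.2) :=
    Pool.Agent.NPC.Poly.snd Pool.Agent.NPC.Poly.id
  have c1 : Pool.Agent.NPC.Poly (fun _ : α => (some (0, 0, 1) : Option Num)) :=
    Pool.Agent.NPC.Poly.const _
  have c2 : Pool.Agent.NPC.Poly (fun _ : α => (some (1, 0, 1) : Option Num)) :=
    Pool.Agent.NPC.Poly.const _
  have g1 : Pool.Agent.NPC.Poly (fun a => ((C a).head?).map (fun t => t.2.1)) :=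
    Pool.Agent.NPC.Poly.optMap_fp (h := fun _ t => t.2.1) (Pool.Agent.NPC.Poly.head? hC)
      (Pool.Agent.NPC.Poly.fst (Pool.Agent.NPC.Poly.snd hq))
  have g2 : Pool.Agent.NPC.Poly (fun a => ((C a).getLast?).map (fun t => t.2.2)) :=
    Pool.Agent.NPC.Poly.optMap_fp (h := fun _ t => t.2.2) (po_getLast hC)
      (Pool.Agent.NPC.Poly.snd (Pool.Agent.NPC.Poly.snd hq))
  have hz : Pool.Agent.NPC.Poly (fun a => (C a).zip (C a).tail) :=
    Pool.Agent.NPC.Poly.zip hC (Pool.Agent.NPC.Poly.tail hC)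
  have hw : Pool.Agent.NPC.Poly (fun p : α × (Lk × Lk) => p.2) :=
    Pool.Agent.NPC.Poly.snd Pool.Agent.NPC.Poly.id
  have g3 : Pool.Agent.NPC.Poly (fun a => ((C a).zip (C a).tail).all
      (fun p => decide (p.1.2.2 = p.2.2.1))) :=
    Pool.Agent.NPC.Poly.all (p := fun _ (p : Lk × Lk) => decide (p.1.2.2 = p.2.2.1)) hz
      ((Pool.Agent.NPC.Poly.decide_eq
        (Pool.Agent.NPC.Poly.snd (Pool.Agent.NPC.Poly.snd (Pool.Agent.NPC.Poly.fst hw)))
        (Pool.Agent.NPC.Poly.fst (Pool.Agent.NPC.Poly.snd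
          (Pool.Agent.NPC.Poly.snd hw)))).congr fun a => by congr)
  have g4 : Pool.Agent.NPC.Poly (fun a => (C a).all
      (fun t => linkB (L a) (σ a) (Gs a) (f a) t)) :=
    Pool.Agent.NPC.Poly.all (p := fun a t => linkB (L a) (σ a) (Gs a) (f a) t) hC
      (po_linkB (hL.comp hp) (hσ.comp hp) (hG.comp hp) (hf.comp hp) hq)
  exact ((((Pool.Agent.NPC.Poly.decide_eq g1 c1).and (Pool.Agent.NPC.Poly.decide_eq g2 c2)).and
    g3).and g4).congr fun a => by unfold chainB; congr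

theorem po_lexB {L : α → List (ℤ × ℤ)} {m : α → ℕ} (hL : Pool.Agent.NPC.Poly L)
    (hm : Pool.Agent.NPC.Poly m) : Pool.Agent.NPC.Poly (fun a => lexB (L a) (m a)) := by
  have hp : Pool.Agent.NPC.Poly (fun p : α × (ℤ × ℤ) => p.1) :=
    Pool.Agent.NPC.Poly.fst Pool.Agent.NPC.Poly.id
  have hq : Pool.Agent.NPC.Poly (fun p : α × (ℤ × ℤ) => p.2) :=
    Pool.Agent.NPC.Poly.snd Pool.Agent.NPC.Poly.id
  have h1 := po_pn (hL.comp hp) (hm.comp hp)
  have h11 := Pool.Agent.NPC.Poly.fst h1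
  have h12 := Pool.Agent.NPC.Poly.snd h1
  have h21 := Pool.Agent.NPC.Poly.fst hq
  have h22 := Pool.Agent.NPC.Poly.snd hq
  exact (Pool.Agent.NPC.Poly.decide_lt hm (Pool.Agent.NPC.Poly.length hL)).and
    (Pool.Agent.NPC.Poly.all (p := fun a q => decide ((pn (L a) (m a)).1 < q.1) ||
      (decide ((pn (L a) (m a)).1 = q.1) && decide ((pn (L a) (m a)).2 ≤ q.2))) hL
      (((Pool.Agent.NPC.Poly.ilt h11 h21).or ((Pool.Agent.NPC.Poly.decide_eq h11 h21).and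
        (Pool.Agent.NPC.Poly.ile h12 h22))).congr fun a => by congr))

theorem po_oriS {L : α → List (ℤ × ℤ)} {m : α → ℕ} (hL : Pool.Agent.NPC.Poly L)
    (hm : Pool.Agent.NPC.Poly m) : Pool.Agent.NPC.Poly (fun a => oriS (L a) (m a)) := by
  have h1 : Pool.Agent.NPC.Poly (fun _ : α => 1) := Pool.Agent.NPC.Poly.const _
  have hl := Pool.Agent.NPC.Poly.length hL
  exact po_sign (po_crz (po_psub (po_pn hL (Pool.Agent.NPC.Poly.add hm h1)) (po_pn hL hm))
    (po_psub (po_pn hL (Pool.Agent.NPC.Poly.add hm (Pool.Agent.NPC.Poly.sub hl h1)))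
      (po_pn hL hm)))

theorem po_coverB {L : α → List (ℤ × ℤ)} {k m : α → ℕ} {Gs : α → List Gd}
    {Cs : α → List (List Lk)} (hL : Pool.Agent.NPC.Poly L) (hk : Pool.Agent.NPC.Poly k)
    (hm : Pool.Agent.NPC.Poly m) (hG : Pool.Agent.NPC.Poly Gs) (hC : Pool.Agent.NPC.Poly Cs) :
    Pool.Agent.NPC.Poly (fun a => coverB (L a) (k a) (m a) (Gs a) (Cs a)) := by
  have hp : Pool.Agent.NPC.Poly (fun p : α × Gd => p.1) :=
    Pool.Agent.NPC.Poly.fst Pool.Agent.NPC.Poly.id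
  have hq : Pool.Agent.NPC.Poly (fun p : α × Gd => p.2) :=
    Pool.Agent.NPC.Poly.snd Pool.Agent.NPC.Poly.id
  have hp' : Pool.Agent.NPC.Poly (fun p : α × (List Lk × ℕ) => p.1) :=
    Pool.Agent.NPC.Poly.fst Pool.Agent.NPC.Poly.id
  have hq' : Pool.Agent.NPC.Poly (fun p : α × (List Lk × ℕ) => p.2) :=
    Pool.Agent.NPC.Poly.snd Pool.Agent.NPC.Poly.id
  have hlen := Pool.Agent.NPC.Poly.length hL
  have g1 : Pool.Agent.NPC.Poly (fun a => (Gs a).all
      (fun g => decide (g.1 < (L a).length) && okN g.2)) :=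
    Pool.Agent.NPC.Poly.all (p := fun a g => decide (g.1 < (L a).length) && okN g.2) hG
      ((Pool.Agent.NPC.Poly.decide_lt (Pool.Agent.NPC.Poly.fst hq) (hlen.comp hp)).and
        (po_okN (Pool.Agent.NPC.Poly.snd hq)))
  have g2 : Pool.Agent.NPC.Poly (fun a => ((Cs a).zipIdx).all
      (fun q => chainB (L a) (oriS (L a) (m a)) (Gs a) q.2 q.1)) :=
    Pool.Agent.NPC.Poly.all (p := fun a q => chainB (L a) (oriS (L a) (m a)) (Gs a) q.2 q.1)
      (Pool.Agent.NPC.Poly.zipIdx hC)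
      (po_chainB (hL.comp hp') (po_oriS (hL.comp hp') (hm.comp hp')) (hG.comp hp')
        (Pool.Agent.NPC.Poly.snd hq') (Pool.Agent.NPC.Poly.fst hq'))
  exact (((((po_lexB hL hm).and (Pool.Agent.NPC.Poly.decide_eq
    (Pool.Agent.NPC.Poly.length hG) hk)).and (Pool.Agent.NPC.Poly.decide_eq
    (Pool.Agent.NPC.Poly.length hC) hlen)).and g1).and g2).congr fun a => by
      unfold coverB; congr

end

theorem PO3_holds : S_PO3 := by
  unfold S_PO3
  have h1 : Pool.Agent.NPC.Poly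
      (fun a : List (ℤ × ℤ) × ℕ × ℕ × List Gd × List (List Lk) => a.1) := by fun_prop
  have h2 : Pool.Agent.NPC.Poly
      (fun a : List (ℤ × ℤ) × ℕ × ℕ × List Gd × List (List Lk) => a.2.1) := by fun_prop
  have h3 : Pool.Agent.NPC.Poly
      (fun a : List (ℤ × ℤ) × ℕ × ℕ × List Gd × List (List Lk) => a.2.2.1) := by fun_prop
  have h4 : Pool.Agent.NPC.Poly
      (fun a : List (ℤ × ℤ) × ℕ × ℕ × List Gd × List (List Lk) => a.2.2.2.1) := by fun_prop
  have h5 : Pool.Agent.NPC.Poly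
      (fun a : List (ℤ × ℤ) × ℕ × ℕ × List Gd × List (List Lk) => a.2.2.2.2) := by fun_prop
  exact po_coverB h1 h2 h3 h4 h5

end H612BB
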