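import Pool.Agent.H612.BB.Stubs

/-!
# REG: a simple closed polygonal curve bounds a region
-/

namespace H612BB

open Vis124 Pool.Agent.NPC Set

/-- the crossing number of the upward ray from `z`, modulo 2 -/
noncomputable def cnt {n : ℕ} (v : Fin n → ℝ × ℝ) (z : ℝ × ℝ) : ZMod 2 :=
  ∑ i, kap (v i) (v (sc i)) z

theorem zmod2_cases (x : ZMod 2) : x = 0 ∨ x = 1 := by
  fin_cases x
  · left; rfl
  · right; rfl

theorem shift_sum {n : ℕ} (s : Fin n → ZMod 2) : ∑ i, (s i + s (sc i)) = 0 := by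
  rw [Finset.sum_add_distrib]
  have h1 : ∑ i, s (sc i) = ∑ i, s i := Equiv.sum_comp (finRotate n) s
  rw [h1]
  exact CharTwo.add_self_eq_zero _

theorem z2_two : (1 : ZMod 2) + 1 = 0 := rfl

/-- both end points are below `z` -/
theorem kap_of_below {a b z : ℝ × ℝ} (ha : a.2 < z.2) (hb : b.2 < z.2) : kap a b z = 0 := by
  unfold kap cr
  simp only [Prod.fst_sub, Prod.snd_sub]
  by_cases h1 : a.1 ≤ z.1
  · by_cases h2 : b.1 ≤ z.1
    · rw [if_pos h1, if_pos h2, z2_two, zero_mul]
    · rw [if_neg (c := 0 < _), mul_zero]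
      push Not at h2 ⊢
      have e : (b.1 - a.1) * ((b.1 - a.1) * (a.2 - z.2) - (b.2 - a.2) * (a.1 - z.1)) =
        (b.1 - a.1) * (-((z.2 - a.2) * (b.1 - z.1)) - (z.2 - b.2) * (z.1 - a.1)) := by ring
      rw [e]
      have h3 : 0 ≤ (z.2 - a.2) * (b.1 - z.1) := mul_nonneg (by linarith) (by linarith)
      have h4 : 0 ≤ (z.2 - b.2) * (z.1 - a.1) := mul_nonneg (by linarith) (by linarith)
      exact mul_nonpos_of_nonneg_of_nonpos (by linarith) (by linarith)
  · by_cases h2 : b.1 ≤ z.1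
    · rw [if_neg (c := 0 < _), mul_zero]
      push Not at h1 ⊢
      have e : (b.1 - a.1) * ((b.1 - a.1) * (a.2 - z.2) - (b.2 - a.2) * (a.1 - z.1)) =
        (a.1 - b.1) * (-((z.2 - a.2) * (z.1 - b.1)) - (z.2 - b.2) * (a.1 - z.1)) := by ring
      rw [e]
      have h3 : 0 ≤ (z.2 - a.2) * (z.1 - b.1) := mul_nonneg (by linarith) (by linarith)
      have h4 : 0 ≤ (z.2 - b.2) * (a.1 - z.1) := mul_nonneg (by linarith) (by linarith)
      exact mul_nonpos_of_nonneg_of_nonpos (by linarith) (by linarith)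
    · rw [if_neg h1, if_neg h2, add_zero, zero_mul]

/-- both end points are above `z` -/
theorem kap_of_above {a b z : ℝ × ℝ} (ha : z.2 < a.2) (hb : z.2 < b.2) :
    kap a b z = (if a.1 ≤ z.1 then 1 else 0) + (if b.1 ≤ z.1 then 1 else 0) := by
  unfold kap cr
  simp only [Prod.fst_sub, Prod.snd_sub]
  by_cases h1 : a.1 ≤ z.1
  · by_cases h2 : b.1 ≤ z.1
    · rw [if_pos h1, if_pos h2, z2_two, zero_mul]
    · rw [if_pos (c := 0 < _), mul_one]
      push Not at h2
      have e : (b.1 - a.1) * ((b.1 - a.1) * (a.2 - z.2) - (b.2 - a.2) * (a.1 - z.1)) =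
        (b.1 - a.1) * (((a.2 - z.2) * (b.1 - z.1)) + (b.2 - z.2) * (z.1 - a.1)) := by ring
      rw [e]
      have h3 : 0 < (a.2 - z.2) * (b.1 - z.1) := mul_pos (by linarith) (by linarith)
      have h4 : 0 ≤ (b.2 - z.2) * (z.1 - a.1) := mul_nonneg (by linarith) (by linarith)
      exact mul_pos (by linarith) (by linarith)
  · by_cases h2 : b.1 ≤ z.1
    · rw [if_pos (c := 0 < _), mul_one]
      push Not at h1
      have e : (b.1 - a.1) * ((b.1 - a.1) * (a.2 - z.2) - (b.2 - a.2) * (a.1 - z.1)) =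
        (a.1 - b.1) * (((a.2 - z.2) * (z.1 - b.1)) + (b.2 - z.2) * (a.1 - z.1)) := by ring
      rw [e]
      have h3 : 0 ≤ (a.2 - z.2) * (z.1 - b.1) := mul_nonneg (by linarith) (by linarith)
      have h4 : 0 < (b.2 - z.2) * (a.1 - z.1) := mul_pos (by linarith) (by linarith)
      exact mul_pos (by linarith) (by linarith)
    · rw [if_neg h1, if_neg h2, add_zero, zero_mul]

variable {n : ℕ} {v : Fin n → ℝ × ℝ}

theorem finite_min {P : Fin n → ℝ → Prop} (h : ∀ i, ∃ δ > 0, P i δ)
    (hm : ∀ i δ δ', 0 < δ' → δ' ≤ δ → P i δ → P i δ') : ∃ δ > 0, ∀ i, P i δ := by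
  choose δ hδ hP using h
  by_cases hn : Nonempty (Fin n)
  · obtain ⟨i0, -, hi0⟩ := Finset.exists_min_image Finset.univ δ Finset.univ_nonempty
    exact ⟨δ i0, hδ i0, fun i => hm i (δ i) (δ i0) (hδ i0) (hi0 i (Finset.mem_univ _)) (hP i)⟩
  · exact ⟨1, one_pos, fun i => (hn ⟨i⟩).elim⟩

/-- the indicator: `a` is exactly above `z0` -/
noncomputable def sab (z0 a : ℝ × ℝ) : ZMod 2 := if a.1 = z0.1 ∧ z0.2 < a.2 then 1 else 0

theorem key_all (hK : S_KEY) {z0 : ℝ × ℝ} {J : Fin n → Prop}
    (hz : ∀ i, J i → z0 ∉ edge v i) : ∃ δ > 0, ∀ i, J i → ∀ z : ℝ × ℝ, ‖z - z0‖ < δ →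
      kap (v i) (v (sc i)) z = kap (v i) (v (sc i)) z0 +
        (if z.1 < z0.1 then sab z0 (v i) + sab z0 (v (sc i)) else 0) := by
  apply finite_min (P := fun i δ => J i → ∀ z : ℝ × ℝ, ‖z - z0‖ < δ →
      kap (v i) (v (sc i)) z = kap (v i) (v (sc i)) z0 +
        (if z.1 < z0.1 then sab z0 (v i) + sab z0 (v (sc i)) else 0))
  · intro i
    by_cases hi : J i
    · obtain ⟨δ, hδ, h⟩ := hK (v i) (v (sc i)) z0 (hz i hi)
      exact ⟨δ, hδ, fun _ => h⟩
    · exact ⟨1, one_pos, fun h => (hi h).elim⟩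
  · intro i δ δ' _ hle h hi z hz
    exact h hi z (lt_of_lt_of_le hz hle)

/-- the crossing number is locally constant off the curve -/
theorem cnt_locally (hK : S_KEY) {z0 : ℝ × ℝ} (hz : z0 ∉ curve v) :
    ∃ δ > 0, ∀ z : ℝ × ℝ, ‖z - z0‖ < δ → cnt v z = cnt v z0 := by
  obtain ⟨δ, hδ, h⟩ := key_all (v := v) hK (z0 := z0) (J := fun _ => True)
    (fun i _ hi => hz (mem_iUnion.2 ⟨i, hi⟩))
  refine ⟨δ, hδ, fun z hz => ?_⟩
  unfold cnt
  rw [Finset.sum_congr rfl (fun i _ => h i trivial z hz), Finset.sum_add_distrib]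
  by_cases hlt : z.1 < z0.1
  · simp only [hlt, if_true]
    rw [shift_sum (fun i => sab z0 (v i)), add_zero]
  · simp [hlt]

theorem isClosed_curve : IsClosed (curve v) := by
  unfold curve
  exact isClosed_iUnion_of_finite (fun i => (isCompact_edge i).isClosed)

theorem isCompact_curve : IsCompact (curve v) := by
  unfold curve
  exact isCompact_iUnion (fun i => isCompact_edge i)

theorem isOpen_level (hK : S_KEY) (c : ZMod 2) : IsOpen {z | z ∉ curve v ∧ cnt v z = c} := by
  rw [Metric.isOpen_iff]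
  rintro z0 ⟨h1, h2⟩
  obtain ⟨δ, hδ, h⟩ := cnt_locally hK h1
  obtain ⟨ε, hε, h3⟩ := Metric.isOpen_iff.1 (isClosed_curve (v := v)).isOpen_compl z0 h1
  refine ⟨min δ ε, lt_min hδ hε, fun z hz => ⟨?_, ?_⟩⟩
  · exact h3 (Metric.ball_subset_ball (min_le_right _ _) hz)
  · rw [← h2]
    apply h z
    rw [← dist_eq_norm]
    exact lt_of_lt_of_le hz (min_le_left _ _)

/-- far points have crossing number 0 -/
theorem cnt_far : ∃ R : ℝ, ∀ z : ℝ × ℝ, R < ‖z‖ → cnt v z = 0 := by
  obtain ⟨R, hR⟩ : ∃ R : ℝ, ∀ i, ‖v i‖ ≤ R := by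
    refine ⟨∑ i, ‖v i‖, fun i => ?_⟩
    exact Finset.single_le_sum (f := fun i => ‖v i‖) (fun i _ => norm_nonneg _) (Finset.mem_univ i)
  have h1 : ∀ i, |(v i).1| ≤ R := fun i => le_trans (norm_fst_le (v i)) (hR i)
  have h2 : ∀ i, |(v i).2| ≤ R := fun i => le_trans (norm_snd_le (v i)) (hR i)
  refine ⟨R, fun z hz => ?_⟩
  rw [Prod.norm_def, lt_max_iff] at hz
  unfold cnt
  rcases hz with hz | hz
  · rw [Real.norm_eq_abs, lt_abs] at hz
    rcases hz with hz | hz
    · apply Finset.sum_eq_zero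
      intro i _
      have e1 : (v i).1 ≤ z.1 := le_trans (le_trans (le_abs_self _) (h1 i)) hz.le
      have e2 : (v (sc i)).1 ≤ z.1 := le_trans (le_trans (le_abs_self _) (h1 (sc i))) hz.le
      unfold kap
      rw [if_pos e1, if_pos e2, z2_two, zero_mul]
    · apply Finset.sum_eq_zero
      intro i _
      have e1 : ¬ (v i).1 ≤ z.1 := by
        have := neg_le_of_abs_le (h1 i); linarith
      have e2 : ¬ (v (sc i)).1 ≤ z.1 := by
        have := neg_le_of_abs_le (h1 (sc i)); linarith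
      unfold kap
      rw [if_neg e1, if_neg e2, add_zero, zero_mul]
  · rw [Real.norm_eq_abs, lt_abs] at hz
    rcases hz with hz | hz
    · apply Finset.sum_eq_zero
      intro i _
      exact kap_of_below (lt_of_le_of_lt (le_trans (le_abs_self _) (h2 i)) hz)
        (lt_of_le_of_lt (le_trans (le_abs_self _) (h2 (sc i))) hz)
    · rw [Finset.sum_congr rfl (fun i _ => kap_of_above (z := z) (a := v i) (b := v (sc i))
        (by have := neg_le_of_abs_le (h2 i); linarith)
        (by have := neg_le_of_abs_le (h2 (sc i)); linarith))]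
      exact shift_sum (fun i => if (v i).1 ≤ z.1 then (1 : ZMod 2) else 0)

section
variable (hS : Simp v)
include hS

theorem wd_ne' (k : Fin n) : wd v k ≠ 0 := by
  intro h0
  exact sc_ne hS.three_le k (hS.injective (sub_eq_zero.1 h0))

/-- a point of an open edge is on no other edge -/
theorem open_edge {i j : Fin n} (hij : j ≠ i) {t : ℝ} (h0 : 0 < t) (h1 : t < 1) :
    v i + t • wd v i ∉ edge v j := by
  intro hj
  have hi : v i + t • wd v i ∈ edge v i := by
    rw [edge_eq]; exact ⟨t, h0.le, h1.le, rfl⟩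
  have h2 := (hS.simple i j (Ne.symm hij) ⟨hi, hj⟩).1
  have hw := wd_ne' hS i
  rcases h2 with h2 | h2
  · have h3 : t • wd v i = 0 := by simpa using h2
    rcases smul_eq_zero.1 h3 with h4 | h4
    · exact h0.ne' h4
    · exact hw h4
  · have h3 : v i + t • (v (sc i) - v i) = v (sc i) := h2
    have h5 : t • (v (sc i) - v i) = v (sc i) - v i := by
      rw [eq_sub_iff_add_eq', h3]
    have h4 : (t - 1) • wd v i = 0 := by
      rw [wd, sub_smul, one_smul, h5, sub_self]
    rcases smul_eq_zero.1 h4 with h5 | h5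
    · linarith
    · exact hw h5

omit hS in
theorem off_others {i : Fin n} {p : ℝ × ℝ} (hp : ∀ j, j ≠ i → p ∉ edge v j) :
    ∃ δ > 0, ∀ j, j ≠ i → ∀ z : ℝ × ℝ, ‖z - p‖ < δ → z ∉ edge v j := by
  apply finite_min (P := fun j δ => j ≠ i → ∀ z : ℝ × ℝ, ‖z - p‖ < δ → z ∉ edge v j)
  · intro j
    by_cases hj : j = i
    · exact ⟨1, one_pos, fun h => (h hj).elim⟩
    · obtain ⟨ε, hε, h⟩ := Metric.isOpen_iff.1 ((isCompact_edge (v := v) j).isClosed).isOpen_compl p
        (hp j hj)
      refine ⟨ε, hε, fun _ z hz => ?_⟩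
      apply h
      rwa [Metric.mem_ball, dist_eq_norm]
  · intro j δ δ' _ hle h hj z hz
    exact h hj z (lt_of_lt_of_le hz hle)

/-- the jump across an edge -/
theorem jump (hK : S_KEY) (i : Fin n) {t : ℝ} (h0 : 0 < t) (h1 : t < 1) :
    ∃ u : ℝ × ℝ, ∃ δ > 0, ‖u‖ = 1 ∧ ∀ d : ℝ, 0 < d → d < δ →
      v i + t • wd v i + d • u ∉ curve v ∧ v i + t • wd v i - d • u ∉ curve v ∧
      cnt v (v i + t • wd v i + d • u) + cnt v (v i + t • wd v i - d • u) = 1 := by
  have hw := wd_ne' hS i
  have hoff : ∀ j, j ≠ i → v i + t • wd v i ∉ edge v j := fun j hj => open_edge hS hj h0 h1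
  set p := v i + t • wd v i with hp
  obtain ⟨δ1, hδ1, hA⟩ := off_others hoff
  obtain ⟨δ2, hδ2, hB⟩ := key_all (v := v) hK (z0 := p) (J := fun j => j ≠ i) hoff
  have hp1 : p.1 = (v i).1 + t * (wd v i).1 := by simp [hp]
  have hp2 : p.2 = (v i).2 + t * (wd v i).2 := by simp [hp]
  have hb1 : (v (sc i)).1 = (v i).1 + (wd v i).1 := by simp [wd]
  have hb2 : (v (sc i)).2 = (v i).2 + (wd v i).2 := by simp [wd]
  have hsplit : ∀ z, cnt v z = kap (v i) (v (sc i)) z +
      ∑ j ∈ Finset.univ.erase i, kap (v j) (v (sc j)) z := by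
    intro z
    unfold cnt
    exact (Finset.add_sum_erase Finset.univ (fun j => kap (v j) (v (sc j)) z)
      (Finset.mem_univ i)).symm
  by_cases hw1 : (wd v i).1 = 0
  · -- vertical edge
    have hw2 : (wd v i).2 ≠ 0 := fun h => hw (Prod.ext hw1 h)
    refine ⟨(1, 0), min δ1 δ2, lt_min hδ1 hδ2, by simp [Prod.norm_def], fun d hd0 hd => ?_⟩
    have hnorm : ‖(p + d • ((1 : ℝ), (0 : ℝ))) - p‖ = d := by
      rw [add_sub_cancel_left, norm_smul]; simp [Prod.norm_def, abs_of_pos hd0]
    have hnorm' : ‖(p - d • ((1 : ℝ), (0 : ℝ))) - p‖ = d := by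
      rw [sub_sub_cancel_left, norm_neg, norm_smul]; simp [Prod.norm_def, abs_of_pos hd0]
    have hi : ∀ e : ℝ, e ≠ 0 → ∀ z : ℝ × ℝ, z.1 = p.1 + e → z.2 = p.2 → z ∉ edge v i := by
      intro e he z hz1 hz2 hz
      rw [edge_eq] at hz
      obtain ⟨s, -, -, hs⟩ := hz
      have h3 := congrArg Prod.fst hs
      simp only [Prod.fst_add, Prod.smul_fst, smul_eq_mul] at h3
      rw [hw1, mul_zero, add_zero, hz1, hp1, hw1, mul_zero, add_zero] at h3
      apply he; linarith
    have hkap : ∀ z, kap (v i) (v (sc i)) z = 0 := by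
      intro z
      unfold kap
      have h3 : (v (sc i)).1 - (v i).1 = 0 := by rw [hb1, hw1]; ring
      rw [h3, zero_mul]; simp
    refine ⟨?_, ?_, ?_⟩
    · intro hc
      obtain ⟨j, hj⟩ := mem_iUnion.1 hc
      by_cases hji : j = i
      · rw [hji] at hj
        exact hi d hd0.ne' _ (by simp) (by simp) hj
      · exact hA j hji _ (by rw [hnorm]; exact lt_of_lt_of_le hd (min_le_left _ _)) hj
    · intro hc
      obtain ⟨j, hj⟩ := mem_iUnion.1 hc
      by_cases hji : j = i
      · rw [hji] at hj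
        exact hi (-d) (neg_ne_zero.2 hd0.ne') _ (by simp; ring) (by simp) hj
      · exact hA j hji _ (by rw [hnorm']; exact lt_of_lt_of_le hd (min_le_left _ _)) hj
    · rw [hsplit, hsplit, hkap, hkap, zero_add, zero_add, ← Finset.sum_add_distrib]
      have h3 : ∀ j ∈ Finset.univ.erase i,
          kap (v j) (v (sc j)) (p + d • ((1 : ℝ), (0 : ℝ))) +
            kap (v j) (v (sc j)) (p - d • ((1 : ℝ), (0 : ℝ))) = sab p (v j) + sab p (v (sc j)) := by
        intro j hj
        have hji := (Finset.mem_erase.1 hj).1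
        have e1 := hB j hji (p + d • ((1 : ℝ), (0 : ℝ)))
          (by rw [hnorm]; exact lt_of_lt_of_le hd (min_le_right _ _))
        have e2 := hB j hji (p - d • ((1 : ℝ), (0 : ℝ)))
          (by rw [hnorm']; exact lt_of_lt_of_le hd (min_le_right _ _))
        rw [if_neg (by simp; exact hd0.le), add_zero] at e1
        rw [if_pos (by simp; exact hd0)] at e2
        rw [e1, e2, ← add_assoc, CharTwo.add_self_eq_zero, zero_add]
      rw [Finset.sum_congr rfl h3]
      have h4 := Finset.add_sum_erase Finset.univ (fun j => sab p (v j) + sab p (v (sc j)))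
        (Finset.mem_univ i)
      rw [shift_sum (fun j => sab p (v j))] at h4
      have h5 : sab p (v i) + sab p (v (sc i)) = 1 := by
        unfold sab
        have e1 : (v i).1 = p.1 := by rw [hp1, hw1]; ring
        have e2 : (v (sc i)).1 = p.1 := by rw [hp1, hb1, hw1]; ring
        rcases lt_or_gt_of_ne hw2 with hlt | hgt
        · rw [if_pos ⟨e1, by rw [hp2]; nlinarith⟩, if_neg, add_zero]
          rintro ⟨-, h6⟩
          rw [hp2, hb2] at h6; nlinarith
        · rw [if_neg, if_pos ⟨e2, by rw [hp2, hb2]; nlinarith⟩, zero_add]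
          rintro ⟨-, h6⟩
          rw [hp2] at h6; nlinarith
      have h6 : (1 : ZMod 2) + ∑ j ∈ Finset.univ.erase i, (sab p (v j) + sab p (v (sc j))) = 0 := by
        rw [← h5]; exact h4
      rcases zmod2_cases (∑ j ∈ Finset.univ.erase i, (sab p (v j) + sab p (v (sc j)))) with h7 | h7
      · rw [h7, add_zero] at h6; exact absurd h6 (by decide)
      · exact h7
  · -- the edge is not vertical
    refine ⟨(0, 1), min δ1 δ2, lt_min hδ1 hδ2, by simp [Prod.norm_def], fun d hd0 hd => ?_⟩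
    have hnorm : ‖(p + d • ((0 : ℝ), (1 : ℝ))) - p‖ = d := by
      rw [add_sub_cancel_left, norm_smul]; simp [Prod.norm_def, abs_of_pos hd0]
    have hnorm' : ‖(p - d • ((0 : ℝ), (1 : ℝ))) - p‖ = d := by
      rw [sub_sub_cancel_left, norm_neg, norm_smul]; simp [Prod.norm_def, abs_of_pos hd0]
    have hi : ∀ e : ℝ, e ≠ 0 → ∀ z : ℝ × ℝ, z.1 = p.1 → z.2 = p.2 + e → z ∉ edge v i := by
      intro e he z hz1 hz2 hz
      rw [edge_eq] at hz
      obtain ⟨s, -, -, hs⟩ := hz
      have h3 := congrArg Prod.fst hs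
      have h4 := congrArg Prod.snd hs
      simp only [Prod.fst_add, Prod.smul_fst, Prod.snd_add, Prod.smul_snd, smul_eq_mul] at h3 h4
      rw [hz1, hp1] at h3
      rw [hz2, hp2] at h4
      have h5 : t * (wd v i).1 = s * (wd v i).1 := by linarith
      have h6 : t = s := mul_right_cancel₀ hw1 h5
      rw [h6] at h4
      apply he; linarith
    have hkap : ∀ z : ℝ × ℝ, ∀ e : ℝ, z.1 = p.1 → z.2 = p.2 + e →
        kap (v i) (v (sc i)) z = if 0 < -e then 1 else 0 := by
      intro z e hz1 hz2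
      unfold kap cr
      have h3 : (v (sc i)).1 - (v i).1 = (wd v i).1 := by rw [hb1]; ring
      simp only [Prod.fst_sub, Prod.snd_sub]
      have h4 : ((v (sc i)).1 - (v i).1) * (((v (sc i)).1 - (v i).1) * ((v i).2 - z.2) -
          ((v (sc i)).2 - (v i).2) * ((v i).1 - z.1)) = (-e) * (wd v i).1 ^ 2 := by
        rw [hz1, hz2, hp1, hp2, hb1, hb2]; ring
      have h5 : (0 < (-e) * (wd v i).1 ^ 2) ↔ 0 < -e := by
        have h6 : 0 < (wd v i).1 ^ 2 := by positivity
        constructor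
        · intro h; exact (mul_pos_iff_of_pos_right h6).1 h
        · intro h; exact mul_pos h h6
      rw [← h4] at h5
      have h7 : ((if (v i).1 ≤ z.1 then (1 : ZMod 2) else 0) +
          (if (v (sc i)).1 ≤ z.1 then 1 else 0)) = 1 := by
        rw [hz1, hp1, hb1]
        rcases lt_or_gt_of_ne hw1 with hlt | hgt
        · rw [if_neg (by nlinarith), if_pos (by nlinarith), zero_add]
        · rw [if_pos (by nlinarith), if_neg (by nlinarith), add_zero]
      rw [h7, one_mul]
      by_cases h8 : 0 < -e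
      · rw [if_pos h8, if_pos (h5.2 h8)]
      · rw [if_neg h8, if_neg (fun h => h8 (h5.1 h))]
    refine ⟨?_, ?_, ?_⟩
    · intro hc
      obtain ⟨j, hj⟩ := mem_iUnion.1 hc
      by_cases hji : j = i
      · rw [hji] at hj
        exact hi d hd0.ne' _ (by simp) (by simp) hj
      · exact hA j hji _ (by rw [hnorm]; exact lt_of_lt_of_le hd (min_le_left _ _)) hj
    · intro hc
      obtain ⟨j, hj⟩ := mem_iUnion.1 hc
      by_cases hji : j = i
      · rw [hji] at hj
        exact hi (-d) (neg_ne_zero.2 hd0.ne') _ (by simp) (by simp; ring) hj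
      · exact hA j hji _ (by rw [hnorm']; exact lt_of_lt_of_le hd (min_le_left _ _)) hj
    · rw [hsplit, hsplit, hkap _ d (by simp) (by simp), hkap _ (-d) (by simp) (by simp; ring),
        if_neg (by linarith), if_pos (by linarith)]
      have h3 : ∑ j ∈ Finset.univ.erase i, kap (v j) (v (sc j)) (p + d • ((0 : ℝ), (1 : ℝ))) =
          ∑ j ∈ Finset.univ.erase i, kap (v j) (v (sc j)) p := by
        apply Finset.sum_congr rfl
        intro j hj
        have hji := (Finset.mem_erase.1 hj).1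
        rw [hB j hji _ (by rw [hnorm]; exact lt_of_lt_of_le hd (min_le_right _ _)),
          if_neg (by simp), add_zero]
      have h4 : ∑ j ∈ Finset.univ.erase i, kap (v j) (v (sc j)) (p - d • ((0 : ℝ), (1 : ℝ))) =
          ∑ j ∈ Finset.univ.erase i, kap (v j) (v (sc j)) p := by
        apply Finset.sum_congr rfl
        intro j hj
        have hji := (Finset.mem_erase.1 hj).1
        rw [hB j hji _ (by rw [hnorm']; exact lt_of_lt_of_le hd (min_le_right _ _)),
          if_neg (by simp), add_zero]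
      rw [h3, h4]
      have h5 := CharTwo.add_self_eq_zero (∑ j ∈ Finset.univ.erase i, kap (v j) (v (sc j)) p)
      linear_combination h5

/-- points of open edges are limits of points off the curve with both values -/
theorem open_mem_closure (hK : S_KEY) (i : Fin n) {t : ℝ} (h0 : 0 < t) (h1 : t < 1) (c : ZMod 2) :
    v i + t • wd v i ∈ closure {z | z ∉ curve v ∧ cnt v z = c} := by
  obtain ⟨u, δ, hδ, hu, h⟩ := jump hS hK i h0 h1
  rw [Metric.mem_closure_iff]
  intro ε hε
  have hd : 0 < min δ ε / 2 := by have := lt_min hδ hε; linarith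
  have hd1 : min δ ε / 2 < δ := by
    have h3 : min δ ε ≤ δ := min_le_left _ _
    linarith
  have hd2 : min δ ε / 2 < ε := by
    have h3 : min δ ε ≤ ε := min_le_right _ _
    linarith
  obtain ⟨h3, h4, h5⟩ := h _ hd hd1
  have hc : cnt v (v i + t • wd v i + (min δ ε / 2) • u) = c ∨
      cnt v (v i + t • wd v i - (min δ ε / 2) • u) = c := by
    rcases zmod2_cases (cnt v (v i + t • wd v i + (min δ ε / 2) • u)) with h6 | h6 <;>
    rcases zmod2_cases (cnt v (v i + t • wd v i - (min δ ε / 2) • u)) with h7 | h7 <;>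
    rcases zmod2_cases c with h8 | h8 <;>
    rw [h6, h7] at h5 <;> rw [h6, h7, h8] <;> revert h5 <;> decide
  rcases hc with hc | hc
  · refine ⟨_, ⟨h3, hc⟩, ?_⟩
    rw [dist_comm, dist_eq_norm, add_sub_cancel_left, norm_smul, hu, mul_one, Real.norm_eq_abs,
      abs_of_pos hd]
    exact hd2
  · refine ⟨_, ⟨h4, hc⟩, ?_⟩
    rw [dist_comm, dist_eq_norm, sub_sub_cancel_left, norm_neg, norm_smul, hu, mul_one,
      Real.norm_eq_abs, abs_of_pos hd]
    exact hd2

theorem curve_mem_closure (hK : S_KEY) (c : ZMod 2) :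
    curve v ⊆ closure {z | z ∉ curve v ∧ cnt v z = c} := by
  intro p hp
  obtain ⟨i, hi⟩ := mem_iUnion.1 hp
  rw [edge_eq] at hi
  obtain ⟨a, ha0, ha1, rfl⟩ := hi
  have h1 : a ∈ closure (Ioo (0 : ℝ) 1) := by
    rw [closure_Ioo (by norm_num)]; exact ⟨ha0, ha1⟩
  have hcont : Continuous (fun t : ℝ => v i + t • wd v i) := by fun_prop
  have h2 : (fun t : ℝ => v i + t • wd v i) a ∈
      closure ((fun t : ℝ => v i + t • wd v i) '' Ioo (0 : ℝ) 1) :=
    image_closure_subset_closure_image hcont (mem_image_of_mem _ h1)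
  have h3 : (fun t : ℝ => v i + t • wd v i) '' Ioo (0 : ℝ) 1 ⊆
      closure {z | z ∉ curve v ∧ cnt v z = c} := by
    rintro _ ⟨t, ht, rfl⟩
    exact open_mem_closure hS hK i ht.1 ht.2 c
  exact closure_minimal h3 isClosed_closure h2

end

/-- the region -/
def reg (v : Fin n → ℝ × ℝ) : Set (ℝ × ℝ) := curve v ∪ {z | z ∉ curve v ∧ cnt v z = 1}

theorem reg_compl : (reg v)ᶜ = {z | z ∉ curve v ∧ cnt v z = 0} := by
  ext z
  simp only [reg, mem_compl_iff, mem_union, mem_ofPred_eq, not_or]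
  constructor
  · rintro ⟨h1, h2⟩
    refine ⟨h1, ?_⟩
    rcases zmod2_cases (cnt v z) with h | h
    · exact h
    · exact absurd ⟨h1, h⟩ h2
  · rintro ⟨h1, h2⟩
    refine ⟨h1, fun h3 => ?_⟩
    rw [h2] at h3
    exact absurd h3.2 (by decide)

theorem REG_holds (hK : S_KEY) : S_REG := by
  intro n v hS
  have hclosed : IsClosed (reg v) := by
    rw [← isOpen_compl_iff, reg_compl]
    exact isOpen_level hK 0
  have hO1 : IsOpen {z | z ∉ curve v ∧ cnt v z = 1} := isOpen_level hK 1
  have hint : {z | z ∉ curve v ∧ cnt v z = 1} ⊆ interior (reg v) :=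
    interior_maximal subset_union_right hO1
  refine ⟨reg v, hS.three_le, hS.injective, hS.simple, ?_, ?_, ?_⟩
  · -- compact
    apply Metric.isCompact_of_isClosed_isBounded hclosed
    apply Bornology.IsBounded.union (isCompact_curve (v := v)).isBounded
    obtain ⟨R, hR⟩ := cnt_far (v := v)
    apply (Metric.isBounded_closedBall (x := (0 : ℝ × ℝ)) (r := R)).subset
    rintro z ⟨-, hz⟩
    rw [mem_closedBall_zero_iff]
    by_contra hc
    push Not at hc
    rw [hR z hc] at hz
    exact absurd hz (by decide)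
  · -- regular
    apply le_antisymm
    · exact closure_minimal interior_subset hclosed
    · apply union_subset
      · exact (curve_mem_closure hS hK 1).trans (closure_mono hint)
      · exact hint.trans subset_closure
  · -- frontier
    rw [frontier, hclosed.closure_eq]
    apply le_antisymm
    · rintro z ⟨h1, h2⟩
      rcases h1 with h1 | h1
      · exact h1
      · exact absurd (hint h1) h2
    · intro z hz
      refine ⟨Or.inl hz, ?_⟩
      have h1 := curve_mem_closure hS hK 0 hz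
      rw [← reg_compl, closure_compl] at h1
      exact h1

end H612BB
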