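import Pool.Agent.H612.BB.Stubs

namespace H612BB

open Vis124 Pool.Agent.NPC

/-- the real point -/
def segF (a : ℤ × ℤ) : ℝ × ℝ := ((a.1 : ℝ), (a.2 : ℝ))

theorem segF_inj {a b : ℤ × ℤ} : segF a = segF b ↔ a = b := by
  constructor
  · intro h
    have h1 := congrArg Prod.fst h
    have h2 := congrArg Prod.snd h
    simp only [segF, Int.cast_inj] at h1 h2
    exact Prod.ext h1 h2
  · rintro rfl; rfl

theorem segF_crz (a b c d : ℤ × ℤ) :
    ((crz (b - a) (d - c) : ℤ) : ℝ) = cr (segF b - segF a) (segF d - segF c) := by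
  simp only [crz, cr, segF, Prod.fst_sub, Prod.snd_sub]
  push_cast
  ring

theorem seg_mem_iff {A B C : ℝ × ℝ} (hAB : A ≠ B) :
    C ∈ segment ℝ A B ↔ cr (B - A) (C - A) = 0 ∧ dotp C A B ≤ 0 := by
  constructor
  · intro h
    obtain ⟨t, h0, h1, rfl⟩ := seg_param.1 h
    constructor
    · simp only [cr, Prod.fst_sub, Prod.snd_sub, Prod.fst_add, Prod.snd_add, Prod.smul_fst,
        Prod.smul_snd, smul_eq_mul]
      ring
    · have h3 : dotp (A + t • (B - A)) A B = -(t * (1 - t)) * ((B - A).1 ^ 2 + (B - A).2 ^ 2) := by
        simp [dotp]; ring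
      rw [h3]
      have : 0 ≤ t * (1 - t) * ((B - A).1 ^ 2 + (B - A).2 ^ 2) :=
        mul_nonneg (mul_nonneg h0 (by linarith)) (by positivity)
      linarith
  · rintro ⟨h1, h2⟩
    obtain ⟨t, h3⟩ := between hAB h1 h2
    exact seg_param.2 ⟨t, h3⟩

theorem offB_iff {a b c : ℤ × ℤ} (hab : a ≠ b) :
    offB a b c = true ↔ (segF c ∈ segment ℝ (segF a) (segF b) → c = a ∨ c = b) := by
  have hne : segF a ≠ segF b := fun h => hab (segF_inj.1 h)
  rw [seg_mem_iff hne]
  have e1 : cr (segF b - segF a) (segF c - segF a) = 0 ↔ crz (b - a) (c - a) = 0 := by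
    rw [← segF_crz]; exact Int.cast_eq_zero
  have e2 : dotp (segF c) (segF a) (segF b) ≤ 0 ↔ dtz (a - c) (b - c) ≤ 0 := by
    have : dotp (segF c) (segF a) (segF b) = ((dtz (a - c) (b - c) : ℤ) : ℝ) := by
      simp only [dotp, dtz, segF, Prod.fst_sub, Prod.snd_sub]
      push_cast
      ring
    rw [this]
    exact_mod_cast Iff.rfl
  rw [e1, e2]
  unfold offB
  simp only [Bool.or_eq_true, Bool.not_eq_true', Bool.and_eq_false_iff, decide_eq_false_iff_not,
    decide_eq_true_eq]
  tauto

theorem seg_sign_lt {x y : ℤ} : Int.sign x * Int.sign y < 0 ↔ (x : ℝ) * (y : ℝ) < 0 := by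
  rw [← Int.sign_mul, Int.sign_neg_iff]
  constructor
  · intro h; exact_mod_cast h
  · intro h; exact_mod_cast h

theorem seg_sub_param (A B : ℝ × ℝ) (s t : ℝ) :
    (A + s • (B - A)) - (A + t • (B - A)) = (s - t) • (B - A) := by
  rw [sub_smul]; abel

theorem seg_collinear {A B C D x : ℝ × ℝ} (hAB : A ≠ B) {s t l : ℝ} (hs0 : 0 < s) (hs1 : s < 1)
    (ht0 : 0 < t) (ht1 : t < 1) (hx : x = A + s • (B - A)) (hx' : x = C + t • (D - C))
    (hl : D - C = l • (B - A)) (hlpos : 0 < l)
    (h1 : C ∈ segment ℝ A B → C = A ∨ C = B) (h2 : D ∈ segment ℝ A B → D = A ∨ D = B)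
    (h3 : A ∈ segment ℝ C D → A = C ∨ A = D) (h4 : B ∈ segment ℝ C D → B = C ∨ B = D) :
    A = C ∧ B = D := by
  have hz : B - A ≠ 0 := sub_ne_zero.2 hAB.symm
  have hC : C = A + (s - t * l) • (B - A) := by
    have : C = x - t • (D - C) := by rw [hx']; abel
    rw [this, hl, hx, smul_smul, sub_smul]; abel
  have hD : D = A + (s + (1 - t) * l) • (B - A) := by
    have : D = C + (D - C) := by abel
    rw [this, hl, hC, add_assoc, ← add_smul]
    congr 2; ring
  set γ := s - t * l with hγ
  set δ := s + (1 - t) * l with hδ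
  have hγs : γ < s := by rw [hγ]; nlinarith [mul_pos ht0 hlpos]
  have hδs : s < δ := by rw [hδ]; nlinarith [mul_pos (sub_pos.2 ht1) hlpos]
  have hinj : ∀ a b : ℝ, A + a • (B - A) = A + b • (B - A) → a = b := by
    intro a b hab
    have := add_left_cancel hab
    exact smul_left_injective ℝ hz this
  have hA : A = A + (0:ℝ) • (B - A) := by rw [zero_smul, add_zero]
  have hB : B = A + (1:ℝ) • (B - A) := by rw [one_smul]; abel
  have hγ0 : γ ≤ 0 := by
    by_contra hc
    push Not at hc
    have hm : C ∈ segment ℝ A B := seg_param.2 ⟨γ, hc.le, by linarith, hC⟩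
    rcases h1 hm with h | h
    · have := hinj γ 0 (by rw [← hC, ← hA]; exact h)
      linarith
    · have := hinj γ 1 (by rw [← hC, ← hB]; exact h)
      linarith
  have hδ1 : 1 ≤ δ := by
    by_contra hc
    push Not at hc
    have hm : D ∈ segment ℝ A B := seg_param.2 ⟨δ, by linarith, hc.le, hD⟩
    rcases h2 hm with h | h
    · have := hinj δ 0 (by rw [← hD, ← hA]; exact h)
      linarith
    · have := hinj δ 1 (by rw [← hD, ← hB]; exact h)
      linarith
  have hCD : D - C = (δ - γ) • (B - A) := by
    rw [hC, hD]; exact seg_sub_param A B δ γ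
  have hpos : 0 < δ - γ := by linarith
  constructor
  · have hm : A ∈ segment ℝ C D := by
      refine seg_param.2 ⟨(0 - γ) / (δ - γ), div_nonneg (by linarith) hpos.le,
        (div_le_one hpos).2 (by linarith), ?_⟩
      rw [hCD, smul_smul, div_mul_cancel₀ _ hpos.ne']
      rw [hC, add_assoc, ← add_smul]
      simp
    rcases h3 hm with h | h
    · exact h
    · have := hinj 0 δ (by rw [← hD, ← hA]; exact h)
      linarith
  · have hm : B ∈ segment ℝ C D := by
      refine seg_param.2 ⟨(1 - γ) / (δ - γ), div_nonneg (by linarith) hpos.le,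
        (div_le_one hpos).2 (by linarith), ?_⟩
      rw [hCD, smul_smul, div_mul_cancel₀ _ hpos.ne']
      rw [hC, add_assoc, ← add_smul]
      simp
    rcases h4 hm with h | h
    · have := hinj 1 γ (by rw [← hC, ← hB]; exact h)
      linarith
    · exact h

theorem seg_real {A B C D : ℝ × ℝ} (hAB : A ≠ B) (hCD : C ≠ D) :
    (¬ (cr (B - A) (C - A) * cr (B - A) (D - A) < 0 ∧ cr (D - C) (A - C) * cr (D - C) (B - C) < 0) ∧
      (C ∈ segment ℝ A B → C = A ∨ C = B) ∧ (D ∈ segment ℝ A B → D = A ∨ D = B) ∧
      (A ∈ segment ℝ C D → A = C ∨ A = D) ∧ (B ∈ segment ℝ C D → B = C ∨ B = D) ∧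
      ¬ (A = C ∧ B = D) ∧ ¬ (A = D ∧ B = C)) ↔
    segment ℝ A B ∩ segment ℝ C D ⊆ {A, B} ∩ {C, D} := by
  have hz : B - A ≠ 0 := sub_ne_zero.2 hAB.symm
  have hz' : D - C ≠ 0 := sub_ne_zero.2 hCD.symm
  constructor
  · rintro ⟨h0, h1, h2, h3, h4, h5, h6⟩ x ⟨hx1, hx2⟩
    by_cases hxA : x = A
    · subst hxA
      refine ⟨Or.inl rfl, ?_⟩
      rcases h3 hx2 with h | h
      · left; exact h
      · right; exact h
    by_cases hxB : x = B
    · subst hxB
      refine ⟨Or.inr rfl, ?_⟩
      rcases h4 hx2 with h | h
      · left; exact h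
      · right; exact h
    by_cases hxC : x = C
    · subst hxC
      refine ⟨?_, Or.inl rfl⟩
      rcases h1 hx1 with h | h
      · left; exact h
      · right; exact h
    by_cases hxD : x = D
    · subst hxD
      refine ⟨?_, Or.inr rfl⟩
      rcases h2 hx1 with h | h
      · left; exact h
      · right; exact h
    exfalso
    obtain ⟨s, hs0, hs1, hs⟩ := seg_param.1 hx1
    obtain ⟨t, ht0, ht1, ht⟩ := seg_param.1 hx2
    have hs0' : 0 < s := lt_of_le_of_ne hs0 (by
      rintro rfl; rw [zero_smul, add_zero] at hs; exact hxA hs)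
    have hs1' : s < 1 := lt_of_le_of_ne hs1 (by
      rintro rfl; rw [one_smul] at hs; exact hxB (by rw [hs]; abel))
    have ht0' : 0 < t := lt_of_le_of_ne ht0 (by
      rintro rfl; rw [zero_smul, add_zero] at ht; exact hxC ht)
    have ht1' : t < 1 := lt_of_le_of_ne ht1 (by
      rintro rfl; rw [one_smul] at ht; exact hxD (by rw [ht]; abel))
    have hAx : A = x - s • (B - A) := by rw [hs]; abel
    have hBx : B = x + (1 - s) • (B - A) := by rw [hs, sub_smul, one_smul]; abel
    have hCx : C = x - t • (D - C) := by rw [ht]; abel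
    have hDx : D = x + (1 - t) • (D - C) := by rw [ht, sub_smul, one_smul]; abel
    by_cases hk : cr (B - A) (D - C) = 0
    · obtain ⟨l, hl⟩ := parallel hz hk
      rcases lt_trichotomy l 0 with hl0 | hl0 | hl0
      · -- swap C and D
        have hl' : C - D = (-l) • (B - A) := by rw [neg_smul, ← hl]; abel
        have ht' : x = D + (1 - t) • (C - D) := by
          rw [ht, sub_smul, one_smul, ← neg_sub C D, smul_neg]; abel
        have hsym : segment ℝ C D = segment ℝ D C := segment_symm ℝ C D
        have := seg_collinear hAB hs0' hs1' (by linarith : 0 < 1 - t) (by linarith) hs ht' hl'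
          (by linarith) h2 h1 (fun h => (h3 (hsym ▸ h)).symm) (fun h => (h4 (hsym ▸ h)).symm)
        exact h6 this
      · rw [hl0, zero_smul] at hl; exact hz' hl
      · exact h5 (seg_collinear hAB hs0' hs1' ht0' ht1' hs ht hl hl0 h1 h2 h3 h4)
    · set k := cr (B - A) (D - C) with hkdef
      have hk2 : 0 < k ^ 2 := by positivity
      have hCA : C - A = s • (B - A) - t • (D - C) := by
        have e : C - A = (x - t • (D - C)) - (x - s • (B - A)) := by rw [← hCx, ← hAx]
        rw [e]; abel
      have hDA : D - A = s • (B - A) + (1 - t) • (D - C) := by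
        have e : D - A = (x + (1 - t) • (D - C)) - (x - s • (B - A)) := by rw [← hDx, ← hAx]
        rw [e]; abel
      have hAC : A - C = t • (D - C) - s • (B - A) := by
        have e : A - C = (x - s • (B - A)) - (x - t • (D - C)) := by rw [← hCx, ← hAx]
        rw [e]; abel
      have hBC : B - C = t • (D - C) + (1 - s) • (B - A) := by
        have e : B - C = (x + (1 - s) • (B - A)) - (x - t • (D - C)) := by rw [← hCx, ← hBx]
        rw [e]; abel
      apply h0
      have e1 : cr (B - A) (C - A) = - t * k := by
        rw [hCA, hkdef]; simp only [cr, Prod.fst_sub, Prod.snd_sub, Prod.smul_fst, Prod.smul_snd,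
          smul_eq_mul]; ring
      have e2 : cr (B - A) (D - A) = (1 - t) * k := by
        rw [hDA, hkdef]; simp only [cr, Prod.fst_sub, Prod.snd_sub, Prod.smul_fst, Prod.smul_snd,
          Prod.fst_add, Prod.snd_add, smul_eq_mul]; ring
      have e3 : cr (D - C) (A - C) = s * k := by
        rw [hAC, hkdef]; simp only [cr, Prod.fst_sub, Prod.snd_sub, Prod.smul_fst, Prod.smul_snd,
          smul_eq_mul]; ring
      have e4 : cr (D - C) (B - C) = - (1 - s) * k := by
        rw [hBC, hkdef]; simp only [cr, Prod.fst_sub, Prod.snd_sub, Prod.smul_fst, Prod.smul_snd,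
          Prod.fst_add, Prod.snd_add, smul_eq_mul]; ring
      rw [e1, e2, e3, e4]
      constructor
      · have : 0 < t * (1 - t) * k ^ 2 := mul_pos (mul_pos ht0' (by linarith)) hk2
        nlinarith
      · have : 0 < s * (1 - s) * k ^ 2 := mul_pos (mul_pos hs0' (by linarith)) hk2
        nlinarith
  · intro hsub
    refine ⟨?_, ?_, ?_, ?_, ?_, ?_, ?_⟩
    · rintro ⟨h1, h2⟩
      set γ := cr (B - A) (C - A) with hγ
      set δ := cr (B - A) (D - A) with hδ
      set α := cr (D - C) (A - C) with hα
      set β := cr (D - C) (B - C) with hβ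
      have hk : cr (B - A) (D - C) = δ - γ := by
        rw [hγ, hδ]; simp only [cr, Prod.fst_sub, Prod.snd_sub]; ring
      have hk' : α - β = δ - γ := by
        rw [hγ, hδ, hα, hβ]; simp only [cr, Prod.fst_sub, Prod.snd_sub]; ring
      have hαβ : α - β ≠ 0 := by
        intro h0
        have : α = β := by linarith
        rw [this] at h2
        nlinarith [mul_self_nonneg β]
      have hγδ : δ - γ ≠ 0 := by rw [← hk']; exact hαβ
      set s := α / (α - β) with hs
      set t := γ / (γ - δ) with ht
      have hγδ' : γ - δ ≠ 0 := fun h0 => hγδ (by linarith)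
      have hs01 : 0 < s ∧ s < 1 := by
        rcases lt_or_gt_of_ne hαβ with h | h
        · have hα0 : α < 0 := by
            by_contra hc; push Not at hc
            have : 0 < β := by linarith
            nlinarith
          have hβ0 : 0 < β := by
            by_contra hc; push Not at hc
            nlinarith
          refine ⟨div_pos_of_neg_of_neg hα0 h, ?_⟩
          rw [hs, div_lt_one_of_neg h]; linarith
        · have hα0 : 0 < α := by
            by_contra hc; push Not at hc
            have : β < 0 := by linarith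
            nlinarith
          have hβ0 : β < 0 := by
            by_contra hc; push Not at hc
            nlinarith
          refine ⟨div_pos hα0 h, ?_⟩
          rw [hs, div_lt_one h]; linarith
      have ht01 : 0 ≤ t ∧ t ≤ 1 := by
        rcases lt_or_gt_of_ne hγδ' with h | h
        · have hγ0 : γ < 0 := by
            by_contra hc; push Not at hc
            have : 0 < δ := by linarith
            nlinarith
          have hδ0 : 0 < δ := by
            by_contra hc; push Not at hc
            nlinarith
          refine ⟨(div_pos_of_neg_of_neg hγ0 h).le, ?_⟩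
          rw [ht, div_le_one_of_neg h]; linarith
        · have hγ0 : 0 < γ := by
            by_contra hc; push Not at hc
            have : δ < 0 := by linarith
            nlinarith
          have hδ0 : δ < 0 := by
            by_contra hc; push Not at hc
            nlinarith
          refine ⟨(div_pos hγ0 h).le, ?_⟩
          rw [ht, div_le_one h]; linarith
      have hXY : A + s • (B - A) = C + t • (D - C) := by
        have hcr : cr (B - A) (D - C) ≠ 0 := by rw [hk]; exact hγδ
        have hz0 := cramer hcr (A + s • (B - A) - (C + t • (D - C)))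
        have z1 : cr (A + s • (B - A) - (C + t • (D - C))) (D - C) = 0 := by
          have : cr (A + s • (B - A) - (C + t • (D - C))) (D - C) = - α + s * (α - β) := by
            rw [hα, hβ]
            simp only [cr, Prod.fst_sub, Prod.snd_sub, Prod.smul_fst, Prod.smul_snd,
              Prod.fst_add, Prod.snd_add, smul_eq_mul]
            ring
          rw [this, hs, div_mul_cancel₀ _ hαβ]; ring
        have z2 : cr (B - A) (A + s • (B - A) - (C + t • (D - C))) = 0 := by
          have : cr (B - A) (A + s • (B - A) - (C + t • (D - C))) = - γ + t * (γ - δ) := by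
            rw [hγ, hδ]
            simp only [cr, Prod.fst_sub, Prod.snd_sub, Prod.smul_fst, Prod.smul_snd,
              Prod.fst_add, Prod.snd_add, smul_eq_mul]
            ring
          rw [this, ht, div_mul_cancel₀ _ hγδ']; ring
        rw [z1, z2, zero_div, zero_smul, zero_smul, add_zero] at hz0
        exact sub_eq_zero.1 hz0
      have hmem := hsub ⟨seg_param.2 ⟨s, hs01.1.le, hs01.2.le, rfl⟩,
        seg_param.2 ⟨t, ht01.1, ht01.2, hXY⟩⟩
      rcases hmem.1 with h | h
      · have : s • (B - A) = 0 := by
          have := h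
          simpa using this
        rcases smul_eq_zero.1 this with h' | h'
        · linarith [hs01.1]
        · exact hz h'
      · have h' : A + s • (B - A) = B := h
        have : (1 - s) • (B - A) = 0 := by
          have e : s • (B - A) = B - A := by
            have e2 : s • (B - A) = (A + s • (B - A)) - A := by abel
            rw [e2, h']
          rw [sub_smul, one_smul, e, sub_self]
        rcases smul_eq_zero.1 this with h' | h'
        · linarith [hs01.2]
        · exact hz h'
    · intro h
      exact (hsub ⟨h, left_mem_segment ℝ C D⟩).1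
    · intro h
      exact (hsub ⟨h, right_mem_segment ℝ C D⟩).1
    · intro h
      exact (hsub ⟨left_mem_segment ℝ A B, h⟩).2
    · intro h
      exact (hsub ⟨right_mem_segment ℝ A B, h⟩).2
    · rintro ⟨rfl, rfl⟩
      have hm : A + (1/2:ℝ) • (B - A) ∈ segment ℝ A B :=
        seg_param.2 ⟨1/2, by norm_num, by norm_num, rfl⟩
      rcases (hsub ⟨hm, hm⟩).1 with h | h
      · have : (1/2:ℝ) • (B - A) = 0 := by simpa using h
        rcases smul_eq_zero.1 this with h' | h'
        · norm_num at h'
        · exact hz h'
      · have h' : A + (1/2:ℝ) • (B - A) = B := h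
        have h'' : B - A = (1/2:ℝ) • (B - A) := by nth_rewrite 1 [← h']; abel
        have : (1/2:ℝ) • (B - A) = 0 := by
          have h3 : (1:ℝ) • (B - A) = (1/2:ℝ) • (B - A) := by rw [one_smul]; exact h''
          have h4 : ((1:ℝ) - 1/2) • (B - A) = 0 := by rw [sub_smul, h3, sub_self]
          norm_num at h4 ⊢
          exact h4
        rcases smul_eq_zero.1 this with h' | h'
        · norm_num at h'
        · exact hz h'
    · rintro ⟨rfl, rfl⟩
      have hm : A + (1/2:ℝ) • (B - A) ∈ segment ℝ A B :=
        seg_param.2 ⟨1/2, by norm_num, by norm_num, rfl⟩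
      have hm' : A + (1/2:ℝ) • (B - A) ∈ segment ℝ B A := by rw [segment_symm]; exact hm
      rcases (hsub ⟨hm, hm'⟩).1 with h | h
      · have : (1/2:ℝ) • (B - A) = 0 := by simpa using h
        rcases smul_eq_zero.1 this with h' | h'
        · norm_num at h'
        · exact hz h'
      · have h' : A + (1/2:ℝ) • (B - A) = B := h
        have h'' : B - A = (1/2:ℝ) • (B - A) := by nth_rewrite 1 [← h']; abel
        have : (1/2:ℝ) • (B - A) = 0 := by
          have h3 : (1:ℝ) • (B - A) = (1/2:ℝ) • (B - A) := by rw [one_smul]; exact h''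
          have h4 : ((1:ℝ) - 1/2) • (B - A) = 0 := by rw [sub_smul, h3, sub_self]
          norm_num at h4 ⊢
          exact h4
        rcases smul_eq_zero.1 this with h' | h'
        · norm_num at h'
        · exact hz h'

theorem SEG_holds : S_SEG := by
  intro a b c d hab hcd
  have h1 : segF a ≠ segF b := fun h => hab (segF_inj.1 h)
  have h2 : segF c ≠ segF d := fun h => hcd (segF_inj.1 h)
  change segB a b c d = true ↔ segment ℝ (segF a) (segF b) ∩ segment ℝ (segF c) (segF d) ⊆
    {segF a, segF b} ∩ {segF c, segF d}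
  rw [← seg_real h1 h2]
  unfold segB
  simp only [Bool.and_eq_true, Bool.not_eq_true', Bool.and_eq_false_iff, decide_eq_false_iff_not,
    offB_iff hab, offB_iff hcd, seg_sign_lt, segF_crz, segF_inj, not_and_or, and_assoc]

end H612BB
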