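import Pool.Agent.H612.BB.Stubs

/-!
# The test of simplicity
-/

namespace H612BB

open Vis124 Pool.Agent.NPC

theorem sim_zvert (L : List (ℤ × ℤ)) (i : Fin L.length) :
    zvert L i = (((pn L i).1 : ℝ), ((pn L i).2 : ℝ)) := by
  unfold zvert pn
  rw [Nat.mod_eq_of_lt i.2]
  simp [List.getD_eq_getElem?_getD]

theorem sim_sc (L : List (ℤ × ℤ)) (i : Fin L.length) :
    zvert L (finRotate L.length i) =
      (((pn L ((i : ℕ) + 1)).1 : ℝ), ((pn L ((i : ℕ) + 1)).2 : ℝ)) := by
  have hv : ((finRotate L.length i : Fin L.length) : ℕ) = ((i : ℕ) + 1) % L.length := by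
    obtain ⟨n, hn⟩ : ∃ n, L.length = n + 1 := ⟨L.length - 1, by have := i.2; omega⟩
    have key : ∀ (m : ℕ) (j : Fin m), m = n + 1 →
        ((finRotate m j : Fin m) : ℕ) = ((j : ℕ) + 1) % m := by
      intro m j hm
      subst hm
      rw [finRotate_apply, Fin.val_add]
      rcases Nat.eq_zero_or_pos n with h | h
      · subst h
        simp
      · rw [Fin.val_one', Nat.add_mod_mod]
    exact key _ i hn
  rw [sim_zvert, hv]
  unfold pn
  rw [Nat.mod_mod]

theorem SIM_holds (hS : S_SEG) : S_SIM := by
  intro L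
  have hcast : ∀ a b : ℤ × ℤ, ((a.1 : ℝ), (a.2 : ℝ)) = ((b.1 : ℝ), (b.2 : ℝ)) ↔ a = b := by
    intro a b
    constructor
    · intro h
      have h1 : (a.1 : ℝ) = b.1 := congrArg Prod.fst h
      have h2 : (a.2 : ℝ) = b.2 := congrArg Prod.snd h
      ext
      · exact_mod_cast h1
      · exact_mod_cast h2
    · rintro rfl; rfl
  have hmod : ∀ i : ℕ, pn L (i % L.length) = pn L i := by
    intro i
    unfold pn
    rw [Nat.mod_mod]
  constructor
  · intro h
    unfold simpB at h
    rw [Bool.and_eq_true, decide_eq_true_eq, List.all_eq_true] at h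
    obtain ⟨h3, h⟩ := h
    have h' : ∀ i < L.length, ∀ j < L.length, i ≠ j → pn L i ≠ pn L j ∧
        segB (pn L i) (pn L (i + 1)) (pn L j) (pn L (j + 1)) = true := by
      intro i hi j hj hij
      have h1 := h i (List.mem_range.2 hi)
      rw [List.all_eq_true] at h1
      have h2 := h1 j (List.mem_range.2 hj)
      simpa [hij] using h2
    have hne : ∀ i < L.length, pn L i ≠ pn L (i + 1) := by
      intro i hi
      rw [← hmod (i + 1)]
      refine (h' i hi _ (Nat.mod_lt _ (by omega)) ?_).1
      rcases Nat.lt_or_ge (i + 1) L.length with h4 | h4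
      · rw [Nat.mod_eq_of_lt h4]; omega
      · have : i + 1 = L.length := by omega
        rw [this, Nat.mod_self]; omega
    refine ⟨h3, ?_, ?_⟩
    · intro i j hij
      by_contra hc
      have hc' : (i : ℕ) ≠ j := fun h => hc (Fin.ext h)
      rw [sim_zvert, sim_zvert] at hij
      exact (h' i i.2 j j.2 hc').1 ((hcast _ _).1 hij)
    · intro i j hij
      have hij' : (i : ℕ) ≠ j := fun h => hij (Fin.ext h)
      have h5 := (hS _ _ _ _ (hne i i.2) (hne j j.2)).1 (h' i i.2 j j.2 hij').2
      unfold edge sc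
      rw [sim_sc, sim_sc, sim_zvert, sim_zvert]
      exact h5
  · intro h
    unfold simpB
    rw [Bool.and_eq_true, decide_eq_true_eq, List.all_eq_true]
    have h3 := h.three_le
    refine ⟨h3, fun i hi => ?_⟩
    rw [List.all_eq_true]
    intro j hj
    have hi' := List.mem_range.1 hi
    have hj' := List.mem_range.1 hj
    by_cases hij : i = j
    · simp [hij]
    have hpn : ∀ a < L.length, ∀ b < L.length, a ≠ b → pn L a ≠ pn L b := by
      intro a ha b hb hab hp
      have : (⟨a, ha⟩ : Fin L.length) = ⟨b, hb⟩ := by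
        apply h.injective
        rw [sim_zvert, sim_zvert]
        exact (hcast _ _).2 hp
      exact hab (congrArg Fin.val this)
    have hne : ∀ i < L.length, pn L i ≠ pn L (i + 1) := by
      intro i hi
      rw [← hmod (i + 1)]
      refine hpn i hi _ (Nat.mod_lt _ (by omega)) ?_
      rcases Nat.lt_or_ge (i + 1) L.length with h4 | h4
      · rw [Nat.mod_eq_of_lt h4]; omega
      · have : i + 1 = L.length := by omega
        rw [this, Nat.mod_self]; omega
    have h5 := h.simple ⟨i, hi'⟩ ⟨j, hj'⟩ (fun hc => hij (congrArg Fin.val hc))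
    unfold edge sc at h5
    rw [sim_sc, sim_sc, sim_zvert, sim_zvert] at h5
    have h6 := (hS _ _ _ _ (hne i hi') (hne j hj')).2 h5
    have h7 := hpn i hi' j hj' hij
    simp [hij, h6, h7]

end H612BB
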