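import Pool.Agent.H612.BB.T_VB
import Pool.Agent.H612.BB.T_GRD

/-!
# Soundness of the test of the chains
-/

namespace H612BB

open Vis124 Pool.Agent.NPC Set

theorem fsg_eq (hG : S_SGN) {α β : Num} (hα : α.2.2 ≠ 0) (hβ : β.2.2 ≠ 0) :
    fsg α β = fun F => sgR (F.val α.val β.val) := funext fun F => hG α β F hα hβ

theorem okN_iff (hG : S_SGN) {c : Num} :
    okN c = true ↔ c.2.2 ≠ 0 ∧ 0 ≤ c.val ∧ c.val ≤ 1 := by
  simp only [okN, Bool.and_eq_true, decide_eq_true_eq, and_assoc]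
  refine and_congr_right fun h => ?_
  have e1 : Form.val (0, 1, 0, 0) c.val c.val = c.val := by simp [Form.val]
  have e2 : Form.val (0, -1, 0, 1) c.val c.val = 1 - c.val := by simp [Form.val]; ring
  rw [fsg_eq hG h h, zero_le_sgR, zero_le_sgR, e1, e2, sub_nonneg]

theorem side_eq (hO : S_ORI) {L : List (ℤ × ℤ)} {P : Set (ℝ × ℝ)} {σ : ℝ} {m : ℕ}
    (h : IsSimplePolygon (zvert L) P) (hs : Side (zvert L) P σ) (hl : lexB L m = true) :
    σ = ((oriS L m : ℤ) : ℝ) := by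
  simp only [lexB, Bool.and_eq_true, decide_eq_true_eq, List.all_eq_true, Bool.or_eq_true] at hl
  obtain ⟨hm, hl⟩ := hl
  have key := hO L.length (zvert L) P σ h hs ⟨m, hm⟩ (by
    intro j
    have h1 := hl (L.get j) (List.get_mem _ _)
    have h2 : zvert L ⟨m, hm⟩ = cst (pn L m) := (cst_pn_self ⟨m, hm⟩).symm
    have h3 : zvert L j = cst (L.get j) := rfl
    rw [h2, h3]
    simp only [cst]
    rcases h1 with h1 | ⟨h1, h1'⟩
    · left; exact_mod_cast h1
    · right; exact ⟨by exact_mod_cast h1, by exact_mod_cast h1'⟩)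
  have e : cr (wd (zvert L) ⟨m, hm⟩) (ud (zvert L) ⟨m, hm⟩) =
      ((crz (pn L (m + 1) - pn L m) (pn L (m + (L.length - 1)) - pn L m) : ℤ) : ℝ) := by
    rw [crz_cast, ← cst_wd ⟨m, hm⟩, ← cst_ud ⟨m, hm⟩]
  rw [e] at key
  unfold oriS
  rcases hs.sig with h1 | h1
  · rw [h1, one_mul] at key
    have : 0 < crz (pn L (m + 1) - pn L m) (pn L (m + (L.length - 1)) - pn L m) := by
      exact_mod_cast key
    rw [Int.sign_eq_one_of_pos this, h1]; norm_num
  · rw [h1] at key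
    have : crz (pn L (m + 1) - pn L m) (pn L (m + (L.length - 1)) - pn L m) < 0 := by
      have h2 : (((crz (pn L (m + 1) - pn L m) (pn L (m + (L.length - 1)) - pn L m) : ℤ)) : ℝ) < 0 := by
        linarith
      exact_mod_cast h2
    rw [Int.sign_eq_neg_one_of_neg this, h1]; norm_num

/-- discrete intermediate values along a chain -/
theorem chain_ivt : ∀ (C : List Lk) (a b : Num) (s : ℝ),
    (C.head?).map (fun t => t.2.1) = some a → (C.getLast?).map (fun t => t.2.2) = some b →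
    (∀ p ∈ C.zip C.tail, p.1.2.2 = p.2.2.1) → a.val ≤ s → s ≤ b.val →
    ∃ t ∈ C, t.2.1.val ≤ s ∧ s ≤ t.2.2.val
  | [], a, b, s, h1, _, _, _, _ => by simp at h1
  | [t], a, b, s, h1, h2, _, h4, h5 => by
    simp only [List.head?_cons, Option.map_some, Option.some.injEq, List.getLast?_singleton]
      at h1 h2
    subst h1 h2
    exact ⟨t, by simp, h4, h5⟩
  | t :: t' :: C, a, b, s, h1, h2, h3, h4, h5 => by
    simp only [List.head?_cons, Option.map_some, Option.some.injEq] at h1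
    subst h1
    rcases le_or_gt s t.2.2.val with h6 | h6
    · exact ⟨t, by simp, h4, h6⟩
    · have h7 : t.2.2 = t'.2.1 := h3 (t, t') (by simp)
      have h2' : ((t' :: C).getLast?).map (fun t => t.2.2) = some b := by
        rw [List.getLast?_cons_cons] at h2
        exact h2
      obtain ⟨u, hu, hu'⟩ := chain_ivt (t' :: C) t'.2.1 b s (by simp) h2'
        (fun p hp => h3 p (by
          rw [List.tail_cons, List.zip_cons_cons]
          exact List.mem_cons_of_mem _ hp)) (by rw [← h7]; exact h6.le) h5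
      exact ⟨u, List.mem_cons_of_mem _ hu, hu'⟩

theorem pt_mem_edge {n : ℕ} {v : Fin n → ℝ × ℝ} (e : Fin n) {x : ℝ} (h0 : 0 ≤ x) (h1 : x ≤ 1) :
    pt v e x ∈ edge v e := by
  rw [edge_eq]; exact ⟨x, h0, h1, rfl⟩

theorem edge_sub {n : ℕ} {v : Fin n → ℝ × ℝ} {P : Set (ℝ × ℝ)} (h : IsSimplePolygon v P)
    (e : Fin n) : edge v e ⊆ P :=
  (Set.subset_iUnion (fun i => edge v i) e).trans (curve_subset h)

/-- a guard that sees two points of an edge sees all points between -/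
theorem sees_between (hE : S_EXT) (hT : S_TRI) {n : ℕ} {v : Fin n → ℝ × ℝ} {P : Set (ℝ × ℝ)}
    (h : IsSimplePolygon v P) {A : ℝ × ℝ} {f : Fin n} {a b s : ℝ} (ha0 : 0 ≤ a) (ha1 : a ≤ 1)
    (hb0 : 0 ≤ b) (hb1 : b ≤ 1) (h1 : segment ℝ A (pt v f a) ⊆ P)
    (h2 : segment ℝ A (pt v f b) ⊆ P) (has : a ≤ s) (hsb : s ≤ b) :
    segment ℝ A (pt v f s) ⊆ P := by
  refine hT P h.compact (hE n v P h) A (pt v f a) (pt v f b) h1 h2 ?_ _ ?_
  · refine Set.Subset.trans ?_ (edge_sub h f)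
    exact (convex_segment _ _).segment_subset (pt_mem_edge f ha0 ha1) (pt_mem_edge f hb0 hb1)
  · rcases eq_or_lt_of_le (has.trans hsb) with hab | hab
    · have e1 : s = a := le_antisymm (by linarith) has
      rw [e1]; exact left_mem_segment _ _ _
    · rw [seg_param]
      refine ⟨(s - a) / (b - a), by apply div_nonneg <;> linarith, ?_, ?_⟩
      · rw [div_le_one (by linarith)]; linarith
      · have h3 : b - a ≠ 0 := by linarith
        have h4 : pt v f b - pt v f a = (b - a) • wd v f := by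
          simp only [pt]; rw [sub_smul]; abel
        rw [h4, smul_smul, div_mul_cancel₀ _ h3]
        simp only [pt]; rw [sub_smul]; abel

theorem SND_of (hG : S_SGN) (hO : S_ORI) (hE : S_EXT) (hT : S_TRI) : S_SND := by
  intro L P k m Gs Cs h hcov
  simp only [coverB, Bool.and_eq_true, decide_eq_true_eq, List.all_eq_true] at hcov
  obtain ⟨⟨⟨⟨hlex, hlen⟩, hCs⟩, hgs⟩, hcs⟩ := hcov
  obtain ⟨σ, hσ, hint, hext⟩ := oriented h
  have hs : Side (zvert L) P σ := ⟨hσ, hint, hext⟩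
  have hσe := side_eq hO h hs hlex
  rw [hσe] at hs
  subst hlen
  have hfr : frontier P = curve (zvert L) := h.boundary
  refine grd (frontier_infinite h) (fun i => pt (zvert L)
    ⟨(Gs.get i).1, (hgs _ (List.get_mem Gs i)).1⟩ (Gs.get i).2.val) ?_ ?_
  · intro i
    obtain ⟨h1, h2⟩ := hgs _ (List.get_mem Gs i)
    rw [okN_iff hG] at h2
    rw [hfr]
    exact mem_iUnion.2 ⟨_, pt_mem_edge _ h2.2.1 h2.2.2⟩
  · intro t ht
    rw [hfr] at ht
    obtain ⟨f, hf⟩ := mem_iUnion.1 ht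
    rw [edge_eq] at hf
    obtain ⟨s, hs0, hs1, rfl⟩ := hf
    have hfl : (f : ℕ) < Cs.length := by rw [hCs]; exact f.2
    have hmem : (Cs[(f : ℕ)], (f : ℕ)) ∈ Cs.zipIdx := by
      rw [List.mk_mem_zipIdx_iff_getElem?]
      exact List.getElem?_eq_getElem hfl
    have hch := hcs _ hmem
    simp only [chainB, Bool.and_eq_true, decide_eq_true_eq, List.all_eq_true] at hch
    obtain ⟨⟨⟨hc1, hc2⟩, hc3⟩, hc4⟩ := hch
    have z0 : Num.val (0, 0, 1) = 0 := by simp [Num.val]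
    have z1 : Num.val (1, 0, 1) = 1 := by simp [Num.val]
    obtain ⟨u, hu, hu1, hu2⟩ := chain_ivt _ _ _ s hc1 hc2 hc3 (by rw [z0]; exact hs0)
      (by rw [z1]; exact hs1)
    have hlk := hc4 u hu
    simp only [linkB, Bool.and_eq_true, decide_eq_true_eq] at hlk
    obtain ⟨⟨⟨⟨hg, ho1⟩, ho2⟩, hv1⟩, hv2⟩ := hlk
    have hget : Gs.getD u.1 (0, 0, 0, 0) = Gs.get ⟨u.1, hg⟩ := by
      rw [List.getD_eq_getElem _ _ hg]; rfl
    rw [hget] at hv1 hv2
    obtain ⟨h1, h2⟩ := hgs _ (List.get_mem Gs ⟨u.1, hg⟩)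
    rw [okN_iff hG] at h2 ho1 ho2
    rw [fsg_eq hG h2.1 ho1.1] at hv1
    rw [fsg_eq hG h2.1 ho2.1] at hv2
    have s1 := (VB_holds L P (oriS L m) h hs ⟨_, h1⟩ f _ _ h2.2.1 h2.2.2 ho1.2.1 ho1.2.2).2 hv1
    have s2 := (VB_holds L P (oriS L m) h hs ⟨_, h1⟩ f _ _ h2.2.1 h2.2.2 ho2.2.1 ho2.2.2).2 hv2
    exact ⟨⟨u.1, hg⟩, sees_between hE hT h ho1.2.1 ho1.2.2 ho2.2.1 ho2.2.2 s1 s2 hu1 hu2⟩

end H612BB
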