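import Pool.Agent.H612.BB.Stubs

/-!
# Task SOL: chains with bounded quadratic numbers
-/

namespace H612BB

open Vis124 Pool.Agent.NPC

namespace SolT

/-- all entries are bounded by `H` -/
def FB (H : ℤ) (F : Form) : Prop := |F.1| ≤ H ∧ |F.2.1| ≤ H ∧ |F.2.2.1| ≤ H ∧ |F.2.2.2| ≤ H

/-- a point with coordinates bounded by `H` -/
def PB (H : ℤ) (a : ℤ × ℤ) : Prop := |a.1| ≤ H ∧ |a.2| ≤ H

lemma pb_sub {H : ℤ} {a b : ℤ × ℤ} (ha : PB H a) (hb : PB H b) : PB (2 * H) (a - b) := by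
  obtain ⟨h1, h2⟩ := ha
  obtain ⟨h3, h4⟩ := hb
  rw [abs_le] at h1 h2 h3 h4
  constructor
  · rw [Prod.fst_sub, abs_le]; constructor <;> linarith [h1.1, h1.2, h3.1, h3.2]
  · rw [Prod.snd_sub, abs_le]; constructor <;> linarith [h2.1, h2.2, h4.1, h4.2]

lemma crz_bd {H : ℤ} (hH : 0 ≤ H) {a b : ℤ × ℤ} (ha : PB (2 * H) a) (hb : PB (2 * H) b) :
    |crz a b| ≤ 8 * H ^ 2 := by
  obtain ⟨h1, h2⟩ := ha
  obtain ⟨h3, h4⟩ := hb
  have e1 : |a.1 * b.2| ≤ (2 * H) * (2 * H) := by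
    rw [abs_mul]; exact mul_le_mul h1 h4 (abs_nonneg _) (by linarith)
  have e2 : |a.2 * b.1| ≤ (2 * H) * (2 * H) := by
    rw [abs_mul]; exact mul_le_mul h2 h3 (abs_nonneg _) (by linarith)
  unfold crz
  have := abs_sub (a.1 * b.2) (a.2 * b.1)
  nlinarith

lemma dtz_bd {H : ℤ} (hH : 0 ≤ H) {a b : ℤ × ℤ} (ha : PB (2 * H) a) (hb : PB (2 * H) b) :
    |dtz a b| ≤ 8 * H ^ 2 := by
  obtain ⟨h1, h2⟩ := ha
  obtain ⟨h3, h4⟩ := hb
  have e1 : |a.1 * b.1| ≤ (2 * H) * (2 * H) := by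
    rw [abs_mul]; exact mul_le_mul h1 h3 (abs_nonneg _) (by linarith)
  have e2 : |a.2 * b.2| ≤ (2 * H) * (2 * H) := by
    rw [abs_mul]; exact mul_le_mul h2 h4 (abs_nonneg _) (by linarith)
  unfold dtz
  have := abs_add_le (a.1 * b.1) (a.2 * b.2)
  nlinarith

lemma pn_bd {H : ℤ} (hH : 0 ≤ H) {L : List (ℤ × ℤ)} (hL : ∀ q ∈ L, |q.1| ≤ H ∧ |q.2| ≤ H)
    (i : ℕ) : PB H (pn L i) := by
  unfold pn
  by_cases h : i % L.length < L.length
  · rw [List.getD_eq_getElem _ _ h]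
    exact hL _ (List.getElem_mem h)
  · rw [List.getD_eq_default _ _ (by omega)]
    exact ⟨by simpa using hH, by simpa using hH⟩

lemma fOri_bd {H : ℤ} (hH : 0 ≤ H) {p q r s v : ℤ × ℤ} (hp : PB H p) (hq : PB H q) (hr : PB H r)
    (hs : PB H s) (hv : PB H v) : FB (8 * H ^ 2) (fOri p q r s v) :=
  ⟨crz_bd hH (pb_sub hq hp) (pb_sub hs hr), crz_bd hH (pb_sub hq hp) (pb_sub hr hv),
    crz_bd hH (pb_sub hp hv) (pb_sub hs hr), crz_bd hH (pb_sub hp hv) (pb_sub hr hv)⟩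

lemma fDot_bd {H : ℤ} (hH : 0 ≤ H) {p q r s v : ℤ × ℤ} (hp : PB H p) (hq : PB H q) (hr : PB H r)
    (hs : PB H s) (hv : PB H v) : FB (8 * H ^ 2) (fDot p q r s v) :=
  ⟨dtz_bd hH (pb_sub hq hp) (pb_sub hs hr), dtz_bd hH (pb_sub hq hp) (pb_sub hr hv),
    dtz_bd hH (pb_sub hp hv) (pb_sub hs hr), dtz_bd hH (pb_sub hp hv) (pb_sub hr hv)⟩

lemma zero_bd {H : ℤ} : |(0 : ℤ)| ≤ 8 * H ^ 2 := by
  rw [abs_zero]; positivity

lemma fX_bd {H : ℤ} (hH : 0 ≤ H) {a b v p q : ℤ × ℤ} (ha : PB H a) (hb : PB H b) (hv : PB H v)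
    (hp : PB H p) (hq : PB H q) : FB (8 * H ^ 2) (fX (a - b) v p q) :=
  ⟨zero_bd, crz_bd hH (pb_sub ha hb) (pb_sub hq hp), zero_bd, crz_bd hH (pb_sub ha hb) (pb_sub hp hv)⟩

lemma fY_bd {H : ℤ} (hH : 0 ≤ H) {a b v p q : ℤ × ℤ} (ha : PB H a) (hb : PB H b) (hv : PB H v)
    (hp : PB H p) (hq : PB H q) : FB (8 * H ^ 2) (fY (a - b) v p q) :=
  ⟨zero_bd, zero_bd, crz_bd hH (pb_sub ha hb) (pb_sub hq hp), crz_bd hH (pb_sub ha hb) (pb_sub hp hv)⟩

lemma fY'_bd {H : ℤ} (hH : 0 ≤ H) {a b v p q : ℤ × ℤ} (ha : PB H a) (hb : PB H b) (hv : PB H v)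
    (hp : PB H p) (hq : PB H q) : FB (8 * H ^ 2) (fY' v (a - b) p q) :=
  ⟨zero_bd, zero_bd, crz_bd hH (pb_sub hq hp) (pb_sub ha hb), crz_bd hH (pb_sub hp hv) (pb_sub ha hb)⟩

lemma visB_congr {H : ℤ} (hH : 1 ≤ H) {L : List (ℤ × ℤ)}
    (hL : ∀ q ∈ L, |q.1| ≤ H ∧ |q.2| ≤ H) (sg sg' : Form → ℤ) (σ : ℤ) (e f : ℕ)
    (h : ∀ F, FB (8 * H ^ 2) F → sg F = sg' F) : visB sg L σ e f = visB sg' L σ e f := by
  have hH0 : 0 ≤ H := by linarith
  have B := pn_bd hH0 hL
  have one : (1 : ℤ) ≤ 8 * H ^ 2 := by nlinarith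
  have hO : ∀ a b c d k, sg (fOri (pn L a) (pn L b) (pn L c) (pn L d) (pn L k)) =
      sg' (fOri (pn L a) (pn L b) (pn L c) (pn L d) (pn L k)) := fun a b c d k =>
    h _ (fOri_bd hH0 (B a) (B b) (B c) (B d) (B k))
  have hD : ∀ a b c d k, sg (fDot (pn L a) (pn L b) (pn L c) (pn L d) (pn L k)) =
      sg' (fDot (pn L a) (pn L b) (pn L c) (pn L d) (pn L k)) := fun a b c d k =>
    h _ (fDot_bd hH0 (B a) (B b) (B c) (B d) (B k))
  have hX : ∀ a b c d k, sg (fX (pn L a - pn L b) (pn L c) (pn L d) (pn L k)) =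
      sg' (fX (pn L a - pn L b) (pn L c) (pn L d) (pn L k)) := fun a b c d k =>
    h _ (fX_bd hH0 (B a) (B b) (B c) (B d) (B k))
  have hY : ∀ a b c d k, sg (fY (pn L a - pn L b) (pn L c) (pn L d) (pn L k)) =
      sg' (fY (pn L a - pn L b) (pn L c) (pn L d) (pn L k)) := fun a b c d k =>
    h _ (fY_bd hH0 (B a) (B b) (B c) (B d) (B k))
  have hY' : ∀ a b c d k, sg (fY' (pn L c) (pn L a - pn L b) (pn L d) (pn L k)) =
      sg' (fY' (pn L c) (pn L a - pn L b) (pn L d) (pn L k)) := fun a b c d k =>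
    h _ (fY'_bd hH0 (B a) (B b) (B c) (B d) (B k))
  have h0 : sg (0, 1, 0, 0) = sg' (0, 1, 0, 0) :=
    h _ ⟨zero_bd, by simpa using one, zero_bd, zero_bd⟩
  have h1 : sg (0, -1, 0, 1) = sg' (0, -1, 0, 1) :=
    h _ ⟨zero_bd, by simpa using one, zero_bd, by simpa using one⟩
  simp only [visB, vex, eex, sex, hO, hD, hX, hY, hY', h0, h1]

lemma sgR_nonneg_iff (t : ℝ) : 0 ≤ t ↔ 0 ≤ sgR t := by
  unfold sgR
  split_ifs with h1 h2
  · simp [h1.le]
  · constructor
    · intro h; exact absurd h (not_le.2 h2)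
    · intro h; norm_num at h
  · simp; exact not_lt.1 h2

lemma sgR_zero_iff (t : ℝ) : t = 0 ↔ sgR t = 0 := by
  unfold sgR
  split_ifs with h1 h2
  · constructor
    · intro h; exact absurd h (ne_of_gt h1)
    · intro h; norm_num at h
  · constructor
    · intro h; exact absurd h (ne_of_lt h2)
    · intro h; norm_num at h
  · simp; exact le_antisymm (not_lt.1 h1) (not_lt.1 h2)

lemma sees_closed {n N : ℕ} (v : Fin n → ℝ × ℝ) (P : Set (ℝ × ℝ)) (hP : IsClosed P) (e f : Fin n)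
    (a b : Fin N) : IsClosed {z : Fin N → ℝ | Sees v P e (z a) f (z b)} := by
  have : {z : Fin N → ℝ | Sees v P e (z a) f (z b)} =
      ⋂ t ∈ Set.Icc (0:ℝ) 1, {z : Fin N → ℝ | (1 - t) • pt v e (z a) + t • pt v f (z b) ∈ P} := by
    ext z
    simp only [Set.mem_ofPred_eq, Set.mem_iInter, Sees]
    constructor
    · intro h t ht
      apply h
      rw [segment_eq_image]
      exact ⟨t, ht, rfl⟩
    · intro h w hw
      rw [segment_eq_image] at hw
      obtain ⟨t, ht, rfl⟩ := hw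
      exact h t ht
  rw [this]
  refine isClosed_biInter (fun t _ => ?_)
  refine hP.preimage ?_
  unfold pt
  fun_prop

/-- the coordinates of the guards and of the points of the chains -/
def φ (k n : ℕ) : Fin k ⊕ Fin n × Fin (k + 1) ≃ Fin (k + n * (k + 1)) :=
  (Equiv.sumCongr (Equiv.refl _) finProdFinEquiv).trans finSumFinEquiv

end SolT

open SolT

theorem SOL_holds (hV : S_VB) (hM : S_MOB) (hC : S_COD) : S_SOL := by
  intro L P τ H hP hS hH hL k e c x y hch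
  set N := k + L.length * (k + 1) with hN
  set X : (Fin N → ℝ) → Fin k → ℝ := fun z i => z (φ k L.length (Sum.inl i)) with hX
  set Y : (Fin N → ℝ) → Fin L.length → Fin (k + 1) → ℝ := fun z f j => z (φ k L.length (Sum.inr (f, j))) with hY
  set K : Set (Fin N → ℝ) := {z | Chains (zvert L) P k e c (X z) (Y z)} with hK
  have hHz : (1 : ℤ) ≤ H := by exact_mod_cast hH
  have hPc : IsClosed P := by
    exact hP.compact.isClosed
  have memI : ∀ z ∈ K, ∀ i, 0 ≤ z i ∧ z i ≤ 1 := by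
    intro z hz i
    obtain ⟨a, rfl⟩ := (φ k L.length).surjective i
    rcases a with i | ⟨f, j⟩
    · exact hz.xmem i
    · exact hz.ymem f j
  have Kcl : IsClosed K := by
    have : K = {z | ∀ i, 0 ≤ z i ∧ z i ≤ 1} ∩ {z | ∀ f, Y z f 0 = 0} ∩
        {z | ∀ f, Y z f (Fin.last k) = 1} ∩
        {z | ∀ f j, Sees (zvert L) P (e (c f j)) (X z (c f j)) f (Y z f (Fin.castSucc j))} ∩
        {z | ∀ f j, Sees (zvert L) P (e (c f j)) (X z (c f j)) f (Y z f (Fin.succ j))} := by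
      ext z
      constructor
      · intro hz
        exact ⟨⟨⟨⟨memI z hz, hz.first⟩, hz.last⟩, hz.left⟩, hz.right⟩
      · rintro ⟨⟨⟨⟨h1, h2⟩, h3⟩, h4⟩, h5⟩
        exact ⟨fun i => h1 _, fun f j => h1 _, h2, h3, h4, h5⟩
    rw [this]
    refine (((IsClosed.inter ?_ ?_).inter ?_).inter ?_).inter ?_
    · simp only [Set.ofPred_forall]
      refine isClosed_iInter (fun i => ?_)
      exact (isClosed_le continuous_const (continuous_apply i)).inter
        (isClosed_le (continuous_apply i) continuous_const)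
    · simp only [Set.ofPred_forall]
      refine isClosed_iInter (fun i => ?_)
      exact isClosed_eq (continuous_apply _) continuous_const
    · simp only [Set.ofPred_forall]
      refine isClosed_iInter (fun i => ?_)
      exact isClosed_eq (continuous_apply _) continuous_const
    · simp only [Set.ofPred_forall]
      exact isClosed_iInter (fun f => isClosed_iInter (fun j => sees_closed _ P hPc _ _ _ _))
    · simp only [Set.ofPred_forall]
      exact isClosed_iInter (fun f => isClosed_iInter (fun j => sees_closed _ P hPc _ _ _ _))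
  have Kc : IsCompact K := by
    refine IsCompact.of_isClosed_subset (isCompact_univ_pi (fun _ : Fin N => isCompact_Icc
      (a := (0:ℝ)) (b := 1))) Kcl ?_
    intro z hz i _
    exact memI z hz i
  have Kne : K.Nonempty := by
    refine ⟨fun i => Sum.elim x (fun q => y q.1 q.2) ((φ k L.length).symm i), ?_⟩
    have e1 : X (fun i => Sum.elim x (fun q => y q.1 q.2) ((φ k L.length).symm i)) = x := by
      funext i; simp [hX]
    have e2 : Y (fun i => Sum.elim x (fun q => y q.1 q.2) ((φ k L.length).symm i)) = y := by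
      funext f j; simp [hY]
    rw [hK, Set.mem_ofPred_eq, e1, e2]
    exact hch
  obtain ⟨z, hz, hq⟩ := hM N K (8 * (H:ℤ) ^ 2) (by nlinarith) Kc Kne (by
    intro z z' hz hsg
    have h01 : ∀ i, 0 ≤ z' i ∧ z' i ≤ 1 := by
      intro i
      have one : (1 : ℤ) ≤ 8 * (H:ℤ) ^ 2 := by nlinarith
      have z0 : |(0:ℤ)| ≤ 8 * (H:ℤ) ^ 2 := by rw [abs_zero]; linarith
      constructor
      · have h := hsg i i (0, 1, 0, 0) z0 (by simpa using one) z0 z0
        have e1 : ∀ t : ℝ, Form.val (0, 1, 0, 0) t t = t := by intro t; simp [Form.val]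
        rw [e1, e1] at h
        rw [sgR_nonneg_iff, ← h, ← sgR_nonneg_iff]
        exact (memI z hz i).1
      · have h := hsg i i (0, -1, 0, 1) z0 (by simpa using one) z0 (by simpa using one)
        have e1 : ∀ t : ℝ, Form.val (0, -1, 0, 1) t t = 1 - t := by
          intro t; simp [Form.val]; ring
        rw [e1, e1] at h
        have : 0 ≤ 1 - z' i := by
          rw [sgR_nonneg_iff, ← h, ← sgR_nonneg_iff]
          linarith [(memI z hz i).2]
        linarith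
    have h0 : ∀ i, z i = 0 → z' i = 0 := by
      intro i hi
      have one : (1 : ℤ) ≤ 8 * (H:ℤ) ^ 2 := by nlinarith
      have z0 : |(0:ℤ)| ≤ 8 * (H:ℤ) ^ 2 := by rw [abs_zero]; linarith
      have h := hsg i i (0, 1, 0, 0) z0 (by simpa using one) z0 z0
      have e1 : ∀ t : ℝ, Form.val (0, 1, 0, 0) t t = t := by intro t; simp [Form.val]
      rw [e1, e1] at h
      rw [sgR_zero_iff, ← h, ← sgR_zero_iff]
      exact hi
    have h1 : ∀ i, z i = 1 → z' i = 1 := by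
      intro i hi
      have one : (1 : ℤ) ≤ 8 * (H:ℤ) ^ 2 := by nlinarith
      have z0 : |(0:ℤ)| ≤ 8 * (H:ℤ) ^ 2 := by rw [abs_zero]; linarith
      have h := hsg i i (0, -1, 0, 1) z0 (by simpa using one) z0 (by simpa using one)
      have e1 : ∀ t : ℝ, Form.val (0, -1, 0, 1) t t = 1 - t := by
        intro t; simp [Form.val]; ring
      rw [e1, e1] at h
      have : 1 - z' i = 0 := by
        rw [sgR_zero_iff, ← h, ← sgR_zero_iff]
        linarith
      linarith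
    have hs : ∀ (a b : Fin L.length) (i j : Fin N), Sees (zvert L) P a (z i) b (z j) →
        Sees (zvert L) P a (z' i) b (z' j) := by
      intro a b i j h
      have m := memI z hz
      rw [hV L P τ hP hS a b _ _ (h01 i).1 (h01 i).2 (h01 j).1 (h01 j).2]
      rw [hV L P τ hP hS a b _ _ (m i).1 (m i).2 (m j).1 (m j).2] at h
      rw [← h]
      refine visB_congr hHz hL _ _ τ a b (fun F hF => ?_)
      exact (hsg i j F hF.1 hF.2.1 hF.2.2.1 hF.2.2.2).symm
    exact ⟨fun i => h01 _, fun f j => h01 _, fun f => h0 _ (hz.first f), fun f => h1 _ (hz.last f),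
      fun f j => hs _ _ _ _ (hz.left f j), fun f j => hs _ _ _ _ (hz.right f j)⟩)
  -- the codes
  set B : ℤ := (8 * (8 * (H:ℤ) ^ 2)) ^ (4 * N + 2) with hB
  set W : ℕ := (64 * H) ^ (16 * N + 10) with hW
  have hB0 : B = (64 * (H:ℤ) ^ 2) ^ (4 * N + 2) := by rw [hB]; ring_nf
  have hB1 : B ≤ (64 * (H:ℤ)) ^ (8 * N + 4) := by
    rw [hB0]
    have : (64 * (H:ℤ)) ^ (8 * N + 4) = ((64 * (H:ℤ)) ^ 2) ^ (4 * N + 2) := by
      rw [← pow_mul]; congr 1; ring
    rw [this]
    refine pow_le_pow_left₀ (by positivity) ?_ _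
    nlinarith
  have hBpos : 0 < B := by rw [hB0]; positivity
  have hW5 : 5 * B ^ 2 ≤ (W : ℤ) := by
    have h1 : B ^ 2 ≤ ((64 * (H:ℤ)) ^ (8 * N + 4)) ^ 2 := pow_le_pow_left₀ hBpos.le hB1 2
    have h2 : (W : ℤ) = (64 * (H:ℤ)) ^ 2 * ((64 * (H:ℤ)) ^ (8 * N + 4)) ^ 2 := by
      rw [hW]; push_cast
      rw [← pow_mul, ← pow_add]; congr 1; ring
    rw [h2]
    have h3 : (0:ℤ) ≤ ((64 * (H:ℤ)) ^ (8 * N + 4)) ^ 2 := by positivity
    have h4 : (5:ℤ) ≤ (64 * (H:ℤ)) ^ 2 := by nlinarith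
    calc 5 * B ^ 2 ≤ 5 * ((64 * (H:ℤ)) ^ (8 * N + 4)) ^ 2 := by linarith
      _ ≤ _ := mul_le_mul_of_nonneg_right h4 h3
  have hB2 : B ≤ B ^ 2 := by nlinarith
  have hWB : B ≤ (W : ℤ) := by nlinarith
  have hW2B : 2 * B ≤ (W : ℤ) := by nlinarith
  have hW1 : (1 : ℤ) ≤ (W : ℤ) := by linarith
  have cod : ∀ i, ∃ α : Num, α.val = z i ∧ NBd W α := by
    intro i
    obtain ⟨a, b, c', hne, ha, hb, hc', hroot⟩ := hq i
    obtain ⟨α, h1, h2, h3, h4, h5⟩ := hC (z i) a b c' B hne ha hb hc' hroot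
    refine ⟨α, h2, h3.trans hWB, ?_, h5.trans hW2B, h1⟩
    have : (α.2.1 : ℤ) ≤ (W : ℤ) := h4.trans hW5
    exact_mod_cast this
  choose α hα hαB using cod
  have v0 : Num.val ((0, 0, 1) : Num) = 0 := by simp [Num.val]
  have v1 : Num.val ((1, 0, 1) : Num) = 1 := by simp [Num.val]
  refine ⟨fun i => α (φ k L.length (Sum.inl i)), fun f j => if j = 0 then (0, 0, 1) else
    if j = Fin.last k then (1, 0, 1) else α (φ k L.length (Sum.inr (f, j))), ?_, ?_, ?_, ?_, ?_⟩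
  · have e1 : (fun i => (α (φ k L.length (Sum.inl i))).val) = X z := by
      funext i; rw [hα]
    have e2 : (fun (f : Fin L.length) (j : Fin (k + 1)) => Num.val (if j = 0 then (0, 0, 1) else
        if j = Fin.last k then (1, 0, 1) else α (φ k L.length (Sum.inr (f, j))))) = Y z := by
      funext f j
      split_ifs with h h'
      · rw [v0, h]; exact (hz.first f).symm
      · rw [v1, h']; exact (hz.last f).symm
      · rw [hα]
    rw [e1, e2]
    exact hz
  · intro f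
    simp
  · intro f
    have hk : Fin.last k ≠ 0 := by
      intro h
      have h1 := hz.first f
      have h2 := hz.last f
      rw [h, h1] at h2
      norm_num at h2
    simp [hk]
  · intro i
    exact hαB _
  · intro f j
    dsimp only
    split_ifs with h h'
    · exact ⟨by simp, by simp, by simpa using hW1, by simp⟩
    · exact ⟨by simpa using hW1, by simp, by simpa using hW1, by simp⟩
    · exact hαB _

end H612BB
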