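import Pool.Agent.H612.BB.Stubs

/-!
# Triangles with boundary in `P` (task TRI, helper92)
-/

namespace H612BB

open Vis124

theorem TRI_mem {A B : ℝ × ℝ} {θ : ℝ} (h0 : 0 ≤ θ) (h1 : θ ≤ 1) :
    A + θ • (B - A) ∈ segment ℝ A B := by
  rw [segment_eq_image']
  exact ⟨θ, ⟨h0, h1⟩, rfl⟩

theorem TRI_par {b c : ℝ × ℝ} (hb : b ≠ 0) (h : cr b c = 0) : ∃ l : ℝ, c = l • b := by
  unfold cr at h
  by_cases h1 : b.1 = 0
  · have h2 : b.2 ≠ 0 := fun h2 => hb (Prod.ext h1 h2)
    refine ⟨c.2 / b.2, ?_⟩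
    rw [h1] at h
    have h3 : c.1 = 0 := by
      have : b.2 * c.1 = 0 := by linarith
      rcases mul_eq_zero.1 this with h4 | h4
      · exact absurd h4 h2
      · exact h4
    apply Prod.ext
    · simp [h1, h3]
    · simp [h2]
  · refine ⟨c.1 / b.1, ?_⟩
    apply Prod.ext
    · simp [h1]
    · simp only [Prod.smul_snd, smul_eq_mul]
      field_simp
      linarith

theorem TRI_col {A B C X w : ℝ × ℝ} (h : cr (B - A) (C - A) = 0) (hX : X ∈ segment ℝ B C)
    (hw : w ∈ segment ℝ A X) : w ∈ segment ℝ A B ∨ w ∈ segment ℝ A C := by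
  rw [segment_eq_image'] at hX hw
  obtain ⟨t, ⟨ht0, ht1⟩, rfl⟩ := hX
  obtain ⟨r, ⟨hr0, hr1⟩, rfl⟩ := hw
  simp only
  by_cases hb : B - A = 0
  · right
    have hB : B = A := sub_eq_zero.1 hb
    have e1 : A + r • (B + t • (C - B) - A) = A + (r * t) • (C - A) := by
      rw [hB, add_sub_cancel_left, smul_smul]
    rw [e1]
    exact TRI_mem (mul_nonneg hr0 ht0) (mul_le_one₀ hr1 ht0 ht1)
  · obtain ⟨l, hl⟩ := TRI_par hb h
    obtain ⟨m, hm⟩ : ∃ m : ℝ, m = r * (1 - t + t * l) := ⟨_, rfl⟩
    have e1 : A + r • (B + t • (C - B) - A) = A + m • (B - A) := by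
      have e2 : B + t • (C - B) - A = (1 - t) • (B - A) + t • (C - A) := by
        module
      rw [e2, hl, hm, smul_add, smul_smul, smul_smul, smul_smul, ← add_smul]
      congr 2
      ring
    rw [e1]
    rcases lt_or_ge m 0 with h1 | h1
    · right
      have h2 : 1 - t + t * l < 0 := by
        by_contra h3
        push Not at h3
        have := mul_nonneg hr0 h3
        linarith
      have hl0 : l < 0 := by
        by_contra h3
        push Not at h3
        have := mul_nonneg ht0 h3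
        linarith
      have h4 : l ≤ m := by
        rw [hm]
        nlinarith
      have e3 : A + m • (B - A) = A + (m / l) • (C - A) := by
        rw [hl, smul_smul, div_mul_cancel₀ _ hl0.ne]
      rw [e3]
      refine TRI_mem (div_nonneg_of_nonpos h1.le hl0.le) ?_
      rw [div_le_one_of_neg hl0]
      exact h4
    · rcases le_or_gt m 1 with h2 | h2
      · left
        exact TRI_mem h1 h2
      · right
        have h3 : 1 < 1 - t + t * l := by
          by_contra h3
          push Not at h3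
          have : r * (1 - t + t * l) ≤ r * 1 := mul_le_mul_of_nonneg_left h3 hr0
          linarith
        have hl1 : 1 < l := by
          by_contra h4
          push Not at h4
          nlinarith
        have h4 : m ≤ l := by
          rw [hm]
          nlinarith
        have hl0 : 0 < l := by linarith
        have e3 : A + m • (B - A) = A + (m / l) • (C - A) := by
          rw [hl, smul_smul, div_mul_cancel₀ _ hl0.ne']
        rw [e3]
        exact TRI_mem (by positivity) ((div_le_one hl0).2 h4)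

/-- Cramer's rule -/
theorem TRI_cramer (b c z : ℝ × ℝ) (hs : cr b c ≠ 0) :
    z = (cr z c / cr b c) • b + (cr b z / cr b c) • c := by
  unfold cr at *
  apply Prod.ext
  · simp only [Prod.fst_add, Prod.smul_fst, smul_eq_mul]
    rw [div_mul_eq_mul_div, div_mul_eq_mul_div, ← add_div, eq_div_iff hs]
    ring
  · simp only [Prod.snd_add, Prod.smul_snd, smul_eq_mul]
    rw [div_mul_eq_mul_div, div_mul_eq_mul_div, ← add_div, eq_div_iff hs]
    ring

theorem TRI_holds : S_TRI := by
  intro P hP hPc A B C hAB hAC hBC X hX w hw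
  by_cases hs : cr (B - A) (C - A) = 0
  · rcases TRI_col hs hX hw with h | h
    · exact hAB h
    · exact hAC h
  obtain ⟨s, hsd⟩ : ∃ s, s = cr (B - A) (C - A) := ⟨_, rfl⟩
  have hs0 : s ≠ 0 := by rw [hsd]; exact hs
  obtain ⟨u, hu⟩ : ∃ u : ℝ × ℝ → ℝ, u = fun z => cr (z - A) (C - A) / s := ⟨_, rfl⟩
  obtain ⟨v, hv⟩ : ∃ v : ℝ × ℝ → ℝ, v = fun z => cr (B - A) (z - A) / s := ⟨_, rfl⟩
  have huc : Continuous u := by
    rw [hu]
    unfold cr
    fun_prop
  have hvc : Continuous v := by
    rw [hv]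
    unfold cr
    fun_prop
  have hrep : ∀ z, z = A + (u z • (B - A) + v z • (C - A)) := by
    intro z
    have h1 := TRI_cramer (B - A) (C - A) (z - A) hs
    rw [hu, hv, hsd]
    simp only
    rw [← h1]
    simp
  have hTc : IsClosed {z | 0 ≤ u z ∧ 0 ≤ v z ∧ u z + v z ≤ 1} := by
    apply IsClosed.inter (isClosed_le continuous_const huc)
    apply IsClosed.inter (isClosed_le continuous_const hvc)
    exact isClosed_le (huc.add hvc) continuous_const
  have hT0 : IsOpen {z | 0 < u z ∧ 0 < v z ∧ u z + v z < 1} := by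
    apply IsOpen.inter (isOpen_lt continuous_const huc)
    apply IsOpen.inter (isOpen_lt continuous_const hvc)
    exact isOpen_lt (huc.add hvc) continuous_const
  have hside : ∀ z, (0 ≤ u z ∧ 0 ≤ v z ∧ u z + v z ≤ 1) → ¬ (0 < u z ∧ 0 < v z ∧ u z + v z < 1) →
      z ∈ P := by
    rintro z ⟨h1, h2, h3⟩ h4
    rcases h1.lt_or_eq with h5 | h5
    · rcases h2.lt_or_eq with h6 | h6
      · have h7 : u z + v z = 1 := by
          by_contra h7
          exact h4 ⟨h5, h6, lt_of_le_of_ne h3 h7⟩
        apply hBC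
        rw [hrep z]
        have h8 : u z = 1 - v z := by linarith
        have h9 : A + (u z • (B - A) + v z • (C - A)) = B + v z • (C - B) := by
          rw [h8]
          module
        rw [h9]
        exact TRI_mem h2 (by linarith)
      · apply hAB
        rw [hrep z, ← h6, zero_smul, add_zero]
        exact TRI_mem h1 (by linarith)
    · apply hAC
      rw [hrep z, ← h5, zero_smul, zero_add]
      exact TRI_mem h2 (by linarith)
  -- a point outside
  obtain ⟨z₀, hz₀P, hz₀T⟩ : ∃ z₀, z₀ ∉ P ∧ ¬ (0 ≤ u z₀ ∧ 0 ≤ v z₀ ∧ u z₀ + v z₀ ≤ 1) := by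
    have hK : IsCompact ((fun q : ℝ × ℝ => A + (q.1 • (B - A) + q.2 • (C - A))) ''
        (Set.Icc (0 : ℝ) 1 ×ˢ Set.Icc (0 : ℝ) 1)) := by
      apply (isCompact_Icc.prod isCompact_Icc).image
      fun_prop
    have hPK := hP.union hK
    have : NoncompactSpace (ℝ × ℝ) := NormedSpace.noncompactSpace ℝ (ℝ × ℝ)
    have hne := hPK.ne_univ
    obtain ⟨z₀, hz₀⟩ := (Set.ne_univ_iff_exists_notMem _).1 hne
    refine ⟨z₀, fun h => hz₀ (Or.inl h), fun h => hz₀ (Or.inr ?_)⟩
    refine ⟨(u z₀, v z₀), ⟨⟨h.1, ?_⟩, ⟨h.2.1, ?_⟩⟩, (hrep z₀).symm⟩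
    · have := h.2.2
      have := h.2.1
      simp only
      linarith
    · have := h.2.2
      have := h.1
      simp only
      linarith
  have hsub := hPc.subset_or_subset hT0 hTc.isOpen_compl (by
      rw [Set.disjoint_left]
      rintro z ⟨h1, h2, h3⟩ h4
      exact h4 ⟨h1.le, h2.le, h3.le⟩) (by
      intro z hz
      by_cases h1 : 0 < u z ∧ 0 < v z ∧ u z + v z < 1
      · exact Or.inl h1
      · refine Or.inr fun h2 => hz (hside z h2 h1))
  have hTP : ∀ z, (0 ≤ u z ∧ 0 ≤ v z ∧ u z + v z ≤ 1) → z ∈ P := by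
    rcases hsub with h | h
    · exfalso
      have h1 := h hz₀P
      exact hz₀T ⟨h1.1.le, h1.2.1.le, h1.2.2.le⟩
    · intro z hz
      by_contra hzP
      exact h hzP hz
  -- the segment
  apply hTP
  rw [segment_eq_image'] at hX hw
  obtain ⟨t, ⟨ht0, ht1⟩, rfl⟩ := hX
  obtain ⟨r, ⟨hr0, hr1⟩, rfl⟩ := hw
  have hu1 : u (A + r • (B + t • (C - B) - A)) = r * (1 - t) := by
    rw [hu]
    simp only
    rw [div_eq_iff hs0, hsd]
    unfold cr
    simp only [Prod.fst_add, Prod.snd_add, Prod.fst_sub, Prod.snd_sub, Prod.smul_fst,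
      Prod.smul_snd, smul_eq_mul]
    ring
  have hv1 : v (A + r • (B + t • (C - B) - A)) = r * t := by
    rw [hv]
    simp only
    rw [div_eq_iff hs0, hsd]
    unfold cr
    simp only [Prod.fst_add, Prod.snd_add, Prod.fst_sub, Prod.snd_sub, Prod.smul_fst,
      Prod.smul_snd, smul_eq_mul]
    ring
  simp only
  rw [hu1, hv1]
  refine ⟨mul_nonneg hr0 (by linarith), mul_nonneg hr0 ht0, ?_⟩
  nlinarith

end H612BB
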