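import Pool.Agent.H612.BB.T_VIS

/-!
# Visibility as a Boolean function of signs of forms
-/

namespace H612BB

open Vis124 Pool.Agent.NPC Set

/-- cast of an integer point -/
def cst (q : ℤ × ℤ) : ℝ × ℝ := ((q.1 : ℝ), (q.2 : ℝ))

theorem cst_sub (a b : ℤ × ℤ) : cst (a - b) = cst a - cst b := by
  ext <;> simp [cst]

theorem crz_cast (a b : ℤ × ℤ) : ((crz a b : ℤ) : ℝ) = cr (cst a) (cst b) := by
  simp [crz, cr, cst]

theorem cst_pn {L : List (ℤ × ℤ)} {i : ℕ} {j : Fin L.length} (h : i % L.length = j) :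
    cst (pn L i) = zvert L j := by
  have h1 : pn L i = L.get j := by
    rw [pn, h, List.getD_eq_getElem _ _ j.2]
    rfl
  rw [h1]; rfl

theorem cst_pn_self {L : List (ℤ × ℤ)} (j : Fin L.length) : cst (pn L j) = zvert L j :=
  cst_pn (Nat.mod_eq_of_lt j.2)

theorem cst_pn_sc {L : List (ℤ × ℤ)} (j : Fin L.length) :
    cst (pn L (j + 1)) = zvert L (sc j) := by
  apply cst_pn
  rw [sc_val]
  have := j.2
  split_ifs with h
  · exact Nat.mod_eq_of_lt h
  · have : (j : ℕ) + 1 = L.length := by omega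
    rw [this, Nat.mod_self]

theorem cst_pn_pd {L : List (ℤ × ℤ)} (j : Fin L.length) :
    cst (pn L (j + (L.length - 1))) = zvert L (pd j) := by
  apply cst_pn
  obtain ⟨i, rfl⟩ : ∃ i, j = sc i := ⟨pd j, (sc_pd j).symm⟩
  rw [pd_sc, sc_val]
  have := i.2
  split_ifs with h
  · have e : (i : ℕ) + 1 + (L.length - 1) = i + L.length := by omega
    rw [e, Nat.add_mod_right, Nat.mod_eq_of_lt i.2]
  · have e : 0 + (L.length - 1) = i := by omega
    rw [e, Nat.mod_eq_of_lt i.2]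

theorem cst_wd {L : List (ℤ × ℤ)} (j : Fin L.length) :
    cst (pn L (j + 1) - pn L j) = wd (zvert L) j := by
  rw [cst_sub, cst_pn_self, cst_pn_sc]; rfl

theorem cst_ud {L : List (ℤ × ℤ)} (j : Fin L.length) :
    cst (pn L (j + (L.length - 1)) - pn L j) = ud (zvert L) j := by
  rw [cst_sub, cst_pn_self, cst_pn_pd]; rfl

theorem val_fOri (p q r s w : ℤ × ℤ) (x y : ℝ) : (fOri p q r s w).val x y =
    cr (cst p + x • (cst q - cst p) - cst w) (cst r + y • (cst s - cst r) - cst w) := by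
  simp only [Form.val, fOri, crz, cr, cst, Prod.fst_sub, Prod.snd_sub, Prod.fst_add, Prod.snd_add,
    Prod.smul_fst, Prod.smul_snd, smul_eq_mul]
  push_cast; ring

theorem val_fDot (p q r s w : ℤ × ℤ) (x y : ℝ) : (fDot p q r s w).val x y =
    dotp (cst w) (cst p + x • (cst q - cst p)) (cst r + y • (cst s - cst r)) := by
  simp only [Form.val, fDot, dtz, dotp, cst, Prod.fst_sub, Prod.snd_sub, Prod.fst_add,
    Prod.snd_add, Prod.smul_fst, Prod.smul_snd, smul_eq_mul]
  push_cast; ring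

theorem val_fX (w u p q : ℤ × ℤ) (x y : ℝ) : (fX w u p q).val x y =
    cr (cst w) (cst p + x • (cst q - cst p) - cst u) := by
  simp only [Form.val, fX, crz, cr, cst, Prod.fst_sub, Prod.snd_sub, Prod.fst_add, Prod.snd_add,
    Prod.smul_fst, Prod.smul_snd, smul_eq_mul]
  push_cast; ring

theorem val_fY (w u r s : ℤ × ℤ) (x y : ℝ) : (fY w u r s).val x y =
    cr (cst w) (cst r + y • (cst s - cst r) - cst u) := by
  simp only [Form.val, fY, crz, cr, cst, Prod.fst_sub, Prod.snd_sub, Prod.fst_add, Prod.snd_add,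
    Prod.smul_fst, Prod.smul_snd, smul_eq_mul]
  push_cast; ring

theorem val_fY' (w u r s : ℤ × ℤ) (x y : ℝ) : (fY' w u r s).val x y =
    cr (cst r + y • (cst s - cst r) - cst w) (cst u) := by
  simp only [Form.val, fY', crz, cr, cst, Prod.fst_sub, Prod.snd_sub, Prod.fst_add, Prod.snd_add,
    Prod.smul_fst, Prod.smul_snd, smul_eq_mul]
  push_cast; ring

theorem sgR_pos {t : ℝ} (h : 0 < t) : sgR t = 1 := by simp [sgR, h]

theorem sgR_neg {t : ℝ} (h : t < 0) : sgR t = -1 := by simp [sgR, h, not_lt.2 h.le]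

theorem sgR_zero : sgR 0 = 0 := by simp [sgR]

theorem sgR_eq_zero {t : ℝ} : sgR t = 0 ↔ t = 0 := by
  rcases lt_trichotomy t 0 with h | h | h
  · rw [sgR_neg h]; simp [h.ne]
  · simp [h, sgR_zero]
  · rw [sgR_pos h]; simp [h.ne']

theorem sgR_le_zero {t : ℝ} : sgR t ≤ 0 ↔ t ≤ 0 := by
  rcases lt_trichotomy t 0 with h | h | h
  · rw [sgR_neg h]; simp [h.le]
  · simp [h, sgR_zero]
  · rw [sgR_pos h]; simp [h]

theorem zero_lt_sgR {t : ℝ} : 0 < sgR t ↔ 0 < t := by
  rw [← not_le, sgR_le_zero, not_le]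

theorem zero_le_sgR {t : ℝ} : 0 ≤ sgR t ↔ 0 ≤ t := by
  rcases lt_trichotomy t 0 with h | h | h
  · rw [sgR_neg h]; simp [h]
  · simp [h, sgR_zero]
  · rw [sgR_pos h]; simp [h.le]

theorem sgR_mul_neg {s t : ℝ} : sgR s * sgR t < 0 ↔ s * t < 0 := by
  rcases lt_trichotomy s 0 with h | h | h <;> rcases lt_trichotomy t 0 with h' | h' | h'
  · rw [sgR_neg h, sgR_neg h']
    have := mul_pos_of_neg_of_neg h h'
    constructor <;> intro h2
    · norm_num at h2
    · linarith
  · simp [h', sgR_zero]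
  · rw [sgR_neg h, sgR_pos h']
    have := mul_neg_of_neg_of_pos h h'
    constructor <;> intro h2
    · exact this
    · norm_num
  · simp [h, sgR_zero]
  · simp [h, sgR_zero]
  · simp [h, sgR_zero]
  · rw [sgR_pos h, sgR_neg h']
    have := mul_neg_of_pos_of_neg h h'
    constructor <;> intro h2
    · exact this
    · norm_num
  · simp [h', sgR_zero]
  · rw [sgR_pos h, sgR_pos h']
    have := mul_pos h h'
    constructor <;> intro h2
    · norm_num at h2
    · linarith

theorem tau_pos {s : ℤ} (hs : s = 1 ∨ s = -1) {t : ℝ} : 0 < s * sgR t ↔ 0 < (s : ℝ) * t := by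
  rcases hs with rfl | rfl
  · simp [zero_lt_sgR]
  · rcases lt_trichotomy t 0 with h | h | h
    · rw [sgR_neg h]; simp [h]
    · simp [h, sgR_zero]
    · rw [sgR_pos h]; simp [h.le]

theorem tau_neg {s : ℤ} (hs : s = 1 ∨ s = -1) {t : ℝ} : s * sgR t < 0 ↔ (s : ℝ) * t < 0 := by
  rcases hs with rfl | rfl
  · rcases lt_trichotomy t 0 with h | h | h
    · rw [sgR_neg h]; simp [h]
    · simp [h, sgR_zero]
    · rw [sgR_pos h]; simp [h.le]
  · rcases lt_trichotomy t 0 with h | h | h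
    · rw [sgR_neg h]; simp [h.le]
    · simp [h, sgR_zero]
    · rw [sgR_pos h]; simp [h]

/-- `pt` in terms of `pn` -/
theorem pt_pn {L : List (ℤ × ℤ)} (e : Fin L.length) (x : ℝ) :
    cst (pn L e) + x • (cst (pn L (e + 1)) - cst (pn L e)) = pt (zvert L) e x := by
  rw [cst_pn_self, cst_pn_sc]; rfl

theorem pt_z {L : List (ℤ × ℤ)} (e : Fin L.length) (x : ℝ) :
    zvert L e + x • (zvert L (sc e) - zvert L e) = pt (zvert L) e x := rfl

theorem vex_iff {L : List (ℤ × ℤ)} {τ : ℤ} (hτ : τ = 1 ∨ τ = -1) (e f k : Fin L.length)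
    (x y : ℝ) : vex (fun F => sgR (F.val x y)) L τ e f k = true ↔
      cr (pt (zvert L) e x - zvert L k) (pt (zvert L) f y - zvert L k) = 0 ∧
      dotp (zvert L k) (pt (zvert L) e x) (pt (zvert L) f y) ≤ 0 ∧
      pt (zvert L) f y - zvert L k ∈ Sec (-(τ : ℝ)) (wd (zvert L) k) (ud (zvert L) k) := by
  have hτ' : -τ = 1 ∨ -τ = -1 := by omega
  have e1 : ∀ z : ℤ, (0 < -τ * z) ↔ 0 < -(τ : ℝ) * (z : ℝ) := by
    intro z
    rw [show -(τ : ℝ) * (z : ℝ) = ((-τ * z : ℤ) : ℝ) by push_cast; ring]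
    exact_mod_cast Iff.rfl
  have e2 : ∀ z : ℤ, (-τ * z ≤ 0) ↔ -(τ : ℝ) * (z : ℝ) ≤ 0 := by
    intro z
    rw [show -(τ : ℝ) * (z : ℝ) = ((-τ * z : ℤ) : ℝ) by push_cast; ring]
    exact_mod_cast Iff.rfl
  have e3 : ∀ t : ℝ, 0 < -τ * sgR t ↔ 0 < -(τ : ℝ) * t := by
    intro t
    rw [tau_pos hτ']; push_cast; rfl
  simp only [vex, Bool.and_eq_true, Bool.or_eq_true, decide_eq_true_eq, sgR_eq_zero, sgR_le_zero,
    e3, e1, e2, crz_cast, val_fOri, val_fDot, val_fY, val_fY', cst_pn_self, cst_pn_sc, pt_z,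
    cst_wd, cst_ud]
  simp only [Sec, mem_setOf_eq]
  tauto

theorem eex_iff {L : List (ℤ × ℤ)} {τ : ℤ} (hτ : τ = 1 ∨ τ = -1) (e f l : Fin L.length)
    (x y : ℝ) : eex (fun F => sgR (F.val x y)) L τ e f l = true ↔
      0 < (τ : ℝ) * cr (wd (zvert L) l) (pt (zvert L) e x - zvert L l) ∧
      (τ : ℝ) * cr (wd (zvert L) l) (pt (zvert L) f y - zvert L l) < 0 ∧
      cr (pt (zvert L) e x - zvert L l) (pt (zvert L) f y - zvert L l) *
        cr (pt (zvert L) e x - zvert L (sc l)) (pt (zvert L) f y - zvert L (sc l)) < 0 := by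
  simp only [eex, Bool.and_eq_true, decide_eq_true_eq, tau_pos hτ, tau_neg hτ, sgR_mul_neg,
    val_fOri, val_fX, val_fY, cst_pn_self, cst_pn_sc, pt_z, cst_wd]
  tauto

theorem sex_iff {L : List (ℤ × ℤ)} {τ : ℤ} (hτ : τ = 1 ∨ τ = -1) (e f : Fin L.length)
    (x y : ℝ) : sex (fun F => sgR (F.val x y)) L τ e f = true ↔
      0 < x ∧ x < 1 ∧ (τ : ℝ) * cr (wd (zvert L) e) (pt (zvert L) f y - zvert L e) < 0 := by
  have e1 : Form.val (0, 1, 0, 0) x y = x := by simp [Form.val]
  have e2 : Form.val (0, -1, 0, 1) x y = 1 - x := by simp [Form.val]; ring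
  simp only [sex, Bool.and_eq_true, decide_eq_true_eq, tau_neg hτ, zero_lt_sgR, e1, e2,
    val_fY, cst_pn_self, cst_pn_sc, pt_z, cst_wd, sub_pos]
  tauto

theorem VB_of (hV : S_VIS) : S_VB := by
  intro L P τ h hs e f x y hx0 hx1 hy0 hy1
  have hτ : τ = 1 ∨ τ = -1 := by
    rcases hs.sig with h1 | h1
    · left; exact_mod_cast h1
    · right; exact_mod_cast h1
  have hA : pt (zvert L) e x ∈ curve (zvert L) := by
    refine mem_iUnion.2 ⟨e, ?_⟩
    rw [edge_eq]
    exact ⟨x, hx0, hx1, rfl⟩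
  have key := hV L.length (zvert L) P τ h hs (pt (zvert L) e x) (pt (zvert L) f y) hA
  rw [Sees, ← not_iff_not, key]
  simp only [visB, Bool.and_eq_true, List.all_eq_true, List.mem_range, Bool.not_eq_true',
    not_and_or, not_forall, Bool.not_eq_false]
  have c1 : (∃ k, ∃ (_ : k < L.length), vex (fun F => sgR (F.val x y)) L τ e f k = true) ↔
      (∃ k, cr (pt (zvert L) e x - zvert L k) (pt (zvert L) f y - zvert L k) = 0 ∧
      dotp (zvert L k) (pt (zvert L) e x) (pt (zvert L) f y) ≤ 0 ∧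
      pt (zvert L) f y - zvert L k ∈ Sec (-(τ : ℝ)) (wd (zvert L) k) (ud (zvert L) k)) := by
    constructor
    · rintro ⟨k, hk, h1⟩
      exact ⟨⟨k, hk⟩, (vex_iff hτ e f ⟨k, hk⟩ x y).1 h1⟩
    · rintro ⟨k, h1⟩
      exact ⟨k, k.2, (vex_iff hτ e f k x y).2 h1⟩
  have c2 : (∃ k, ∃ (_ : k < L.length), eex (fun F => sgR (F.val x y)) L τ e f k = true) ↔
      (∃ l, 0 < (τ : ℝ) * cr (wd (zvert L) l) (pt (zvert L) e x - zvert L l) ∧
      (τ : ℝ) * cr (wd (zvert L) l) (pt (zvert L) f y - zvert L l) < 0 ∧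
      cr (pt (zvert L) e x - zvert L l) (pt (zvert L) f y - zvert L l) *
        cr (pt (zvert L) e x - zvert L (sc l)) (pt (zvert L) f y - zvert L (sc l)) < 0) := by
    constructor
    · rintro ⟨k, hk, h1⟩
      exact ⟨⟨k, hk⟩, (eex_iff hτ e f ⟨k, hk⟩ x y).1 h1⟩
    · rintro ⟨k, h1⟩
      exact ⟨k, k.2, (eex_iff hτ e f k x y).2 h1⟩
  have c3 : (∃ l, ∃ a : ℝ, 0 < a ∧ a < 1 ∧ pt (zvert L) e x = pt (zvert L) l a ∧
      (τ : ℝ) * cr (wd (zvert L) l) (pt (zvert L) f y - zvert L l) < 0) ↔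
      sex (fun F => sgR (F.val x y)) L τ e f = true := by
    rw [sex_iff hτ]
    constructor
    · rintro ⟨l, a, ha0, ha1, hpt, hneg⟩
      have hle : l = e := by
        by_contra hne
        have hmem : pt (zvert L) l a ∈ edge (zvert L) l ∩ edge (zvert L) e := by
          refine ⟨by rw [edge_eq]; exact ⟨a, ha0.le, ha1.le, rfl⟩, ?_⟩
          rw [← hpt, edge_eq]; exact ⟨x, hx0, hx1, rfl⟩
        have h2 := (h.simple l e hne hmem).1
        have hw := wd_ne h l
        rcases h2 with h2 | h2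
        · have : a • wd (zvert L) l = 0 := by
            have h3 : zvert L l + a • wd (zvert L) l = zvert L l := h2
            simpa using h3
          rcases smul_eq_zero.1 this with h3 | h3
          · exact ha0.ne' h3
          · exact hw h3
        · have h3 : zvert L l + a • wd (zvert L) l = zvert L (sc l) := h2
          have h4 : zvert L (sc l) = zvert L l + wd (zvert L) l := by unfold wd; abel
          rw [h4] at h3
          have h5 : a • wd (zvert L) l = wd (zvert L) l := add_left_cancel h3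
          have h6 : (a - 1) • wd (zvert L) l = 0 := by rw [sub_smul, one_smul, h5, sub_self]
          rcases smul_eq_zero.1 h6 with h7 | h7
          · linarith
          · exact hw h7
      subst hle
      have hax : x = a := by
        have h3 : x • wd (zvert L) l = a • wd (zvert L) l := add_left_cancel hpt
        exact smul_left_injective ℝ (wd_ne h l) h3
      subst hax
      exact ⟨ha0, ha1, hneg⟩
    · rintro ⟨h1, h2, h3⟩
      exact ⟨e, x, h1, h2, rfl, h3⟩
  rw [c3, ← c1, ← c2]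
  simp only [or_assoc]

theorem VB_holds : S_VB := VB_of VIS_holds

end H612BB
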