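import Pool.Agent.H612.BB.Stubs

/-!
# The visibility criterion: from a boundary point to an arbitrary point

The proofs follow `exit_of_not_visible` and `not_visible_of_exit` of helper124's library.
-/

namespace H612BB

open Vis124 Pool.Agent.NPC Set

theorem vis_fwd {n : ℕ} {v : Fin n → ℝ × ℝ} {P : Set (ℝ × ℝ)} {σ : ℝ}
    (h : IsSimplePolygon v P) (hs : Side v P σ) {A B : ℝ × ℝ} (hA : A ∈ curve v)
    (hnv : ¬ segment ℝ A B ⊆ P) :
    (∃ k, cr (A - v k) (B - v k) = 0 ∧ dotp (v k) A B ≤ 0 ∧
      B - v k ∈ Sec (-σ) (wd v k) (ud v k)) ∨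
    (∃ l, 0 < σ * cr (wd v l) (A - v l) ∧ σ * cr (wd v l) (B - v l) < 0 ∧
      cr (A - v l) (B - v l) * cr (A - v (sc l)) (B - v (sc l)) < 0) ∨
    (∃ l, ∃ a : ℝ, 0 < a ∧ a < 1 ∧ A = pt v l a ∧ σ * cr (wd v l) (B - v l) < 0) := by
  obtain ⟨hσ, hint, hext⟩ := hs
  have hAB : A ≠ B := by
    rintro rfl
    apply hnv
    rw [segment_same]
    exact singleton_subset_iff.2 (curve_subset h hA)
  rw [Set.not_subset] at hnv
  obtain ⟨q, hq, hqP⟩ := hnv
  obtain ⟨t1, ht10, ht11, hq1⟩ := seg_param.1 hq
  set z := B - A with hz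
  have hσ2 : σ ^ 2 = 1 := by rcases hσ with rfl | rfl <;> norm_num
  have hz0 : z ≠ 0 := sub_ne_zero.2 hAB.symm
  -- last point on the curve
  set T : Set ℝ := {t | t ∈ Icc 0 t1 ∧ A + t • z ∈ curve v} with hT
  have hcc : IsClosed (curve v) := by rw [← h.boundary]; exact isClosed_frontier
  have hTc : IsCompact T := by
    have h1 : T = Icc 0 t1 ∩ (fun t : ℝ => A + t • z) ⁻¹' (curve v) := rfl
    rw [h1]
    exact isCompact_Icc.inter_right (hcc.preimage (by fun_prop))
  have hT0 : T.Nonempty := ⟨0, ⟨le_rfl, ht10⟩, by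
    rw [zero_smul, add_zero]; exact hA⟩
  have hmem := hTc.sSup_mem hT0
  set t0 := sSup T with ht0
  obtain ⟨⟨ht00, ht01⟩, hc⟩ := hmem
  have hlt : t0 < t1 := by
    rcases lt_or_eq_of_le ht01 with h1 | h1
    · exact h1
    · exfalso
      apply hqP
      rw [hq1, ← h1]; exact curve_subset h hc
  have hafter : ∀ s, 0 < s → s < t1 - t0 → (A + t0 • z) + s • z ∈ Pᶜ := by
    set S : Set (ℝ × ℝ) := (fun t : ℝ => A + t • z) '' Ioc t0 t1 with hS
    have h1 : S ⊆ Pᶜ := by
      apply absorbs_ext h S
      · exact isPreconnected_Ioc.image _ (by fun_prop)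
      · rw [Set.disjoint_left]
        rintro _ ⟨t, ⟨ht, ht'⟩, rfl⟩ hcur
        have : t ≤ t0 := le_csSup hTc.bddAbove ⟨⟨by linarith, ht'⟩, hcur⟩
        linarith
      · exact ⟨q, ⟨t1, ⟨hlt, le_rfl⟩, hq1.symm⟩, hqP⟩
    intro s hs0 hs1
    apply h1
    refine ⟨t0 + s, ⟨by linarith, by linarith⟩, ?_⟩
    simp only
    rw [add_smul]; abel
  have hc' := hc
  simp only [curve, mem_iUnion] at hc'
  obtain ⟨l, hl⟩ := hc'
  rw [edge_eq] at hl
  obtain ⟨a, ha0, ha1, hca⟩ := hl
  have ht0lt1 : t0 < 1 := by linarith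
  -- the vertex case
  have hvert : ∀ k, A + t0 • z = v k → cr (A - v k) (B - v k) = 0 ∧ dotp (v k) A B ≤ 0 ∧
      B - v k ∈ Sec (-σ) (wd v k) (ud v k) := by
    intro k hk
    have hjk : B - v k = (1 - t0) • z := by
      rw [← hk, sub_smul, one_smul, hz]; abel
    have hik : A - v k = (-t0) • z := by
      rw [← hk, neg_smul]; abel
    have hzs : z ∈ Sec (-σ) (wd v k) (ud v k) := by
      rw [hk] at hafter
      have hcontra : ∀ {Q : Set (ℝ × ℝ)}, Q ⊆ P →
          (∃ δ > 0, ∀ s : ℝ, 0 < s → s < δ → v k + s • z ∈ Q) → False := by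
        rintro Q hQ ⟨δ, hδ, hs⟩
        have hm : 0 < min (δ / 2) ((t1 - t0) / 2) := lt_min (by linarith) (by linarith)
        have h2 := hs _ hm (lt_of_le_of_lt (min_le_left _ _) (by linarith))
        have h3 := hafter _ hm (lt_of_le_of_lt (min_le_right _ _) (by linarith))
        exact h3 (hQ h2)
      rcases sec_trichotomy (wd_ne h k) (ud_ne h k) (not_same_dir h k) z with h1 | h1 | h1
      · rcases hσ with rfl | rfl
        · exact (hcontra interior_subset (vertex_ev (hint k) h1)).elim
        · simpa using h1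
      · rcases hσ with rfl | rfl
        · exact h1
        · exact (hcontra interior_subset (vertex_ev (hint k) h1)).elim
      · exact (hcontra Subset.rfl (ray_ev h h1)).elim
    refine ⟨?_, ?_, ?_⟩
    · rw [hik, hjk, cr_smul_left, cr_smul_right, cr_self, mul_zero, mul_zero]
    · have e1 : dotp (v k) A B = -(t0 * (1 - t0)) * (z.1 ^ 2 + z.2 ^ 2) := by
        rw [← hk, hz]; simp [dotp]; ring
      rw [e1]
      have h2 : 0 ≤ t0 * (1 - t0) := mul_nonneg ht00 (by linarith)
      have h3 := norm2_pos hz0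
      nlinarith
    · rw [hjk]; exact smul_mem_sec (by linarith) hzs
  rcases eq_or_lt_of_le ha0 with ha0' | ha0'
  · left
    exact ⟨l, hvert l (by rw [hca, ← ha0', zero_smul, add_zero])⟩
  rcases eq_or_lt_of_le ha1 with ha1' | ha1'
  · left
    exact ⟨sc l, hvert (sc l) (by rw [hca, ha1', one_smul]; unfold wd; abel)⟩
  -- the edge case
  right
  have hcontra : ∀ {Q : Set (ℝ × ℝ)}, Q ⊆ P →
      (∃ δ > 0, ∀ s : ℝ, 0 < s → s < δ → v l + a • wd v l + s • z ∈ Q) → False := by
    rintro Q hQ ⟨δ, hδ, hs⟩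
    have hm : 0 < min (δ / 2) ((t1 - t0) / 2) := lt_min (by linarith) (by linarith)
    have h2 := hs _ hm (lt_of_le_of_lt (min_le_left _ _) (by linarith))
    have h3 := hafter _ hm (lt_of_le_of_lt (min_le_right _ _) (by linarith))
    rw [hca] at h3
    exact h3 (hQ h2)
  have hneg : σ * cr (wd v l) z < 0 := by
    rcases lt_trichotomy (σ * cr (wd v l) z) 0 with h1 | h1 | h1
    · exact h1
    · exfalso
      have hσ0 : σ ≠ 0 := by rcases hσ with rfl | rfl <;> norm_num
      have h2 : cr (wd v l) z = 0 := by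
        rcases mul_eq_zero.1 h1 with h3 | h3
        · exact absurd h3 hσ0
        · exact h3
      obtain ⟨c, hcz⟩ := parallel (wd_ne h l) h2
      apply hcontra (Q := P) Subset.rfl
      set m : ℝ := min a (1 - a) with hm
      have hmp : 0 < m := lt_min ha0' (by linarith)
      refine ⟨m / (|c| + 1), by positivity, ?_⟩
      intro s hs0 hs1
      rw [lt_div_iff₀ (by positivity)] at hs1
      have e3 : |s * c| ≤ m := by
        rw [abs_mul, abs_of_pos hs0]; nlinarith
      have e4 := abs_le.1 e3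
      have m1 : m ≤ a := min_le_left _ _
      have m2 : m ≤ 1 - a := min_le_right _ _
      apply curve_subset h
      refine mem_iUnion.2 ⟨l, ?_⟩
      rw [edge_eq]
      refine ⟨a + s * c, by linarith, by linarith, ?_⟩
      rw [hcz, smul_smul, add_smul]; abel
    · exact (hcontra interior_subset
        (cross_ev h (absorbs_int h) hσ2 (hint l) ha0' ha1' h1)).elim
  have evi : A - v l = a • wd v l - t0 • z := by
    have : A = v l + a • wd v l - t0 • z := by rw [← hca]; abel
    rw [this]; abel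
  have evj : B - v l = a • wd v l + (1 - t0) • z := by
    have : B = A + z := by rw [hz]; abel
    rw [this, sub_smul, one_smul]
    have h2 : A + z - v l = (A - v l) + z := by abel
    rw [h2, evi]; abel
  have eBl : σ * cr (wd v l) (B - v l) = (1 - t0) * (σ * cr (wd v l) z) := by
    rw [evj]; simp [cr]; ring
  have eBneg : σ * cr (wd v l) (B - v l) < 0 := by
    rw [eBl]; nlinarith
  rcases eq_or_lt_of_le ht00 with h1 | ht0pos
  · right
    refine ⟨l, a, ha0', ha1', ?_, eBneg⟩
    rw [← h1, zero_smul, add_zero] at hca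
    exact hca
  · left
    refine ⟨l, ?_, eBneg, ?_⟩
    · have e1 : σ * cr (wd v l) (A - v l) = -t0 * (σ * cr (wd v l) z) := by
        rw [evi]; simp [cr]; ring
      rw [e1]; nlinarith
    · have e1 : cr (A - v l) (B - v l) = a * cr (wd v l) z := by
        rw [evi, evj]; simp [cr]; ring
      have hsc : v (sc l) = v l + wd v l := by unfold wd; abel
      have e2 : cr (A - v (sc l)) (B - v (sc l)) = (a - 1) * cr (wd v l) z := by
        have f1 : A - v (sc l) = a • wd v l - t0 • z - wd v l := by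
          rw [hsc, ← evi]; abel
        have f2 : B - v (sc l) = a • wd v l + (1 - t0) • z - wd v l := by
          rw [hsc, ← evj]; abel
        rw [f1, f2]; simp [cr]; ring
      rw [e1, e2]
      have hcrne : cr (wd v l) z ≠ 0 := by
        intro h0; rw [h0, mul_zero] at hneg; exact lt_irrefl _ hneg
      have h3 : 0 < (cr (wd v l) z) ^ 2 := by positivity
      have h4 : 0 < a * (1 - a) := mul_pos ha0' (by linarith)
      have h5 : a * cr (wd v l) z * ((a - 1) * cr (wd v l) z) =
        -((a * (1 - a)) * (cr (wd v l) z) ^ 2) := by ring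
      rw [h5]
      have := mul_pos h4 h3
      linarith

theorem vis_bwd {n : ℕ} {v : Fin n → ℝ × ℝ} {P : Set (ℝ × ℝ)} {σ : ℝ}
    (h : IsSimplePolygon v P) (hs : Side v P σ) {A B : ℝ × ℝ}
    (hex : (∃ k, cr (A - v k) (B - v k) = 0 ∧ dotp (v k) A B ≤ 0 ∧
      B - v k ∈ Sec (-σ) (wd v k) (ud v k)) ∨
    (∃ l, 0 < σ * cr (wd v l) (A - v l) ∧ σ * cr (wd v l) (B - v l) < 0 ∧
      cr (A - v l) (B - v l) * cr (A - v (sc l)) (B - v (sc l)) < 0) ∨
    (∃ l, ∃ a : ℝ, 0 < a ∧ a < 1 ∧ A = pt v l a ∧ σ * cr (wd v l) (B - v l) < 0)) :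
    ¬ segment ℝ A B ⊆ P := by
  obtain ⟨hσ, hint, hext⟩ := hs
  intro hsub
  have hσ2 : (-σ) ^ 2 = 1 := by rcases hσ with rfl | rfl <;> norm_num
  rcases hex with ⟨k, h1, h2, h3⟩ | ⟨l, h1, h2, h3⟩ | ⟨l, a, ha0, ha1, hA, hneg⟩
  · have hAB : A ≠ B := by
      rintro rfl
      have h4 : A - v k = 0 := by
        by_contra hne
        have := norm2_pos hne
        simp only [dotp] at h2
        simp only [Prod.fst_sub, Prod.snd_sub] at this
        nlinarith
      rw [h4] at h3
      simp [Sec, cr] at h3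
    have h1' : ori A B (v k) = 0 := by
      have : ori A B (v k) = cr (A - v k) (B - v k) := by simp [ori, cr]; ring
      rw [this, h1]
    obtain ⟨t, ht0, ht1, ht⟩ := between hAB h1' h2
    obtain ⟨δ, hδ, hs⟩ := vertex_ev (hext k) h3
    have hm : 0 < min (δ / 2) 1 := lt_min (by linarith) one_pos
    set s := min (δ / 2) 1 with hsdef
    have h4 := hs s hm (lt_of_le_of_lt (min_le_left _ _) (by linarith))
    apply h4
    apply hsub
    rw [seg_param]
    have hs1 : s ≤ 1 := min_le_right _ _
    refine ⟨t + s * (1 - t), by nlinarith, by nlinarith, ?_⟩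
    rw [ht]
    have : B - (A + t • (B - A)) = (1 - t) • (B - A) := by
      rw [sub_smul, one_smul]; abel
    rw [this, smul_smul, add_smul]; abel
  · -- the crossing point
    set z := B - A with hz
    set p := cr (wd v l) (A - v l) with hp
    set q := cr (wd v l) (B - v l) with hq
    set α := cr (A - v l) (B - v l) with hα
    set β := cr (A - v (sc l)) (B - v (sc l)) with hβ
    have hcr : cr (wd v l) z = q - p := by
      rw [hq, hp, hz]; simp [cr, wd]; ring
    have hcr2 : cr (wd v l) z = α - β := by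
      rw [hα, hβ, hz]; simp [cr, wd]; ring
    have hneg : 0 < (-σ) * cr (wd v l) z := by rw [hcr]; nlinarith
    have hcrne : cr (wd v l) z ≠ 0 := by
      intro h0; rw [h0, mul_zero] at hneg; exact lt_irrefl _ hneg
    have hqp : q - p ≠ 0 := by rw [← hcr]; exact hcrne
    have hαβ : α - β ≠ 0 := by rw [← hcr2]; exact hcrne
    -- parameters
    set a := α / (α - β) with ha
    set t := -p / (q - p) with ht
    have ha01 : 0 < a ∧ a < 1 := by
      rcases mul_neg_iff.1 h3 with ⟨hα0, hβ0⟩ | ⟨hα0, hβ0⟩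
      · have : 0 < α - β := by linarith
        exact ⟨div_pos hα0 this, by rw [ha, div_lt_one this]; linarith⟩
      · have : α - β < 0 := by linarith
        exact ⟨div_pos_of_neg_of_neg hα0 this, by rw [ha, div_lt_one_of_neg this]; linarith⟩
    have ht01 : 0 < t ∧ t < 1 := by
      rcases hσ with rfl | rfl
      · have h5 : q - p < 0 := by linarith
        exact ⟨div_pos_of_neg_of_neg (by linarith) h5, by
          rw [ht, div_lt_one_of_neg h5]; linarith⟩
      · have h5 : 0 < q - p := by linarith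
        exact ⟨div_pos (by linarith) h5, by rw [ht, div_lt_one h5]; linarith⟩
    have hpt : v l + a • wd v l = A + t • z := by
      have e1 : a * (α - β) = α := by rw [ha]; exact div_mul_cancel₀ _ hαβ
      have e2 : t * (q - p) = -p := by rw [ht]; exact div_mul_cancel₀ _ hqp
      set e := v l + a • wd v l - (A + t • z) with he
      have c1 : cr (wd v l) e = 0 := by
        have : cr (wd v l) e = -p - t * cr (wd v l) z := by
          rw [he, hp]; simp [cr, wd]; ring
        rw [this, hcr]; linarith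
      have c2 : cr e z = 0 := by
        have : cr e z = - α + a * cr (wd v l) z := by
          rw [he, hα, hz]; simp [cr]; ring
        rw [this, hcr2]; linarith
      have := cramer hcrne e
      rw [c1, c2] at this
      simp only [zero_div, zero_smul, add_zero] at this
      exact sub_eq_zero.1 (he ▸ this)
    obtain ⟨δ, hδ, hs⟩ := cross_ev h (absorbs_ext h) hσ2 (hext l) ha01.1 ha01.2 hneg
    set s := min (δ / 2) (1 - t) with hsdef
    have hm : 0 < s := lt_min (by linarith) (by linarith [ht01.2])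
    have h4 := hs s hm (lt_of_le_of_lt (min_le_left _ _) (by linarith))
    apply h4
    apply hsub
    rw [seg_param, hpt]
    have hs1 : s ≤ 1 - t := min_le_right _ _
    refine ⟨t + s, by linarith [ht01.1], by linarith, ?_⟩
    rw [add_smul]; abel
  · have hneg' : 0 < (-σ) * cr (wd v l) (B - A) := by
      have e : cr (wd v l) (B - v l) = cr (wd v l) (B - A) := by
        rw [hA]; simp [cr, pt]; ring
      rw [e] at hneg; linarith
    obtain ⟨δ, hδ, hs⟩ := cross_ev h (absorbs_ext h) hσ2 (hext l) ha0 ha1 hneg'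
    have hm : 0 < min (δ / 2) 1 := lt_min (by linarith) one_pos
    set s := min (δ / 2) 1 with hsdef
    have h4 := hs s hm (lt_of_le_of_lt (min_le_left _ _) (by linarith))
    apply h4
    apply hsub
    rw [seg_param]
    have hs1 : s ≤ 1 := min_le_right _ _
    exact ⟨s, hm.le, hs1, by rw [hA]; rfl⟩

theorem VIS_holds : S_VIS := by
  intro n v P σ h hs A B hA
  exact ⟨vis_fwd h hs hA, vis_bwd h hs⟩

end H612BB
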